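import Mathlib
import Pool.Agent.N328.CD.Defs

/-!
# No matching edge inside a small set (part EDG of project CD, helper328; proof by helper491)
-/

set_option autoImplicit false

namespace Pool.Agent.N491.CD
open Finset Pool.Agent.H160R2.HF Pool.Agent.N328.LF Pool.Agent.H185C Pool.Agent.N328.CD

section det
variable {V E : Type} [Fintype V] [Fintype E] [DecidableEq V] [DecidableEq E]

/-- the short circuits depend only on the permutations over the 2-factor -/
theorem shortV_congr (B : OrGraph V E) (F : Finset E) (s : Equiv.Perm V) (ε : V → E)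
    (hs : IsPerm B F s ε) {N : ℕ} (p q : E → Equiv.Perm (Fin N)) (h : ∀ e ∈ F, p e = q e) (ℓ : ℕ) :
    shortV B s ε p ℓ = shortV B s ε q ℓ := by
  have h1 : sg B s ε p = sg B s ε q := by
    funext v
    unfold sg
    rw [h _ (hs.2.1 v)]
  have h2 : lperm B s ε p = lperm B s ε q := by
    unfold lperm
    simp only [h1]
  unfold shortV
  rw [h2]

/-- resampling one coordinate -/
theorem resample {N : ℕ} (e : E) (S : Finset (E → Equiv.Perm (Fin N))) (K : ℕ)
    (h : ∀ p : E → Equiv.Perm (Fin N),
      (univ.filter (fun σ : Equiv.Perm (Fin N) => Function.update p e σ ∈ S)).card * N ≤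
        K * N.factorial) :
    S.card * N ≤ K * N.factorial ^ Fintype.card E := by
  classical
  have hinv : Function.Involutive (fun x : (E → Equiv.Perm (Fin N)) × Equiv.Perm (Fin N) =>
      (Function.update x.1 e x.2, x.1 e)) := by
    rintro ⟨p, σ⟩
    simp
  have h1 : ∑ x : (E → Equiv.Perm (Fin N)) × Equiv.Perm (Fin N),
      (if Function.update x.1 e x.2 ∈ S then 1 else 0) =
      ∑ x : (E → Equiv.Perm (Fin N)) × Equiv.Perm (Fin N), (if x.1 ∈ S then 1 else 0) :=
    Equiv.sum_comp hinv.toPerm
      (fun x : (E → Equiv.Perm (Fin N)) × Equiv.Perm (Fin N) => if x.1 ∈ S then 1 else 0)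
  have h2 : ∑ x : (E → Equiv.Perm (Fin N)) × Equiv.Perm (Fin N), (if x.1 ∈ S then 1 else 0) =
      S.card * N.factorial := by
    rw [Fintype.sum_prod_type]
    have h3 : ∀ p ∈ (univ : Finset (E → Equiv.Perm (Fin N))),
        ∑ _σ : Equiv.Perm (Fin N), (if p ∈ S then 1 else 0) =
          (if p ∈ S then 1 else 0) * N.factorial := by
      intro p _
      rw [Finset.sum_const, Finset.card_univ, Fintype.card_perm, Fintype.card_fin, smul_eq_mul,
        mul_comm]
    rw [Finset.sum_congr rfl h3, ← Finset.sum_mul, Finset.sum_ite_mem, univ_inter,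
      Finset.sum_const, smul_eq_mul, mul_one]
  have h3 : ∑ x : (E → Equiv.Perm (Fin N)) × Equiv.Perm (Fin N),
      (if Function.update x.1 e x.2 ∈ S then 1 else 0) =
      ∑ p : E → Equiv.Perm (Fin N),
        (univ.filter (fun σ : Equiv.Perm (Fin N) => Function.update p e σ ∈ S)).card := by
    rw [Fintype.sum_prod_type]
    apply Finset.sum_congr rfl
    intro p _
    rw [Finset.card_filter]
  have h4 : (∑ p : E → Equiv.Perm (Fin N),
      (univ.filter (fun σ : Equiv.Perm (Fin N) => Function.update p e σ ∈ S)).card) * N ≤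
      N.factorial ^ Fintype.card E * (K * N.factorial) := by
    rw [Finset.sum_mul]
    calc _ ≤ ∑ _p : E → Equiv.Perm (Fin N), K * N.factorial :=
          Finset.sum_le_sum fun p _ => h p
      _ = _ := by
          rw [Finset.sum_const, card_univ, smul_eq_mul, Fintype.card_fun, Fintype.card_perm,
            Fintype.card_fin]
  rw [← h3, h1, h2] at h4
  have h5 : 0 < N.factorial := Nat.factorial_pos N
  have h6 : (S.card * N) * N.factorial ≤ (K * N.factorial ^ Fintype.card E) * N.factorial := by
    calc (S.card * N) * N.factorial = S.card * N.factorial * N := by ring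
      _ ≤ _ := h4
      _ = _ := by ring
  exact Nat.le_of_mul_le_mul_right h6 h5

theorem edg
    (hu1 : ∀ (N : ℕ) (A B : Finset (Fin N)) (r : ℕ),
      (univ.filter (fun σ : Equiv.Perm (Fin N) => r ≤ (A.filter (fun i => σ i ∈ B)).card)).card *
        N ^ r ≤ A.card.choose r * B.card ^ r * N.factorial)
    (B : OrGraph V E) (F : Finset E) (s : Equiv.Perm V) (ε : V → E) (hs : IsPerm B F s ε)
    (N ℓ w : ℕ) :
    {p : E → Equiv.Perm (Fin N) | (shortV B s ε p ℓ).card ≤ w ∧ ∃ e, e ∉ F ∧ ∃ i,
        (B.t e, i) ∈ shortV B s ε p ℓ ∧ (B.h e, p e i) ∈ shortV B s ε p ℓ}.ncard * N ≤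
      Fintype.card E * w ^ 2 * N.factorial ^ Fintype.card E := by
  classical
  obtain ⟨bad, hbad⟩ : ∃ bad : E → Finset (E → Equiv.Perm (Fin N)), bad = fun e =>
    univ.filter (fun p => (shortV B s ε p ℓ).card ≤ w ∧ ∃ i,
        (B.t e, i) ∈ shortV B s ε p ℓ ∧ (B.h e, p e i) ∈ shortV B s ε p ℓ) := ⟨_, rfl⟩
  have hone : ∀ e, e ∉ F → (bad e).card * N ≤ w ^ 2 * N.factorial ^ Fintype.card E := by
    intro e he
    apply resample e
    intro p
    obtain ⟨W, hW⟩ : ∃ W, W = shortV B s ε p ℓ := ⟨_, rfl⟩
    have hWσ : ∀ σ : Equiv.Perm (Fin N), shortV B s ε (Function.update p e σ) ℓ = W := by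
      intro σ
      rw [hW]
      apply shortV_congr B F s ε hs
      intro e' he'
      rw [Function.update_of_ne]
      rintro rfl
      exact he he'
    by_cases hw : W.card ≤ w
    · obtain ⟨A, hA⟩ : ∃ A : Finset (Fin N), A = univ.filter (fun i => (B.t e, i) ∈ W) := ⟨_, rfl⟩
      obtain ⟨A', hA'⟩ : ∃ A' : Finset (Fin N), A' = univ.filter (fun i => (B.h e, i) ∈ W) :=
        ⟨_, rfl⟩
      have hcard : ∀ (v : V), (univ.filter (fun i : Fin N => (v, i) ∈ W)).card ≤ w := by
        intro v
        refine le_trans ?_ hw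
        apply Finset.card_le_card_of_injOn (fun i => (v, i))
        · intro i hi
          simpa using hi
        · intro i _ j _ hij
          simpa using hij
      have h1 := hu1 N A A' 1
      rw [pow_one, pow_one, Nat.choose_one_right] at h1
      have h2 : univ.filter (fun σ : Equiv.Perm (Fin N) => Function.update p e σ ∈ bad e) ⊆
          univ.filter (fun σ : Equiv.Perm (Fin N) => 1 ≤ (A.filter (fun i => σ i ∈ A')).card) := by
        intro σ hσ
        rw [mem_filter] at hσ ⊢
        refine ⟨mem_univ _, ?_⟩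
        have h3 := hσ.2
        rw [hbad] at h3
        simp only [mem_filter, mem_univ, true_and, hWσ, Function.update_self] at h3
        obtain ⟨-, i, h4, h5⟩ := h3
        rw [Nat.one_le_iff_ne_zero, Finset.card_ne_zero]
        refine ⟨i, ?_⟩
        rw [mem_filter, hA, hA', mem_filter, mem_filter]
        exact ⟨⟨mem_univ _, h4⟩, mem_univ _, h5⟩
      calc _ ≤ (univ.filter (fun σ : Equiv.Perm (Fin N) =>
            1 ≤ (A.filter (fun i => σ i ∈ A')).card)).card * N :=
            Nat.mul_le_mul_right _ (Finset.card_le_card h2)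
        _ ≤ A.card * A'.card * N.factorial := h1
        _ ≤ w ^ 2 * N.factorial := by
            apply Nat.mul_le_mul_right
            rw [pow_two]
            apply Nat.mul_le_mul
            · rw [hA]; exact hcard _
            · rw [hA']; exact hcard _
    · have h2 : univ.filter (fun σ : Equiv.Perm (Fin N) => Function.update p e σ ∈ bad e) = ∅ := by
        rw [Finset.filter_eq_empty_iff]
        intro σ _ hσ
        rw [hbad] at hσ
        simp only [mem_filter, mem_univ, true_and, hWσ] at hσ
        exact hw hσ.1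
      rw [h2]
      simp
  have hsub : {p : E → Equiv.Perm (Fin N) | (shortV B s ε p ℓ).card ≤ w ∧ ∃ e, e ∉ F ∧ ∃ i,
        (B.t e, i) ∈ shortV B s ε p ℓ ∧ (B.h e, p e i) ∈ shortV B s ε p ℓ} ⊆
      (((univ.filter (fun e : E => e ∉ F)).biUnion bad : Finset (E → Equiv.Perm (Fin N))) :
        Set (E → Equiv.Perm (Fin N))) := by
    rintro p ⟨h1, e, he, i, h2⟩
    rw [Finset.mem_coe, Finset.mem_biUnion]
    refine ⟨e, by simpa using he, ?_⟩
    rw [hbad]
    simp only [mem_filter, mem_univ, true_and]
    exact ⟨h1, i, h2⟩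
  have h1 := Set.ncard_le_ncard hsub (Finset.finite_toSet _)
  rw [Set.ncard_coe_finset] at h1
  calc _ ≤ ((univ.filter (fun e : E => e ∉ F)).biUnion bad).card * N := Nat.mul_le_mul_right _ h1
    _ ≤ (∑ e ∈ univ.filter (fun e : E => e ∉ F), (bad e).card) * N :=
        Nat.mul_le_mul_right _ Finset.card_biUnion_le
    _ = ∑ e ∈ univ.filter (fun e : E => e ∉ F), (bad e).card * N := Finset.sum_mul _ _ _
    _ ≤ ∑ _e ∈ univ.filter (fun e : E => e ∉ F), w ^ 2 * N.factorial ^ Fintype.card E := by
        apply Finset.sum_le_sum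
        intro e he
        exact hone e (by simpa using he)
    _ = (univ.filter (fun e : E => e ∉ F)).card * (w ^ 2 * N.factorial ^ Fintype.card E) := by
        rw [Finset.sum_const, smul_eq_mul]
    _ ≤ Fintype.card E * (w ^ 2 * N.factorial ^ Fintype.card E) := by
        apply Nat.mul_le_mul_right
        exact Finset.card_le_univ _
    _ = _ := by ring

end det

end Pool.Agent.N491.CD
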