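import Mathlib
import Pool.Agent.N328.CD.Defs

/-!
# The lifted 2-factor as a permutation (part LP of project CD, helper328; proof by helper491)
-/

set_option autoImplicit false

namespace Pool.Agent.N491.CD
open Finset Pool.Agent.H160R2.HF Pool.Agent.N328.LF Pool.Agent.H185C Pool.Agent.N328.CD

section det
variable {V E : Type} [Fintype V] [Fintype E] [DecidableEq V] [DecidableEq E]

theorem lp (B : OrGraph V E) (F : Finset E) (s : Equiv.Perm V) (ε : V → E)
    (hs : IsPerm B F s ε) (N : ℕ) (p : E → Equiv.Perm (Fin N)) :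
    ∃ ε' : V × Fin N → E × Fin N, IsPerm (lift B p) (F ×ˢ univ) (lperm B s ε p) ε' := by
  obtain ⟨h1, h2, h3, h4⟩ := hs
  refine ⟨fun x => (ε x.1, if B.t (ε x.1) = x.1 ∧ B.h (ε x.1) = s x.1 then x.2
    else sg B s ε p x.1 x.2), ?_, ?_, ?_, ?_⟩
  · rintro ⟨v, i⟩ ⟨v', i'⟩ h
    simp only [Prod.mk.injEq] at h
    obtain ⟨ha, hb⟩ := h
    have hv : v = v' := h1 ha
    subst hv
    by_cases hc : B.t (ε v) = v ∧ B.h (ε v) = s v
    · rw [if_pos hc, if_pos hc] at hb
      rw [hb]
    · rw [if_neg hc, if_neg hc] at hb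
      rw [(sg B s ε p v).injective hb]
  · rintro ⟨v, i⟩
    simp only [mem_product, mem_univ, and_true]
    exact h2 v
  · rintro ⟨e, j⟩ he
    rw [mem_product] at he
    obtain ⟨v, rfl⟩ := h3 e he.1
    by_cases hc : B.t (ε v) = v ∧ B.h (ε v) = s v
    · exact ⟨(v, j), by simp only [if_pos hc]⟩
    · refine ⟨(v, (sg B s ε p v).symm j), ?_⟩
      simp only [if_neg hc, Equiv.apply_symm_apply]
  · rintro ⟨v, i⟩
    by_cases hc : B.t (ε v) = v ∧ B.h (ε v) = s v
    · left
      simp only [if_pos hc, lift, lperm, Equiv.coe_fn_mk, sg]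
      exact ⟨by rw [hc.1], by rw [hc.2]⟩
    · right
      have h5 : B.t (ε v) = s v ∧ B.h (ε v) = v := by
        rcases h4 v with h | h
        · exact absurd h hc
        · exact h
      simp only [if_neg hc, lift, lperm, Equiv.coe_fn_mk, sg]
      exact ⟨by rw [h5.1], by rw [h5.2]; simp⟩

end det

end Pool.Agent.N491.CD
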