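import Mathlib

/-!
# Mixed `l`-adic representations of the absolute Galois group of a number field

The category `C_{F,l}` of the mixed `l`-adic representations which belong to a given class `𝒜`, for
example to the class of all representations which are potentially semistable at the places above `l`.
-/

set_option autoImplicit false

open NumberField CategoryTheory Polynomial

namespace Pool.Agent.N491.CD

/-- the absolute Galois group of the field `F`, with the Krull topology -/
abbrev AbsGal (F : Type) [Field F] : Type := Gal(AlgebraicClosure F/F)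

section defs

variable {F : Type} [Field F] [NumberField F] {l : ℕ} [Fact l.Prime]

variable (F l) in
/-- The category of all (abstract) representations of the absolute Galois group of `F` on vector spaces
over `ℚ_l`. -/
abbrev Reps : Type 1 := Rep.{0} ℚ_[l] (AbsGal F)

/-- `τ` lies in the inertia group at the maximal ideal `P` of the ring of all algebraic integers. -/
def InInertia (P : Ideal (𝓞 (AlgebraicClosure F))) (τ : AbsGal F) : Prop :=
  ∀ x : 𝓞 (AlgebraicClosure F), τ • x - x ∈ P

/-- the number of elements of the residue field of the place of `F` below `P` -/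
noncomputable def residueCard (P : Ideal (𝓞 (AlgebraicClosure F))) : ℕ :=
  Ideal.absNorm (P.comap (algebraMap (𝓞 F) (𝓞 (AlgebraicClosure F))))

/-- `Φ` is a geometric Frobenius element at `P`: it induces the inverse of `x ↦ x ^ q` on the residue
field of `P`, where `q` is the number of elements of the residue field of the place of `F` below `P`. -/
def IsGeometricFrobenius (P : Ideal (𝓞 (AlgebraicClosure F))) (Φ : AbsGal F) : Prop :=
  ∀ x : 𝓞 (AlgebraicClosure F), (Φ • x) ^ residueCard P - x ∈ P

variable (l) in
/-- the `l`-adic cyclotomic character, with values in `ℚ_l` -/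
noncomputable def chi (g : AbsGal F) : ℚ_[l] :=
  (((cyclotomicCharacter (AlgebraicClosure F) l
    (MulSemiringAction.toRingAut (AbsGal F) (AlgebraicClosure F) g) : ℤ_[l]ˣ) : ℤ_[l]) : ℚ_[l])

theorem chi_one : chi l (1 : AbsGal F) = 1 := by
  rw [chi, map_one, map_one, Units.val_one]
  rfl

theorem chi_mul (g h : AbsGal F) : chi l (g * h) = chi l g * chi l h := by
  rw [chi, map_mul, map_mul, Units.val_mul, PadicInt.coe_mul]
  rfl

variable (F l) in
/-- the representation `ℚ_l(n)`: the vector space `ℚ_l`, on which `g` acts as `chi g ^ n` -/
noncomputable def Tate (n : ℤ) : Reps F l := Rep.of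
  { toFun := fun g => (chi l g ^ n) • LinearMap.id
    map_one' := by
      rw [chi_one, one_zpow, one_smul]
      rfl
    map_mul' := fun g h => by
      refine LinearMap.ext fun x => ?_
      change chi l (g * h) ^ n * x = chi l g ^ n * (chi l h ^ n * x)
      rw [chi_mul, mul_zpow, mul_assoc] : Representation ℚ_[l] (AbsGal F) ℚ_[l] }

section rep

variable {V : Type} [AddCommGroup V] [Module ℚ_[l] V]

/-- `ρ` is an `l`-adic representation: it is of finite dimension, and the action of the Galois group is
continuous, that is, all matrix coefficients are continuous functions. -/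
structure IsLadic (ρ : Representation ℚ_[l] (AbsGal F) V) : Prop where
  finite : FiniteDimensional ℚ_[l] V
  continuous : ∀ (v : V) (f : Module.Dual ℚ_[l] V), Continuous fun g : AbsGal F => f (ρ g v)

/-- The quotient `W / W'` of two subrepresentations `W' ≤ W` of the representation `ρ` is pure of weight
`m`: there is a number `N ≠ 0` such that at all maximal ideals `P` of the ring of algebraic integers
which contain neither `N` nor `l` (that is, at all closed points of `Spec 𝓞_F[1/(N l)]`) the
representation `W / W'` is unramified and the eigenvalues of the geometric Frobenius elements on `W / W'`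
are algebraic numbers all of whose complex absolute values are equal to `q ^ (m / 2)`: they are zeros of
a polynomial with rational coefficients all of whose complex zeros have this absolute value. -/
def PureGr (ρ : Representation ℚ_[l] (AbsGal F) V) (W' W : Submodule ℚ_[l] V) (m : ℤ) : Prop :=
  ∃ N : ℕ, N ≠ 0 ∧ ∀ P : Ideal (𝓞 (AlgebraicClosure F)), P.IsMaximal →
    (N : 𝓞 (AlgebraicClosure F)) ∉ P → (l : 𝓞 (AlgebraicClosure F)) ∉ P →
    (∀ τ, InInertia P τ → ∀ x ∈ W, ρ τ x - x ∈ W') ∧
    ∀ Φ, IsGeometricFrobenius P Φ → ∃ Q : ℚ[X], Q ≠ 0 ∧
      (∀ z : ℂ, aeval z Q = 0 → ‖z‖ = (residueCard P : ℝ) ^ ((m : ℝ) / 2)) ∧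
      ∀ x ∈ W, aeval (ρ Φ) (Q.map (algebraMap ℚ ℚ_[l])) x ∈ W'

/-- `ρ` is mixed: it has a finite increasing filtration by subrepresentations `W m`, `m ∈ ℤ`, such that
`W m / W (m - 1)` is pure of weight `m` for all `m`. -/
def IsMixed (ρ : Representation ℚ_[l] (AbsGal F) V) : Prop :=
  ∃ W : ℤ → Submodule ℚ_[l] V, (∀ m g, ∀ x ∈ W m, ρ g x ∈ W m) ∧ Monotone W ∧
    (∃ a, W a = ⊥) ∧ (∃ b, W b = ⊤) ∧ ∀ m, PureGr ρ (W (m - 1)) (W m) m

end rep

/-- `σ` belongs to the decomposition group at the place above `l` which is given by the embedding `ι` of
the algebraic closure of `F` into the algebraic closure of `ℚ_l`: the automorphism `σ` is induced by an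
automorphism `g` over `ℚ_l`. -/
def InDecomposition (ι : AlgebraicClosure F →+* PadicAlgCl l) (σ : AbsGal F) : Prop :=
  ∃ g : Gal(PadicAlgCl l/ℚ_[l]), ∀ y : AlgebraicClosure F, ι (σ y) = g (ι y)

/-- The restriction of `ρ` to the decomposition group at every place above `l` is a direct sum of
representations `ℚ_l(n)`. -/
def IsLocallyTate {V : Type} [AddCommGroup V] [Module ℚ_[l] V]
    (ρ : Representation ℚ_[l] (AbsGal F) V) : Prop :=
  ∀ ι : AlgebraicClosure F →+* PadicAlgCl l,
    ∃ (d : ℕ) (b : Module.Basis (Fin d) ℚ_[l] V) (n : Fin d → ℤ),
      ∀ σ, InDecomposition ι σ → ∀ i, ρ σ (b i) = chi l σ ^ n i • b i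

/-- Hypotheses on a class `𝒜` of representations: it contains the zero representation, it is closed
under subobjects, quotients and finite direct sums, and it contains all `l`-adic representations which
are direct sums of representations `ℚ_l(n)` at all places above `l`. The class of the `l`-adic
representations which are potentially semistable at all places above `l` has these properties. -/
class IsAdmissible (𝒜 : ObjectProperty (Reps F l)) : Prop extends
    𝒜.ContainsZero, 𝒜.IsClosedUnderSubobjects, 𝒜.IsClosedUnderQuotients,
    𝒜.IsClosedUnderFiniteProducts where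
  tate : ∀ V : Reps F l, IsLadic V.ρ → IsLocallyTate V.ρ → 𝒜 V

/-- The `l`-adic representations that are mixed and belong to the class `𝒜`. -/
def Mixed (𝒜 : ObjectProperty (Reps F l)) : ObjectProperty (Reps F l) :=
  fun V => IsLadic V.ρ ∧ IsMixed V.ρ ∧ 𝒜 V

end defs

end Pool.Agent.N491.CD
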