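import Mathlib
import Pool.Agent.N491.CD.Defs

/-!
# The category of mixed `l`-adic representations is abelian
-/

set_option autoImplicit false
set_option linter.unusedSectionVars false

open NumberField CategoryTheory Polynomial Limits

namespace Pool.Agent.N491.CD

variable {F : Type} [Field F] [NumberField F] {l : ℕ} [Fact l.Prime]

theorem hom_aeval {X Y : Reps F l} (f : X ⟶ Y) (g : AbsGal F) (Q : ℚ_[l][X]) (x : X) :
    f.hom (aeval (X.ρ g) Q x) = aeval (Y.ρ g) Q (f.hom x) := by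
  induction Q using Polynomial.induction_on' generalizing x with
  | add p q hp hq => simp only [map_add, LinearMap.add_apply, hp, hq]
  | monomial n a =>
    rw [aeval_monomial, aeval_monomial]
    have h : ∀ n : ℕ, ∀ x : X, f.hom ((X.ρ g ^ n) x) = (Y.ρ g ^ n) (f.hom x) := by
      intro n
      induction n with
      | zero => intro x; simp
      | succ n ih =>
        intro x
        rw [pow_succ, pow_succ, Module.End.mul_apply, Module.End.mul_apply, ih, Rep.hom_comm_apply]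
    simp only [Module.End.mul_apply, Module.algebraMap_end_apply, h, map_smul]

theorem aeval_mem {X : Reps F l} {W : Submodule ℚ_[l] X} {g : AbsGal F}
    (hW : ∀ x ∈ W, X.ρ g x ∈ W) (Q : ℚ_[l][X]) {x : X} (hx : x ∈ W) : aeval (X.ρ g) Q x ∈ W := by
  induction Q using Polynomial.induction_on' with
  | add p q hp hq => simpa only [map_add, LinearMap.add_apply] using W.add_mem hp hq
  | monomial n a =>
    rw [aeval_monomial]
    have h : ∀ n : ℕ, (X.ρ g ^ n) x ∈ W := by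
      intro n
      induction n with
      | zero => simpa using hx
      | succ n ih =>
        rw [pow_succ', Module.End.mul_apply]
        exact hW _ ih
    simp only [Module.End.mul_apply, Module.algebraMap_end_apply]
    exact W.smul_mem _ (h n)

/-- Two morphisms are jointly injective. -/
def JointInj {Z X Y : Reps F l} (p : Z ⟶ X) (q : Z ⟶ Y) : Prop :=
  ∀ z : Z, p.hom z = 0 → q.hom z = 0 → z = 0

theorem jointInj_of {Z X Y : Reps F l} (p : Z ⟶ X) (q : Z ⟶ Y)
    (h : ∀ (K : Reps F l) (a : K ⟶ Z), a ≫ p = 0 → a ≫ q = 0 → a = 0) : JointInj p q := by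
  intro z hz hz'
  let W : Submodule ℚ_[l] Z := LinearMap.ker p.hom.toLinearMap ⊓ LinearMap.ker q.hom.toLinearMap
  have hW : ∀ g, W ≤ W.comap (Z.ρ g) := by
    intro g x hx
    refine ⟨?_, ?_⟩
    · have h1 : p.hom x = 0 := hx.1
      change p.hom (Z.ρ g x) = 0
      rw [Rep.hom_comm_apply, h1, map_zero]
    · have h1 : q.hom x = 0 := hx.2
      change q.hom (Z.ρ g x) = 0
      rw [Rep.hom_comm_apply, h1, map_zero]
  have h1 := h _ (Rep.subtype Z W hW) (Rep.hom_ext (by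
    ext x
    exact x.2.1)) (Rep.hom_ext (by
    ext x
    exact x.2.2))
  have h2 := congrArg (fun a => a.hom (⟨z, hz, hz'⟩ : W)) h1
  exact h2

theorem IsLadic.of_jointInj {Z X Y : Reps F l} {p : Z ⟶ X} {q : Z ⟶ Y} (h : JointInj p q)
    (hX : IsLadic X.ρ) (hY : IsLadic Y.ρ) : IsLadic Z.ρ := by
  have := hX.finite
  have := hY.finite
  have hinj : Function.Injective (p.hom.toLinearMap.prod q.hom.toLinearMap) := by
    rw [injective_iff_map_eq_zero]
    intro z hz
    have h1 := congrArg Prod.fst hz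
    have h2 := congrArg Prod.snd hz
    exact h z h1 h2
  refine ⟨Module.Finite.of_injective _ hinj, fun v f => ?_⟩
  obtain ⟨s, hs⟩ := (p.hom.toLinearMap.prod q.hom.toLinearMap).exists_leftInverse_of_injective
    (LinearMap.ker_eq_bot.2 hinj)
  have h1 : ∀ g, f (Z.ρ g v) = (f ∘ₗ s ∘ₗ LinearMap.inl _ _ _) (X.ρ g (p.hom v)) +
      (f ∘ₗ s ∘ₗ LinearMap.inr _ _ _) (Y.ρ g (q.hom v)) := by
    intro g
    have h2 : s (p.hom (Z.ρ g v), q.hom (Z.ρ g v)) = Z.ρ g v := LinearMap.congr_fun hs (Z.ρ g v)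
    rw [← Rep.hom_comm_apply, ← Rep.hom_comm_apply]
    simp only [LinearMap.comp_apply, ← map_add]
    congr 1
    rw [← h2]
    simp [h2]
  simp only [h1]
  exact (hX.continuous _ _).add (hY.continuous _ _)

theorem IsLadic.of_surj {X Y : Reps F l} {f : X ⟶ Y} (hf : Function.Surjective f.hom)
    (hX : IsLadic X.ρ) : IsLadic Y.ρ := by
  have := hX.finite
  refine ⟨Module.Finite.of_surjective f.hom.toLinearMap hf, fun v φ => ?_⟩
  obtain ⟨x, rfl⟩ := hf v
  have h1 : ∀ g, φ (Y.ρ g (f.hom x)) = (φ ∘ₗ f.hom.toLinearMap) (X.ρ g x) := by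
    intro g
    rw [← Rep.hom_comm_apply]
    rfl
  simp only [h1]
  exact hX.continuous _ _

theorem IsMixed.of_jointInj {Z X Y : Reps F l} {p : Z ⟶ X} {q : Z ⟶ Y} (h : JointInj p q)
    (hX : IsMixed X.ρ) (hY : IsMixed Y.ρ) : IsMixed Z.ρ := by
  obtain ⟨W, hW, hm, ⟨a, ha⟩, ⟨b, hb⟩, hp⟩ := hX
  obtain ⟨W', hW', hm', ⟨a', ha'⟩, ⟨b', hb'⟩, hp'⟩ := hY
  refine ⟨fun m => (W m).comap p.hom.toLinearMap ⊓ (W' m).comap q.hom.toLinearMap, ?_, ?_,
    ⟨min a a', ?_⟩, ⟨max b b', ?_⟩, ?_⟩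
  · intro m g x hx
    refine ⟨?_, ?_⟩
    · change p.hom (Z.ρ g x) ∈ W m
      rw [Rep.hom_comm_apply]
      exact hW m g _ hx.1
    · change q.hom (Z.ρ g x) ∈ W' m
      rw [Rep.hom_comm_apply]
      exact hW' m g _ hx.2
  · intro m n hmn x hx
    exact ⟨hm hmn hx.1, hm' hmn hx.2⟩
  · rw [eq_bot_iff]
    intro x hx
    have h1 : p.hom x ∈ W a := hm (min_le_left a a') hx.1
    have h2 : q.hom x ∈ W' a' := hm' (min_le_right a a') hx.2
    rw [ha, Submodule.mem_bot] at h1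
    rw [ha', Submodule.mem_bot] at h2
    exact h x h1 h2
  · rw [eq_top_iff]
    intro x _
    refine ⟨hm (le_max_left b b') ?_, hm' (le_max_right b b') ?_⟩
    · rw [hb]
      trivial
    · rw [hb']
      trivial
  · intro m
    obtain ⟨N, hN, h1⟩ := hp m
    obtain ⟨N', hN', h1'⟩ := hp' m
    refine ⟨N * N', mul_ne_zero hN hN', fun P hP hNP hlP => ?_⟩
    have hNP1 : (N : 𝓞 (AlgebraicClosure F)) ∉ P := fun h => hNP (by
      rw [Nat.cast_mul]
      exact P.mul_mem_right _ h)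
    have hNP2 : (N' : 𝓞 (AlgebraicClosure F)) ∉ P := fun h => hNP (by
      rw [Nat.cast_mul]
      exact P.mul_mem_left _ h)
    obtain ⟨h2, h3⟩ := h1 P hP hNP1 hlP
    obtain ⟨h2', h3'⟩ := h1' P hP hNP2 hlP
    refine ⟨fun τ hτ x hx => ⟨?_, ?_⟩, fun Φ hΦ => ?_⟩
    · change p.hom (Z.ρ τ x - x) ∈ W (m - 1)
      rw [map_sub, Rep.hom_comm_apply]
      exact h2 τ hτ _ hx.1
    · change q.hom (Z.ρ τ x - x) ∈ W' (m - 1)
      rw [map_sub, Rep.hom_comm_apply]
      exact h2' τ hτ _ hx.2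
    · obtain ⟨Q, hQ, h4, h5⟩ := h3 Φ hΦ
      obtain ⟨Q', hQ', h4', h5'⟩ := h3' Φ hΦ
      refine ⟨Q * Q', mul_ne_zero hQ hQ', fun z hz => ?_, fun x hx => ⟨?_, ?_⟩⟩
      · rw [map_mul, mul_eq_zero] at hz
        exact hz.elim (h4 z) (h4' z)
      · change p.hom (aeval (Z.ρ Φ) ((Q * Q').map (algebraMap ℚ ℚ_[l])) x) ∈ W (m - 1)
        rw [hom_aeval, mul_comm, Polynomial.map_mul, map_mul, Module.End.mul_apply]
        exact aeval_mem (hW (m - 1) Φ) _ (h5 _ hx.1)
      · change q.hom (aeval (Z.ρ Φ) ((Q * Q').map (algebraMap ℚ ℚ_[l])) x) ∈ W' (m - 1)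
        rw [hom_aeval, Polynomial.map_mul, map_mul, Module.End.mul_apply]
        exact aeval_mem (hW' (m - 1) Φ) _ (h5' _ hx.2)

theorem IsMixed.of_surj {X Y : Reps F l} {f : X ⟶ Y} (hf : Function.Surjective f.hom)
    (hX : IsMixed X.ρ) : IsMixed Y.ρ := by
  obtain ⟨W, hW, hm, ⟨a, ha⟩, ⟨b, hb⟩, hp⟩ := hX
  refine ⟨fun m => (W m).map f.hom.toLinearMap, ?_, ?_, ⟨a, ?_⟩, ⟨b, ?_⟩, ?_⟩
  · rintro m g _ ⟨x, hx, rfl⟩
    refine ⟨X.ρ g x, hW m g x hx, ?_⟩
    exact Rep.hom_comm_apply f g x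
  · intro m n hmn
    exact Submodule.map_mono (hm hmn)
  · simp [ha]
  · simp only [hb, Submodule.map_top]
    exact LinearMap.range_eq_top.2 hf
  · intro m
    obtain ⟨N, hN, h1⟩ := hp m
    refine ⟨N, hN, fun P hP hNP hlP => ?_⟩
    obtain ⟨h2, h3⟩ := h1 P hP hNP hlP
    refine ⟨?_, fun Φ hΦ => ?_⟩
    · rintro τ hτ _ ⟨x, hx, rfl⟩
      refine ⟨X.ρ τ x - x, h2 τ hτ x hx, ?_⟩
      change f.hom (X.ρ τ x - x) = Y.ρ τ (f.hom x) - f.hom x
      rw [map_sub, Rep.hom_comm_apply]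
    · obtain ⟨Q, hQ, h4, h5⟩ := h3 Φ hΦ
      refine ⟨Q, hQ, h4, ?_⟩
      rintro _ ⟨x, hx, rfl⟩
      refine ⟨_, h5 x hx, ?_⟩
      exact hom_aeval f Φ _ x

variable (𝒜 : ObjectProperty (Reps F l)) [IsAdmissible 𝒜]

instance : (Mixed 𝒜).IsClosedUnderSubobjects where
  prop_of_mono {X Y} f _ hY := by
    have h1 : Function.Injective f.hom := (Rep.mono_iff_injective f).1 inferInstance
    have h2 : JointInj f f := fun z hz _ => h1 (by rw [hz, map_zero])
    exact ⟨hY.1.of_jointInj h2 hY.1, hY.2.1.of_jointInj h2 hY.2.1, 𝒜.prop_of_mono f hY.2.2⟩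

instance : (Mixed 𝒜).IsClosedUnderQuotients where
  prop_of_epi {X Y} f _ hX := by
    have h1 : Function.Surjective f.hom := (Rep.epi_iff_surjective f).1 inferInstance
    exact ⟨hX.1.of_surj h1, hX.2.1.of_surj h1, 𝒜.prop_of_epi f hX.2.2⟩

instance : (Mixed 𝒜).ContainsZero where
  exists_zero := by
    obtain ⟨Z, hZ, hA⟩ := 𝒜.exists_prop_of_containsZero
    have hs : Subsingleton Z.V := (Rep.isZero_iff _ _ Z).1 hZ
    refine ⟨Z, hZ, ⟨inferInstance, fun v f => ?_⟩, ?_, hA⟩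
    · have h : ∀ g, Z.ρ g v = 0 := fun g => Subsingleton.elim _ _
      simp only [h, map_zero]
      exact continuous_const
    · refine ⟨fun _ => ⊥, fun m g x _ => ?_, fun m n _ => le_rfl, ⟨0, rfl⟩,
        ⟨0, Subsingleton.elim _ _⟩, fun m => ⟨1, one_ne_zero, fun P _ _ _ => ⟨fun τ _ x _ => ?_,
        fun Φ _ => ⟨1, one_ne_zero, fun z hz => ?_, fun x _ => ?_⟩⟩⟩⟩
      · rw [Subsingleton.elim (Z.ρ g x) 0]
        exact Submodule.zero_mem _
      · rw [Subsingleton.elim (Z.ρ τ x - x) 0]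
        exact Submodule.zero_mem _
      · rw [map_one] at hz
        exact absurd hz one_ne_zero
      · rw [Subsingleton.elim (aeval (Z.ρ Φ) _ x) 0]
        exact Submodule.zero_mem _

instance : (Mixed 𝒜).IsClosedUnderBinaryProducts where
  limitsOfShape_le := by
    rintro X ⟨p⟩
    have h1 : JointInj (p.π.app ⟨WalkingPair.left⟩) (p.π.app ⟨WalkingPair.right⟩) := by
      refine jointInj_of _ _ fun K a ha hb => p.isLimit.hom_ext fun j => ?_
      rcases j with ⟨_ | _⟩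
      · exact ha.trans Limits.zero_comp.symm
      · exact hb.trans Limits.zero_comp.symm
    have hl := p.prop_diag_obj ⟨WalkingPair.left⟩
    have hr := p.prop_diag_obj ⟨WalkingPair.right⟩
    refine ⟨IsLadic.of_jointInj h1 hl.1 hr.1, IsMixed.of_jointInj h1 hl.2.1 hr.2.1, ?_⟩
    refine 𝒜.prop_of_isLimit p.isLimit fun j => (p.prop_diag_obj j).2.2

instance : (Mixed 𝒜).IsClosedUnderFiniteProducts := .mk'

/-- The category of the mixed `l`-adic representations which belong to the class `𝒜`. -/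
abbrev MixedCat : Type 1 := (Mixed 𝒜).FullSubcategory

noncomputable instance : Abelian (MixedCat 𝒜) := inferInstance

end Pool.Agent.N491.CD
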