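import Mathlib

/-!
# Compatible systems of roots of unity and Kummer cocycles
-/

set_option autoImplicit false
set_option linter.unusedSectionVars false

namespace Pool.Agent.N491.CD

variable {L : Type} [Field L] {l : ℕ} [hl : Fact l.Prime]

variable (l) in
/-- `z` is a compatible system of primitive roots of unity of `l`-power order. -/
structure IsZ (z : ℕ → L) : Prop where
  zero : z 0 = 1
  succ : ∀ n, z (n + 1) ^ l = z n
  prim : ∀ n, IsPrimitiveRoot (z n) (l ^ n)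

variable (l L) in
theorem exists_z [IsAlgClosed L] [CharZero L] : ∃ z : ℕ → L, IsZ l z := by
  have hp1 : l.Prime := hl.out
  have step : ∀ (n : ℕ) (x : L), IsPrimitiveRoot x (l ^ (n + 1)) →
      ∃ y : L, y ^ l = x ∧ IsPrimitiveRoot y (l ^ (n + 2)) := by
    intro n x hx
    obtain ⟨y, hy⟩ := IsAlgClosed.exists_pow_nat_eq x hp1.pos
    refine ⟨y, hy, ?_⟩
    have h1 : ¬ y ^ l ^ (n + 1) = 1 := by
      rw [pow_succ', pow_mul, hy]
      intro h
      have := (hx.pow_eq_one_iff_dvd _).1 h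
      have h2 := Nat.le_of_dvd (pow_pos hp1.pos n) this
      have h3 : l ^ n < l ^ (n + 1) := Nat.pow_lt_pow_right hp1.one_lt (Nat.lt_succ_self n)
      omega
    have h2 : y ^ l ^ (n + 1 + 1) = 1 := by
      rw [pow_succ', pow_mul, hy, hx.pow_eq_one]
    have h3 := orderOf_eq_prime_pow h1 h2
    rw [← h3]
    exact IsPrimitiveRoot.orderOf y
  have hne : NeZero (l ^ 1) := ⟨pow_ne_zero _ hp1.ne_zero⟩
  obtain ⟨z1, hz1⟩ := HasEnoughRootsOfUnity.exists_primitiveRoot L (l ^ 1)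
  let u : ∀ n : ℕ, {x : L // IsPrimitiveRoot x (l ^ (n + 1))} := fun n =>
    Nat.rec ⟨z1, by simpa using hz1⟩ (fun n x => ⟨(step n x.1 x.2).choose,
      (step n x.1 x.2).choose_spec.2⟩) n
  have hu : ∀ n, (u (n + 1)).1 ^ l = (u n).1 := fun n => (step n (u n).1 (u n).2).choose_spec.1
  refine ⟨fun n => Nat.casesOn n 1 fun n => (u n).1, rfl, ?_, ?_⟩
  · intro n
    rcases n with _ | n
    · have h0 : z1 ^ l ^ 1 = 1 := hz1.pow_eq_one
      rw [pow_one] at h0
      exact h0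
    · exact hu n
  · intro n
    rcases n with _ | n
    · rw [pow_zero]; exact IsPrimitiveRoot.one
    · exact (u n).2

/-- a compatible system of roots of an element `b ≠ 0` -/
structure IsRoots (l : ℕ) (b : L) (r : ℕ → L) : Prop where
  ne : b ≠ 0
  zero : r 0 = b
  succ : ∀ n, r (n + 1) ^ l = r n

theorem exists_roots [IsAlgClosed L] (b : L) (hb : b ≠ 0) : ∃ r : ℕ → L, IsRoots l b r := by
  choose f hf using fun x : L => IsAlgClosed.exists_pow_nat_eq x hl.out.pos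
  exact ⟨fun n => Nat.rec b (fun _ x => f x) n, hb, rfl, fun n => hf _⟩

theorem IsRoots.pow {b : L} {r : ℕ → L} (h : IsRoots l b r) (n : ℕ) : r n ^ l ^ n = b := by
  induction n with
  | zero => rw [pow_zero, pow_one, h.zero]
  | succ n ih => rw [pow_succ', pow_mul, h.succ, ih]

theorem IsRoots.ne_zero {b : L} {r : ℕ → L} (h : IsRoots l b r) (n : ℕ) : r n ≠ 0 := by
  intro h0
  have := h.pow n
  rw [h0, zero_pow (pow_ne_zero _ hl.out.ne_zero)] at this
  exact h.ne this.symm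

/-- `z n ^ x` for an `l`-adic integer `x` -/
noncomputable def ee (z : ℕ → L) (n : ℕ) (x : ℤ_[l]) : L := z n ^ (x.toZModPow n).val

section ee

variable {z : ℕ → L} (hz : IsZ l z)

include hz

theorem ee_natCast (n k : ℕ) : ee (l := l) z n k = z n ^ k := by
  have hne : NeZero (l ^ n) := ⟨pow_ne_zero _ hl.out.ne_zero⟩
  rw [ee, map_natCast, ZMod.val_natCast]
  exact (pow_mod_natCard' (hz.prim n) k).symm
where
  pow_mod_natCard' {x : L} {m : ℕ} (h : IsPrimitiveRoot x m) (k : ℕ) : x ^ k = x ^ (k % m) := by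
    rw [h.eq_orderOf, pow_mod_orderOf]

theorem ee_congr {n : ℕ} {x y : ℤ_[l]} (h : x.toZModPow n = y.toZModPow n) :
    ee z n x = ee z n y := by rw [ee, ee, h]

theorem exists_nat (n : ℕ) (x : ℤ_[l]) : ∃ k : ℕ, x.toZModPow n = (k : ℤ_[l]).toZModPow n := by
  have hne : NeZero (l ^ n) := ⟨pow_ne_zero _ hl.out.ne_zero⟩
  exact ⟨(x.toZModPow n).val, by rw [map_natCast, ZMod.natCast_zmod_val]⟩

theorem ee_add (n : ℕ) (x y : ℤ_[l]) : ee z n (x + y) = ee z n x * ee z n y := by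
  obtain ⟨a, ha⟩ := exists_nat hz n x
  obtain ⟨b, hb⟩ := exists_nat hz n y
  rw [ee_congr hz ha, ee_congr hz hb, ee_natCast hz, ee_natCast hz, ← pow_add, ← ee_natCast hz]
  refine ee_congr hz ?_
  rw [map_add, ha, hb, Nat.cast_add, map_add]

theorem ee_mul (n : ℕ) (x : ℤ_[l]) (k : ℕ) : ee z n (x * (k : ℤ_[l])) = ee z n x ^ k := by
  obtain ⟨a, ha⟩ := exists_nat hz n x
  rw [ee_congr hz ha, ee_natCast hz, ← pow_mul, ← ee_natCast hz]
  refine ee_congr hz ?_
  rw [map_mul, ha, Nat.cast_mul, map_mul]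

theorem ee_mul' (n : ℕ) (x y : ℤ_[l]) : ee z n (x * y) = ee z n x ^ (y.toZModPow n).val := by
  have hne : NeZero (l ^ n) := ⟨pow_ne_zero _ hl.out.ne_zero⟩
  rw [← ee_mul hz]
  refine ee_congr hz ?_
  rw [map_mul, map_mul, map_natCast, ZMod.natCast_zmod_val]

theorem ee_ne_zero (n : ℕ) (x : ℤ_[l]) : ee z n x ≠ 0 :=
  pow_ne_zero _ ((hz.prim n).ne_zero (pow_ne_zero _ hl.out.ne_zero))

theorem ee_eq_one_iff {n : ℕ} {x : ℤ_[l]} : ee z n x = 1 ↔ x.toZModPow n = 0 := by
  have hne : NeZero (l ^ n) := ⟨pow_ne_zero _ hl.out.ne_zero⟩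
  rw [ee, (hz.prim n).pow_eq_one_iff_dvd]
  constructor
  · intro h
    have h1 := Nat.eq_zero_of_dvd_of_lt h (ZMod.val_lt _)
    exact (ZMod.val_eq_zero _).1 h1
  · intro h
    rw [h, ZMod.val_zero]
    exact dvd_zero _

theorem ee_inj {n : ℕ} {x y : ℤ_[l]} (h : ee z n x = ee z n y) :
    x.toZModPow n = y.toZModPow n := by
  have hne : NeZero (l ^ n) := ⟨pow_ne_zero _ hl.out.ne_zero⟩
  exact ZMod.val_injective _ ((hz.prim n).pow_inj (ZMod.val_lt _) (ZMod.val_lt _) h)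

theorem ee_ext {x y : ℤ_[l]} (h : ∀ n, ee z n x = ee z n y) : x = y :=
  PadicInt.ext_of_toZModPow.1 fun n => ee_inj hz (h n)

theorem ee_zero (n : ℕ) : ee (l := l) z n 0 = 1 := (ee_eq_one_iff hz).2 (map_zero _)

theorem exists_log (u : ℕ → L) (h0 : u 0 = 1) (hs : ∀ n, u (n + 1) ^ l = u n) :
    ∃ x : ℤ_[l], ∀ n, u n = ee z n x := by
  have h1 : ∀ n, u n ^ l ^ n = 1 := by
    intro n
    induction n with
    | zero => rw [pow_zero, pow_one, h0]
    | succ n ih => rw [pow_succ', pow_mul, hs, ih]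
  have h2 : ∀ n, ∃ k : ℕ, z n ^ k = u n := by
    intro n
    have hne : NeZero (l ^ n) := ⟨pow_ne_zero _ hl.out.ne_zero⟩
    obtain ⟨k, _, hk⟩ := (hz.prim n).eq_pow_of_pow_eq_one (h1 n)
    exact ⟨k, hk⟩
  choose k hk using h2
  have h3 : ∀ n, (k n : ℤ_[l]).toZModPow n = (k (n + 1) : ℤ_[l]).toZModPow n := by
    intro n
    refine ee_inj hz ?_
    rw [ee_natCast hz, ee_natCast hz, hk, ← hs, ← hk, ← pow_mul, mul_comm, pow_mul, hz.succ]
  have h4 : ∀ n m, (k n : ℤ_[l]).toZModPow n = (k (n + m) : ℤ_[l]).toZModPow n := by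
    intro n m
    induction m with
    | zero => rfl
    | succ m ih =>
      rw [ih]
      have h5 := congrArg (ZMod.castHom (pow_dvd_pow l (Nat.le_add_right n m)) (ZMod (l ^ n)))
        (h3 (n + m))
      rw [← RingHom.comp_apply, ← RingHom.comp_apply, PadicInt.zmod_cast_comp_toZModPow _ _
        (Nat.le_add_right n m)] at h5
      exact h5
  have hpre : IsPrecomplete (IsLocalRing.maximalIdeal ℤ_[l]) ℤ_[l] := inferInstance
  have hI : ∀ (n : ℕ) (a b : ℤ_[l]),
      a ≡ b [SMOD (IsLocalRing.maximalIdeal ℤ_[l] ^ n • ⊤ : Submodule ℤ_[l] ℤ_[l])] ↔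
        a.toZModPow n = b.toZModPow n := by
    intro n a b
    rw [SModEq.sub_mem, smul_eq_mul, Ideal.mul_top, PadicInt.maximalIdeal_eq_span_p,
      Ideal.span_singleton_pow, ← PadicInt.ker_toZModPow, RingHom.mem_ker, map_sub, sub_eq_zero]
  obtain ⟨x, hx⟩ := hpre.prec' (fun n => (k n : ℤ_[l])) (fun {m n} hmn => by
    rw [hI]
    obtain ⟨d, rfl⟩ := Nat.exists_eq_add_of_le hmn
    exact h4 m d)
  refine ⟨x, fun n => ?_⟩
  have h6 := (hI n _ _).1 (hx n)
  rw [← ee_congr hz h6, ee_natCast hz, hk]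

end ee

/-- The image of a compatible system. -/
theorem IsZ.map {z : ℕ → L} (hz : IsZ l z) {M : Type} [Field M] (ι : L →+* M) :
    IsZ l fun n => ι (z n) where
  zero := by rw [hz.zero, map_one]
  succ n := by rw [← map_pow, hz.succ]
  prim n := (hz.prim n).map_of_injective ι.injective

theorem IsRoots.map {b : L} {r : ℕ → L} (hr : IsRoots l b r) {M : Type} [Field M] (ι : L →+* M) :
    IsRoots l (ι b) fun n => ι (r n) where
  ne := by simpa using hr.ne
  zero := by rw [hr.zero]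
  succ n := by rw [← map_pow, hr.succ]

theorem map_ee (z : ℕ → L) {M : Type} [Field M] (ι : L →+* M) (n : ℕ) (x : ℤ_[l]) :
    ι (ee z n x) = ee (fun n => ι (z n)) n x := by rw [ee, ee, map_pow]

open Classical in
/-- The Kummer cocycle: `σ (r n) = z n ^ (kum σ) * r n`. -/
noncomputable def kum (l : ℕ) [hl : Fact l.Prime] (z r : ℕ → L) (σ : L → L) : ℤ_[l] :=
  if h : ∃ x : ℤ_[l], ∀ n, σ (r n) = ee z n x * r n then h.choose else 0

section kum

variable {z : ℕ → L} (hz : IsZ l z) {b : L} {r : ℕ → L} (hr : IsRoots l b r)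

include hz hr

theorem kum_spec (σ : L →+* L) (hσ : σ b = b) (n : ℕ) : σ (r n) = ee z n (kum l z r σ) * r n := by
  have h : ∃ x : ℤ_[l], ∀ n, σ (r n) = ee z n x * r n := by
    obtain ⟨x, hx⟩ := exists_log hz (fun n => σ (r n) / r n)
      (by rw [hr.zero, hσ, div_self hr.ne]) (fun n => by rw [div_pow, ← map_pow, hr.succ])
    refine ⟨x, fun n => ?_⟩
    rw [← hx n, div_mul_cancel₀ _ (hr.ne_zero n)]
  rw [kum, dif_pos h]
  exact h.choose_spec n

theorem kum_unique {σ : L →+* L} (hσ : σ b = b) {x : ℤ_[l]} (h : ∀ n, σ (r n) = ee z n x * r n) :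
    kum l z r σ = x := by
  refine ee_ext hz fun n => ?_
  have h1 := kum_spec hz hr σ hσ n
  rw [h n] at h1
  exact (mul_right_cancel₀ (hr.ne_zero n) h1).symm

theorem kum_comp {σ τ : L →+* L} (hσ : σ b = b) (hτ : τ b = b) {c : ℤ_[l]}
    (hc : ∀ n, σ (z n) = ee z n c) :
    kum l z r (σ.comp τ) = kum l z r σ + c * kum l z r τ := by
  refine kum_unique hz hr (by rw [RingHom.comp_apply, hτ, hσ]) fun n => ?_
  rw [RingHom.comp_apply, kum_spec hz hr τ hτ, map_mul, kum_spec hz hr σ hσ, ee_add hz, ee_mul' hz,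
    ← hc n, ← map_pow, ← ee]
  ring

end kum

end Pool.Agent.N491.CD
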