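import Mathlib

/-!
# The absolute Galois group of `ℚ_p`: inertia, wild inertia, Frobenius elements
-/

set_option autoImplicit false
set_option linter.unusedSectionVars false

open Polynomial IntermediateField

namespace Pool.Agent.N491.CD

variable (p : ℕ) [hp : Fact p.Prime]

/-- the absolute Galois group of `ℚ_p` -/
abbrev GG : Type := Gal(PadicAlgCl p/ℚ_[p])

variable {p}

theorem norm_gal (g : GG p) (x : PadicAlgCl p) : ‖g x‖ = ‖x‖ := by
  rw [← PadicAlgCl.spectralNorm_eq, ← PadicAlgCl.spectralNorm_eq]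
  exact (spectralNorm_eq_of_equiv g x).symm

theorem norm_natCast_alg (m : ℕ) : ‖(m : PadicAlgCl p)‖ = ‖(m : ℚ_[p])‖ := by
  have h := PadicAlgCl.norm_extends p (m : ℚ_[p])
  rw [← h, map_natCast]

theorem norm_natCast_of_not_dvd {m : ℕ} (h : ¬ p ∣ m) : ‖(m : PadicAlgCl p)‖ = 1 := by
  rw [norm_natCast_alg]
  rw [Padic.norm_natCast_eq_one_iff]
  exact (Nat.Prime.coprime_iff_not_dvd hp.out).2 h

theorem norm_natCast_p : ‖(p : PadicAlgCl p)‖ = (p : ℝ)⁻¹ := by
  rw [norm_natCast_alg, Padic.norm_p]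

theorem norm_sub_lt {a b c : PadicAlgCl p} {r : ℝ} (h1 : ‖a - b‖ < r) (h2 : ‖b - c‖ < r) :
    ‖a - c‖ < r := by
  have h := IsUltrametricDist.norm_add_le_max (a - b) (b - c)
  rw [sub_add_sub_cancel] at h
  exact h.trans_lt (max_lt h1 h2)

theorem norm_add_le {a b : PadicAlgCl p} {r : ℝ} (h1 : ‖a‖ ≤ r) (h2 : ‖b‖ ≤ r) :
    ‖a + b‖ ≤ r := (IsUltrametricDist.norm_add_le_max a b).trans (max_le h1 h2)

theorem norm_sub_le' {a b : PadicAlgCl p} {r : ℝ} (h1 : ‖a‖ ≤ r) (h2 : ‖b‖ ≤ r) :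
    ‖a - b‖ ≤ r := by
  rw [sub_eq_add_neg]
  exact norm_add_le h1 (by rwa [norm_neg])

theorem norm_eq_of_sub_lt {a b : PadicAlgCl p} (h : ‖a - b‖ < ‖b‖) : ‖a‖ = ‖b‖ := by
  have h1 : a = (a - b) + b := by ring
  rw [h1, IsUltrametricDist.norm_add_eq_max_of_norm_ne_norm h.ne, max_eq_right h.le]

theorem norm_mul_sub {a b c d : PadicAlgCl p} (ha : ‖a‖ ≤ 1) (hd : ‖d‖ ≤ 1) (h1 : ‖a - b‖ < 1)
    (h2 : ‖c - d‖ < 1) : ‖a * c - b * d‖ < 1 := by
  have e : a * c - b * d = a * (c - d) + (a - b) * d := by ring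
  rw [e]
  refine (IsUltrametricDist.norm_add_le_max _ _).trans_lt (max_lt ?_ ?_)
  · rw [norm_mul]
    exact (mul_le_of_le_one_left (norm_nonneg _) ha).trans_lt h2
  · rw [norm_mul]
    exact (mul_le_of_le_one_right (norm_nonneg _) hd).trans_lt h1

theorem norm_pow_sub {a b : PadicAlgCl p} (ha : ‖a‖ ≤ 1) (hb : ‖b‖ ≤ 1) (h : ‖a - b‖ < 1) (n : ℕ) :
    ‖a ^ n - b ^ n‖ < 1 := by
  induction n with
  | zero => simp
  | succ n ih =>
    rw [pow_succ, pow_succ]
    refine norm_mul_sub ?_ hb ih h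
    rw [norm_pow]
    exact pow_le_one₀ (norm_nonneg _) ha

/-- A root of unity of order prime to `p` which is congruent to `1` is `1`. -/
theorem root_one {z : PadicAlgCl p} {m : ℕ} (hm : ¬ p ∣ m) (hz : z ^ m = 1) (h : ‖z - 1‖ < 1) :
    z = 1 := by
  by_contra hne
  have h1 : (∑ i ∈ Finset.range m, z ^ i) * (z - 1) = 0 := by
    rw [geom_sum_mul, hz, sub_self]
  have h2 : ∑ i ∈ Finset.range m, z ^ i = 0 :=
    (mul_eq_zero.1 h1).resolve_right (sub_ne_zero.2 hne)
  have hm0 : m ≠ 0 := fun h0 => hm (h0 ▸ dvd_zero p)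
  have hz1 : ‖z‖ = 1 := by
    have : ‖z‖ ^ m = 1 := by rw [← norm_pow, hz, norm_one]
    exact (pow_eq_one_iff_of_nonneg (norm_nonneg _) hm0).1 this
  have h3 : ‖(∑ i ∈ Finset.range m, z ^ i) - (m : PadicAlgCl p)‖ < 1 := by
    have e : (∑ i ∈ Finset.range m, z ^ i) - (m : PadicAlgCl p) =
        ∑ i ∈ Finset.range m, (z ^ i - 1) := by
      rw [Finset.sum_sub_distrib]
      simp
    rw [e]
    obtain ⟨i, hi, hle⟩ := IsUltrametricDist.exists_norm_finsetSum_le_of_nonempty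
      (Finset.nonempty_range_iff.2 hm0) (fun i => z ^ i - 1)
    refine hle.trans_lt ?_
    have := norm_pow_sub (a := z) (b := 1) hz1.le (by simp) h i
    rwa [one_pow] at this
  rw [h2, zero_sub, norm_neg, norm_natCast_of_not_dvd hm] at h3
  exact lt_irrefl _ h3

theorem norm_root {z : PadicAlgCl p} {m : ℕ} (hm : m ≠ 0) (hz : z ^ m = 1) : ‖z‖ = 1 := by
  have : ‖z‖ ^ m = 1 := by rw [← norm_pow, hz, norm_one]
  exact (pow_eq_one_iff_of_nonneg (norm_nonneg _) hm).1 this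

/-- Different roots of unity of order prime to `p` are not congruent. -/
theorem root_eq {z w : PadicAlgCl p} {m : ℕ} (hm : ¬ p ∣ m) (hz : z ^ m = 1) (hw : w ^ m = 1)
    (h : ‖z - w‖ < 1) : z = w := by
  have hm0 : m ≠ 0 := fun h0 => hm (h0 ▸ dvd_zero p)
  have hw1 := norm_root hm0 hw
  have hw0 : w ≠ 0 := norm_pos_iff.1 (by rw [hw1]; exact one_pos)
  have h1 : z / w = 1 := by
    refine root_one hm (by rw [div_pow, hz, hw, div_one]) ?_
    have e : z / w - 1 = (z - w) / w := by field_simp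
    rw [e, norm_div, hw1, div_one]
    exact h
  exact (div_eq_one_iff_eq hw0).1 h1

/-- the inertia group -/
def Inert (g : GG p) : Prop := ∀ x : PadicAlgCl p, ‖x‖ ≤ 1 → ‖g x - x‖ < 1

/-- the wild inertia group -/
def Wild (g : GG p) : Prop := ∀ x : PadicAlgCl p, x ≠ 0 → ‖g x - x‖ < ‖x‖

/-- `g` acts as `x ↦ x ^ q` on the residue field. -/
def Frob (g : GG p) (q : ℕ) : Prop := ∀ x : PadicAlgCl p, ‖x‖ ≤ 1 → ‖g x - x ^ q‖ < 1

theorem Inert.one : Inert (1 : GG p) := fun x _ => by simp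

theorem Inert.mul {g h : GG p} (hg : Inert g) (hh : Inert h) : Inert (g * h) := by
  intro x hx
  rw [AlgEquiv.mul_apply]
  refine norm_sub_lt (hg _ ?_) (hh x hx)
  rwa [norm_gal]

theorem Inert.inv {g : GG p} (hg : Inert g) : Inert g⁻¹ := by
  intro x hx
  have h := hg (g⁻¹ x) (by rwa [norm_gal])
  rw [← AlgEquiv.mul_apply, mul_inv_cancel, AlgEquiv.one_apply, norm_sub_rev] at h
  exact h

theorem Inert.pow {g : GG p} (hg : Inert g) (n : ℕ) : Inert (g ^ n) := by
  induction n with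
  | zero => exact Inert.one
  | succ n ih => exact ih.mul hg

theorem Inert.conj {g h : GG p} (hg : Inert g) : Inert (h * g * h⁻¹) := by
  intro x hx
  have h1 := hg (h⁻¹ x) (by rwa [norm_gal])
  rw [← norm_gal h, map_sub] at h1
  rw [AlgEquiv.mul_apply, AlgEquiv.mul_apply]
  have e : h (h⁻¹ x) = x := by rw [← AlgEquiv.mul_apply, mul_inv_cancel, AlgEquiv.one_apply]
  rwa [e] at h1

theorem Wild.inert {g : GG p} (hg : Wild g) : Inert g := by
  intro x hx
  rcases eq_or_ne x 0 with rfl | h0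
  · simp
  · exact (hg x h0).trans_le hx

theorem Wild.pow {g : GG p} (hg : Wild g) (n : ℕ) : Wild (g ^ n) := by
  induction n with
  | zero =>
    intro x hx
    simpa using hx
  | succ n ih =>
    intro x hx
    rw [pow_succ, AlgEquiv.mul_apply]
    have h1 := hg x hx
    have hgx : g x ≠ 0 := by simpa using hx
    have h2 := ih (g x) hgx
    rw [norm_gal] at h2
    exact norm_sub_lt h2 h1

theorem Inert.unit {g : GG p} (hg : Inert g) {x : PadicAlgCl p} (hx : ‖x‖ = 1) :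
    ‖g x / x - 1‖ < 1 := by
  have hx0 : x ≠ 0 := norm_pos_iff.1 (by rw [hx]; exact one_pos)
  have e : g x / x - 1 = (g x - x) / x := by field_simp
  rw [e, norm_div, hx, div_one]
  exact hg x hx.le

/-- The commutation relation between tame inertia and Frobenius, modulo wild inertia. -/
theorem wild_of {τ σ : GG p} {q : ℕ} (hτ : Inert τ) (hσ : Frob σ q) :
    Wild (σ * τ * σ⁻¹ * (τ ^ q)⁻¹) := by
  intro z hz
  obtain ⟨x, rfl⟩ : ∃ x, z = (τ ^ q) x := ⟨(τ ^ q)⁻¹ z, by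
    rw [← AlgEquiv.mul_apply, mul_inv_cancel, AlgEquiv.one_apply]⟩
  have hx : x ≠ 0 := fun h => hz (by rw [h, map_zero])
  have e1 : (σ * τ * σ⁻¹ * (τ ^ q)⁻¹) ((τ ^ q) x) = (σ * τ * σ⁻¹) x := by
    rw [← AlgEquiv.mul_apply, inv_mul_cancel_right]
  rw [e1, norm_gal]
  have hx' : 0 < ‖x‖ := norm_pos_iff.2 hx
  set u := τ x / x with hu
  have hu1 : ‖u‖ = 1 := by rw [hu, norm_div, norm_gal, div_self hx'.ne']
  have hA : ∀ n : ℕ, ‖(τ ^ n) x / x - u ^ n‖ < 1 := by
    intro n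
    induction n with
    | zero => simp [div_self hx]
    | succ n ih =>
      have hv : ‖(τ ^ n) x / x‖ = 1 := by rw [norm_div, norm_gal, div_self hx'.ne']
      have e2 : (τ ^ (n + 1)) x / x = τ ((τ ^ n) x / x) * u := by
        rw [pow_succ', AlgEquiv.mul_apply, map_div₀, hu]
        have : τ x ≠ 0 := by simpa using hx
        field_simp
      rw [e2, pow_succ]
      refine norm_mul_sub (by rw [norm_gal, hv]) hu1.le (norm_sub_lt (hτ _ hv.le) ih) (by simp)
  set y := σ⁻¹ x with hy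
  have hyx : ‖y / x‖ = 1 := by rw [norm_div, hy, norm_gal, div_self hx'.ne']
  have hy0 : y ≠ 0 := by rw [hy]; simpa using hx
  have hτy : ‖τ y / y‖ = 1 := by rw [norm_div, norm_gal, div_self (norm_ne_zero_iff.2 hy0)]
  have hB : ‖τ y / y - u‖ < 1 := by
    have h1 := hτ.unit hyx
    have e3 : τ y / y = (τ (y / x) / (y / x)) * u := by
      rw [map_div₀, hu]
      have : τ x ≠ 0 := by simpa using hx
      field_simp
    rw [e3]
    have h2 : ‖τ (y / x) / (y / x)‖ = 1 := by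
      rw [norm_div, norm_gal, hyx, div_one]
    have h3 := norm_mul_sub (a := τ (y / x) / (y / x)) (b := 1) (c := u) (d := u) h2.le hu1.le h1
      (by simp)
    rwa [one_mul] at h3
  have hC : ‖(σ * τ * σ⁻¹) x / x - (τ y / y) ^ q‖ < 1 := by
    have e4 : (σ * τ * σ⁻¹) x / x = σ (τ y / y) := by
      rw [AlgEquiv.mul_apply, AlgEquiv.mul_apply, ← hy, map_div₀]
      congr 1
      rw [hy, ← AlgEquiv.mul_apply, mul_inv_cancel, AlgEquiv.one_apply]
    rw [e4]
    exact hσ _ hτy.le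
  have hD : ‖(σ * τ * σ⁻¹) x / x - (τ ^ q) x / x‖ < 1 := by
    refine norm_sub_lt (norm_sub_lt hC (norm_pow_sub hτy.le hu1.le hB q)) ?_
    rw [norm_sub_rev]
    exact hA q
  have e5 : (σ * τ * σ⁻¹) x - (τ ^ q) x = ((σ * τ * σ⁻¹) x / x - (τ ^ q) x / x) * x := by
    field_simp
  rw [e5, norm_mul]
  exact mul_lt_of_lt_one_left hx' hD

theorem Wild.fix {w : GG p} (hw : Wild w) {m : ℕ} (hm : ¬ p ∣ m) {x : PadicAlgCl p}
    (hx : (w ^ m) x = x) : w x = x := by
  by_contra hne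
  set d := w x - x with hd
  have hd0 : d ≠ 0 := sub_ne_zero.2 hne
  have hm0 : m ≠ 0 := fun h0 => hm (h0 ▸ dvd_zero p)
  have h1 : ∀ n : ℕ, ∑ i ∈ Finset.range n, (w ^ i) d = (w ^ n) x - x := by
    intro n
    induction n with
    | zero => simp
    | succ n ih =>
      rw [Finset.sum_range_succ, ih, hd, map_sub, ← AlgEquiv.mul_apply, ← pow_succ]
      ring
  have h2 := h1 m
  rw [hx, sub_self] at h2
  have h3 : ‖(∑ i ∈ Finset.range m, (w ^ i) d) - (m : PadicAlgCl p) * d‖ < ‖d‖ := by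
    have e : (∑ i ∈ Finset.range m, (w ^ i) d) - (m : PadicAlgCl p) * d =
        ∑ i ∈ Finset.range m, ((w ^ i) d - d) := by
      rw [Finset.sum_sub_distrib]
      simp
    rw [e]
    obtain ⟨i, hi, hle⟩ := IsUltrametricDist.exists_norm_finsetSum_le_of_nonempty
      (Finset.nonempty_range_iff.2 hm0) (fun i => (w ^ i) d - d)
    exact hle.trans_lt (hw.pow i d hd0)
  rw [h2, zero_sub, norm_neg, norm_mul, norm_natCast_of_not_dvd hm, one_mul] at h3
  exact lt_irrefl _ h3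

theorem exists_pow_fix (w : GG p) (x : PadicAlgCl p) : ∃ n : ℕ, n ≠ 0 ∧ (w ^ n) x = x := by
  have hint : IsIntegral ℚ_[p] x := Algebra.IsIntegral.isIntegral x
  have hfin : ((minpoly ℚ_[p] x).rootSet (PadicAlgCl p)).Finite := rootSet_finite _ _
  have hmem : ∀ n : ℕ, (w ^ n) x ∈ (minpoly ℚ_[p] x).rootSet (PadicAlgCl p) := by
    intro n
    rw [mem_rootSet]
    refine ⟨minpoly.ne_zero hint, ?_⟩
    have h := aeval_algHom_apply ((w ^ n : GG p) : PadicAlgCl p →ₐ[ℚ_[p]] PadicAlgCl p) x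
      (minpoly ℚ_[p] x)
    rw [minpoly.aeval, map_zero] at h
    exact h
  have := hfin.to_subtype
  obtain ⟨i, j, hij, h⟩ := Finite.exists_ne_map_eq_of_infinite
    (fun n : ℕ => (⟨(w ^ n) x, hmem n⟩ : (minpoly ℚ_[p] x).rootSet (PadicAlgCl p)))
  have h' : (w ^ i) x = (w ^ j) x := congrArg Subtype.val h
  wlog hlt : i < j generalizing i j
  · exact this j i hij.symm h.symm h'.symm (lt_of_le_of_ne (not_lt.1 hlt) hij.symm)
  refine ⟨j - i, by omega, ?_⟩
  have h3 : (w ^ j) x = (w ^ i) ((w ^ (j - i)) x) := by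
    rw [← AlgEquiv.mul_apply, ← pow_add]
    congr 2
    omega
  rw [h3] at h'
  exact ((w ^ i).injective h').symm

/-- A wild element has `p`-power order on each element. -/
theorem Wild.exists_pow {w : GG p} (hw : Wild w) (x : PadicAlgCl p) :
    ∃ r : ℕ, (w ^ p ^ r) x = x := by
  obtain ⟨n, hn, hx⟩ := exists_pow_fix w x
  refine ⟨n.factorization p, ?_⟩
  refine Wild.fix (hw.pow _) (m := n / p ^ n.factorization p) (Nat.not_dvd_ordCompl hp.out hn) ?_
  rw [← pow_mul, Nat.ordProj_mul_ordCompl_eq_self]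
  exact hx

theorem Wild.exists_pow_finset {w : GG p} (hw : Wild w) (s : Finset (PadicAlgCl p)) :
    ∃ r : ℕ, ∀ x ∈ s, (w ^ p ^ r) x = x := by
  classical
  induction s using Finset.induction with
  | empty => exact ⟨0, by simp⟩
  | insert a s _ ih =>
    obtain ⟨r, hr⟩ := ih
    obtain ⟨r', hr'⟩ := hw.exists_pow a
    have key : ∀ (a b : ℕ) (x : PadicAlgCl p), (w ^ p ^ a) x = x → (w ^ p ^ (a + b)) x = x := by
      intro a b x hx
      rw [pow_add, pow_mul]
      generalize p ^ b = n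
      induction n with
      | zero => simp
      | succ n ih => rw [pow_succ, AlgEquiv.mul_apply, hx, ih]
    refine ⟨r + r', fun x hx => ?_⟩
    rcases Finset.mem_insert.1 hx with rfl | hx
    · rw [add_comm]
      exact key r' r x hr'
    · exact key r r' x (hr x hx)

end Pool.Agent.N491.CD
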