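import Mathlib
import Pool.Agent.N491.CD.Loc1

/-!
# The residue field, Teichmüller representatives and the existence of Frobenius elements
-/

set_option autoImplicit false
set_option linter.unusedSectionVars false

open Polynomial IntermediateField

namespace Pool.Agent.N491.CD

variable (p : ℕ) [hp : Fact p.Prime]

/-- the ring of integers -/
def OO : Subring (PadicAlgCl p) where
  carrier := {x | ‖x‖ ≤ 1}
  mul_mem' := fun {a b} ha hb => by
    change ‖a * b‖ ≤ 1
    rw [norm_mul]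
    exact mul_le_one₀ ha (norm_nonneg _) hb
  one_mem' := by simp
  add_mem' := fun ha hb => norm_add_le ha hb
  zero_mem' := by simp
  neg_mem' := fun {a} ha => by
    change ‖-a‖ ≤ 1
    rw [norm_neg]
    exact ha

/-- the maximal ideal -/
def mm : Ideal (OO p) where
  carrier := {x | ‖(x : PadicAlgCl p)‖ < 1}
  add_mem' := fun {a b} ha hb =>
    (IsUltrametricDist.norm_add_le_max (a : PadicAlgCl p) b).trans_lt (max_lt ha hb)
  zero_mem' := by simp
  smul_mem' := fun a b hb => by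
    change ‖(a : PadicAlgCl p) * b‖ < 1
    rw [norm_mul]
    exact (mul_le_of_le_one_left (norm_nonneg _) a.2).trans_lt hb

/-- the residue field -/
abbrev KK : Type := OO p ⧸ mm p

variable {p}

theorem mem_mm {x : OO p} : x ∈ mm p ↔ ‖(x : PadicAlgCl p)‖ < 1 := Iff.rfl

instance : (mm p).IsPrime where
  ne_top' := by
    rw [Ideal.ne_top_iff_one, mem_mm]
    simp
  mem_or_mem' := by
    intro x y h
    by_contra hne
    rw [not_or, mem_mm, mem_mm, not_lt, not_lt] at hne
    rw [mem_mm] at h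
    have h1 : ‖((x * y : OO p) : PadicAlgCl p)‖ = ‖(x : PadicAlgCl p)‖ * ‖(y : PadicAlgCl p)‖ := by
      rw [← norm_mul]
      rfl
    rw [h1] at h
    exact absurd h (not_lt.2 (one_le_mul_of_one_le_of_one_le hne.1 hne.2))

instance : CharP (KK p) p := by
  rw [CharP.charP_iff_prime_eq_zero hp.out]
  have h : (p : KK p) = Ideal.Quotient.mk (mm p) (p : OO p) := by simp
  rw [h, Ideal.Quotient.eq_zero_iff_mem, mem_mm]
  have h2 : (((p : OO p)) : PadicAlgCl p) = (p : PadicAlgCl p) := by simp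
  rw [h2, norm_natCast_p]
  exact inv_lt_one_of_one_lt₀ (by exact_mod_cast hp.out.one_lt)

theorem mk_eq {x y : OO p} : Ideal.Quotient.mk (mm p) x = Ideal.Quotient.mk (mm p) y ↔
    ‖(x : PadicAlgCl p) - y‖ < 1 := by
  rw [Ideal.Quotient.eq, mem_mm]
  rfl

theorem frob_inj {x y : PadicAlgCl p} (hx : ‖x‖ ≤ 1) (hy : ‖y‖ ≤ 1) {n : ℕ}
    (h : ‖x ^ p ^ n - y ^ p ^ n‖ < 1) : ‖x - y‖ < 1 := by
  have h1 : Ideal.Quotient.mk (mm p) (⟨x, hx⟩ ^ p ^ n) = Ideal.Quotient.mk (mm p) (⟨y, hy⟩ ^ p ^ n) :=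
    mk_eq.2 h
  rw [map_pow, map_pow, ← sub_eq_zero, ← sub_pow_char_pow] at h1
  have h2 := pow_eq_zero_iff (pow_ne_zero n hp.out.ne_zero) |>.1 h1
  rw [sub_eq_zero, mk_eq] at h2
  exact h2

/-- Every integral element is congruent to its `p ^ k`-th power for some `k > 0`. -/
theorem exists_pow_sub {x : PadicAlgCl p} (hx : ‖x‖ ≤ 1) : ∃ k : ℕ, 0 < k ∧ ‖x ^ p ^ k - x‖ < 1 := by
  let s : Submodule ℚ_[p] (PadicAlgCl p) := Subalgebra.toSubmodule (Algebra.adjoin ℚ_[p] {x})
  have hfd : FiniteDimensional ℚ_[p] s :=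
    Module.Finite.iff_fg.2 (IsIntegral.fg_adjoin_singleton (Algebra.IsIntegral.isIntegral x))
  have hprop : ProperSpace s := FiniteDimensional.proper ℚ_[p] s
  have hmem : ∀ n : ℕ, x ^ p ^ n ∈ s := fun n =>
    Subalgebra.pow_mem _ (Algebra.self_mem_adjoin_singleton ℚ_[p] x) _
  have hcomp := isCompact_closedBall (0 : s) 1
  obtain ⟨a, _, φ, hφ, hlim⟩ := hcomp.tendsto_subseq (x := fun n => ⟨x ^ p ^ n, hmem n⟩) (fun n => by
    rw [mem_closedBall_zero_iff]
    change ‖x ^ p ^ n‖ ≤ 1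
    rw [norm_pow]
    exact pow_le_one₀ (norm_nonneg _) hx)
  have hc := hlim.cauchySeq
  rw [Metric.cauchySeq_iff] at hc
  obtain ⟨N, hN⟩ := hc 1 one_pos
  have h1 := hN (N + 1) (by omega) N le_rfl
  have h2 : φ N < φ (N + 1) := hφ (by omega)
  rw [dist_eq_norm] at h1
  have h3 : ‖x ^ p ^ φ (N + 1) - x ^ p ^ φ N‖ < 1 := h1
  refine ⟨φ (N + 1) - φ N, by omega, ?_⟩
  refine frob_inj (n := φ N) ?_ hx ?_
  · rw [norm_pow]
    exact pow_le_one₀ (norm_nonneg _) hx
  · rw [← pow_mul, ← pow_add, Nat.sub_add_cancel h2.le]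
    exact h3

/-- Teichmüller representatives -/
theorem exists_teich {x : PadicAlgCl p} (hx : ‖x‖ ≤ 1) :
    ∃ (k : ℕ) (ω : PadicAlgCl p), 0 < k ∧ ω ^ p ^ k = ω ∧ ‖x - ω‖ < 1 := by
  obtain ⟨k, hk, h⟩ := exists_pow_sub hx
  have hpk : 1 < p ^ k := Nat.one_lt_pow hk.ne' hp.out.one_lt
  let f : (PadicAlgCl p)[X] := X ^ p ^ k - X
  have hf : f.Monic := monic_X_pow_sub (by
    rw [degree_X]
    exact_mod_cast hpk)
  have hs : f.Splits := IsAlgClosed.splits f
  have h1 : f.eval x = (f.roots.map (x - ·)).prod := hs.eval_eq_prod_roots_of_monic hf x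
  have h2 : f.eval x = x ^ p ^ k - x := by simp [f]
  rw [h2] at h1
  by_contra hcon
  push Not at hcon
  have h3 : ∀ ω ∈ f.roots, 1 ≤ ‖x - ω‖ := by
    intro ω hω
    refine hcon k ω hk ?_
    have h4 := (mem_roots'.1 hω).2
    rw [IsRoot.def] at h4
    simp only [f, eval_sub, eval_pow, eval_X] at h4
    exact sub_eq_zero.1 h4
  have h5 : 1 ≤ ‖(f.roots.map (x - ·)).prod‖ := by
    have h6 : ∀ s : Multiset (PadicAlgCl p), (∀ ω ∈ s, 1 ≤ ‖x - ω‖) →
        1 ≤ ‖(s.map (x - ·)).prod‖ := by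
      intro s
      induction s using Multiset.induction with
      | empty => simp
      | cons a s ih =>
        intro hs
        rw [Multiset.map_cons, Multiset.prod_cons, norm_mul]
        exact one_le_mul_of_one_le_of_one_le (hs a (Multiset.mem_cons_self a s))
          (ih fun ω hω => hs ω (Multiset.mem_cons_of_mem hω))
    exact h6 _ h3
  rw [← h1] at h5
  exact absurd h (not_lt.2 h5)

/-- An automorphism which acts on the Teichmüller representatives as `ω ↦ ω ^ q` acts in this way on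
the residue field. -/
theorem frob_of {g : GG p} {q : ℕ}
    (h : ∀ (k : ℕ) (ω : PadicAlgCl p), 0 < k → ω ^ p ^ k = ω → g ω = ω ^ q) : Frob g q := by
  intro x hx
  obtain ⟨k, ω, hk, hω, h1⟩ := exists_teich hx
  have hω1 : ‖ω‖ ≤ 1 := by
    have : ω = x - (x - ω) := by ring
    rw [this]
    exact norm_sub_le' hx h1.le
  refine norm_sub_lt (b := g ω) ?_ ?_
  · rw [← map_sub, norm_gal]
    exact h1
  · rw [h k ω hk hω]
    refine norm_pow_sub hω1 hx ?_ q
    rwa [norm_sub_rev]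

theorem inert_of {g : GG p}
    (h : ∀ (k : ℕ) (ω : PadicAlgCl p), 0 < k → ω ^ p ^ k = ω → g ω = ω) : Inert g := by
  have h1 : Frob g 1 := frob_of fun k ω hk hω => by rw [h k ω hk hω, pow_one]
  intro x hx
  have := h1 x hx
  rwa [pow_one] at this

theorem Frob.mul {g h : GG p} {a b : ℕ} (hg : Frob g a) (hh : Frob h b) : Frob (g * h) (a * b) := by
  intro x hx
  rw [AlgEquiv.mul_apply]
  refine norm_sub_lt (hg _ (by rwa [norm_gal])) ?_
  rw [mul_comm, pow_mul]
  refine norm_pow_sub (by rwa [norm_gal]) ?_ (hh x hx) a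
  rw [norm_pow]
  exact pow_le_one₀ (norm_nonneg _) hx

theorem Frob.pow {g : GG p} {a : ℕ} (hg : Frob g a) (n : ℕ) : Frob (g ^ n) (a ^ n) := by
  induction n with
  | zero =>
    intro x hx
    simp
  | succ n ih =>
    rw [pow_succ, pow_succ]
    exact ih.mul hg

theorem norm_algebraMap_int (a : ℤ_[p]) : ‖algebraMap ℤ_[p] (PadicAlgCl p) a‖ ≤ 1 := by
  rw [IsScalarTower.algebraMap_apply ℤ_[p] ℚ_[p] (PadicAlgCl p), PadicAlgCl.norm_extends]
  exact a.2

theorem norm_sum_le_one {s : Finset ℕ} {f : ℕ → PadicAlgCl p} (h : ∀ i ∈ s, ‖f i‖ ≤ 1) :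
    ‖∑ i ∈ s, f i‖ ≤ 1 := by
  rcases s.eq_empty_or_nonempty with rfl | hs
  · simp
  · obtain ⟨i, hi, hle⟩ := IsUltrametricDist.exists_norm_finsetSum_le_of_nonempty hs f
    exact hle.trans (h i hi)

theorem norm_aeval_le {x : PadicAlgCl p} (hx : ‖x‖ ≤ 1) (f : ℤ_[p][X]) : ‖aeval x f‖ ≤ 1 := by
  rw [aeval_eq_sum_range]
  refine norm_sum_le_one fun i _ => ?_
  rw [Algebra.smul_def, norm_mul, norm_pow]
  exact mul_le_one₀ (norm_algebraMap_int _) (by positivity) (pow_le_one₀ (norm_nonneg _) hx)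

theorem norm_aeval_lt {x : PadicAlgCl p} (hx : ‖x‖ ≤ 1) {f : ℤ_[p][X]}
    (hf : f.map (PadicInt.toZMod (p := p)) = 0) : ‖aeval x f‖ < 1 := by
  have h1 : C (p : ℤ_[p]) ∣ f := by
    rw [C_dvd_iff_dvd_coeff]
    intro i
    have h2 : PadicInt.toZMod (f.coeff i) = 0 := by
      rw [← coeff_map, hf, coeff_zero]
    rw [← Ideal.mem_span_singleton, ← PadicInt.maximalIdeal_eq_span_p, ← PadicInt.ker_toZMod]
    exact h2
  obtain ⟨g, rfl⟩ := h1
  rw [map_mul, aeval_C, map_natCast, norm_mul, norm_natCast_p]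
  refine (mul_le_of_le_one_right (by positivity) (norm_aeval_le hx g)).trans_lt ?_
  exact inv_lt_one_of_one_lt₀ (by exact_mod_cast hp.out.one_lt)

/-- For a root of unity `z` of order prime to `p`, `z ^ p` is conjugate to `z`. -/
theorem exists_gal_pow {z : PadicAlgCl p} {m : ℕ} (hm : ¬ p ∣ m) (hz : z ^ m = 1) :
    ∃ g : GG p, g z = z ^ p := by
  have hm0 : m ≠ 0 := fun h0 => hm (h0 ▸ dvd_zero p)
  have hz1 := norm_root hm0 hz
  have hint : IsIntegral ℤ_[p] z := ⟨X ^ m - 1, monic_X_pow_sub_C 1 hm0, by simp [hz]⟩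
  let f := minpoly ℤ_[p] z
  have hf : f.Monic := minpoly.monic hint
  have h1 : ‖aeval (z ^ p) f‖ < 1 := by
    have h2 : (expand ℤ_[p] p f - f ^ p).map (PadicInt.toZMod (p := p)) = 0 := by
      rw [Polynomial.map_sub, Polynomial.map_pow, map_expand, ZMod.expand_card, sub_self]
    have h3 := norm_aeval_lt hz1.le h2
    rw [map_sub, map_pow, expand_aeval, minpoly.aeval, zero_pow hp.out.ne_zero, sub_zero] at h3
    exact h3
  have hmin : minpoly ℚ_[p] z = f.map (algebraMap ℤ_[p] ℚ_[p]) :=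
    minpoly.isIntegrallyClosed_eq_field_fractions ℚ_[p] (PadicAlgCl p) hint
  have hroot : aeval (z ^ p) (minpoly ℚ_[p] z) = 0 := by
    by_contra hne
    let F : (PadicAlgCl p)[X] := (minpoly ℚ_[p] z).map (algebraMap ℚ_[p] (PadicAlgCl p))
    have hF : F.Monic := (minpoly.monic (Algebra.IsIntegral.isIntegral z)).map _
    have hs : F.Splits := IsAlgClosed.splits F
    have h4 : F.eval (z ^ p) = (F.roots.map (z ^ p - ·)).prod := hs.eval_eq_prod_roots_of_monic hF _
    have h5 : F.eval (z ^ p) = aeval (z ^ p) f := by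
      simp only [F]
      rw [eval_map_algebraMap, hmin, aeval_map_algebraMap]
    have h6 : ∀ r ∈ F.roots, 1 ≤ ‖z ^ p - r‖ := by
      intro r hr
      by_contra hlt
      rw [not_le] at hlt
      have hr0 := (mem_roots'.1 hr).2
      have hdvd : F ∣ X ^ m - 1 := by
        have h7 : minpoly ℚ_[p] z ∣ X ^ m - 1 := minpoly.dvd _ _ (by simp [hz])
        have h8 := Polynomial.map_dvd (algebraMap ℚ_[p] (PadicAlgCl p)) h7
        simpa using h8
      have hrm : r ^ m = 1 := by
        have h9 := hr0.dvd hdvd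
        rw [IsRoot.def] at h9
        simpa [sub_eq_zero] using h9
      have hzp : (z ^ p) ^ m = 1 := by rw [← pow_mul, mul_comm, pow_mul, hz, one_pow]
      have := root_eq hm hzp hrm hlt
      rw [this] at hne
      apply hne
      rw [IsRoot.def, eval_map_algebraMap] at hr0
      exact hr0
    have h10 : 1 ≤ ‖(F.roots.map (z ^ p - ·)).prod‖ := by
      have h11 : ∀ s : Multiset (PadicAlgCl p), (∀ ω ∈ s, 1 ≤ ‖z ^ p - ω‖) →
          1 ≤ ‖(s.map (z ^ p - ·)).prod‖ := by
        intro s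
        induction s using Multiset.induction with
        | empty => simp
        | cons a s ih =>
          intro hs
          rw [Multiset.map_cons, Multiset.prod_cons, norm_mul]
          exact one_le_mul_of_one_le_of_one_le (hs a (Multiset.mem_cons_self a s))
            (ih fun ω hω => hs ω (Multiset.mem_cons_of_mem hω))
      exact h11 _ h6
    rw [← h4, h5] at h10
    exact absurd h1 (not_lt.2 h10)
  have hconj : IsConjRoot ℚ_[p] (z ^ p) z :=
    (isConjRoot_of_aeval_eq_zero (Algebra.IsIntegral.isIntegral z) hroot).symm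
  obtain ⟨g, hg⟩ := isConjRoot_iff_exists_algEquiv.1 hconj
  exact ⟨g, hg⟩

end Pool.Agent.N491.CD
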