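import Mathlib
import Pool.Agent.N491.CD.Loc2

/-!
# Existence of Frobenius elements and of tame inertia elements
-/

set_option autoImplicit false
set_option linter.unusedSectionVars false
set_option maxHeartbeats 1000000

open Polynomial IntermediateField

namespace Pool.Agent.N491.CD

variable {p : ℕ} [hp : Fact p.Prime]

theorem isClosed_eq (a b : PadicAlgCl p) : IsClosed {g : GG p | g a = b} := by
  rcases Set.eq_empty_or_nonempty {g : GG p | g a = b} with h | ⟨g0, hg0⟩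
  · rw [h]
    exact isClosed_empty
  · have h1 : IsOpen (MulAction.stabilizer (GG p) a : Set (GG p)) := stabilizer_isOpen_of_isIntegral a
    have h2 : IsClosed (MulAction.stabilizer (GG p) a : Set (GG p)) :=
      Subgroup.isClosed_of_isOpen _ h1
    have h3 : {g : GG p | g a = b} = (fun g => g0⁻¹ * g) ⁻¹' (MulAction.stabilizer (GG p) a) := by
      ext g
      rw [Set.mem_preimage, SetLike.mem_coe, MulAction.mem_stabilizer_iff]
      change g a = b ↔ (g0⁻¹ * g) a = a
      rw [AlgEquiv.mul_apply]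
      have hg0' : g0 a = b := hg0
      constructor
      · intro h
        rw [h, ← hg0', ← AlgEquiv.mul_apply, inv_mul_cancel, AlgEquiv.one_apply]
      · intro h
        have h4 := congrArg g0 h
        rw [← AlgEquiv.mul_apply, mul_inv_cancel, AlgEquiv.one_apply, hg0'] at h4
        exact h4
    rw [h3]
    exact h2.preimage (continuous_const_mul _)

variable (p) in
/-- numbers prime to `p` such that the roots of unity of these orders are all Teichmüller
representatives -/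
def MM (k : ℕ) : ℕ := p ^ (k + 1).factorial - 1

theorem MM_add_one (k : ℕ) : MM p k + 1 = p ^ (k + 1).factorial :=
  Nat.sub_add_cancel (Nat.one_le_pow _ _ hp.out.pos)

theorem not_dvd_MM (k : ℕ) : ¬ p ∣ MM p k := by
  intro h
  have h1 : p ∣ MM p k + 1 := by
    rw [MM_add_one]
    exact dvd_pow_self p (Nat.factorial_ne_zero _)
  have h2 := (Nat.dvd_add_right h).1 h1
  exact hp.out.one_lt.ne' (Nat.dvd_one.1 h2)

theorem MM_ne_zero (k : ℕ) : MM p k ≠ 0 := fun h => not_dvd_MM (p := p) k (h ▸ dvd_zero p)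

theorem pow_iter {ω : PadicAlgCl p} {k : ℕ} (h : ω ^ p ^ k = ω) (n : ℕ) : ω ^ p ^ (k * n) = ω := by
  induction n with
  | zero => simp
  | succ n ih => rw [mul_add, mul_one, pow_add, pow_mul, ih, h]

theorem pow_MM_iff {ω : PadicAlgCl p} (h0 : ω ≠ 0) (k : ℕ) :
    ω ^ MM p k = 1 ↔ ω ^ p ^ (k + 1).factorial = ω := by
  rw [← MM_add_one, pow_succ]
  constructor
  · intro h
    rw [h, one_mul]
  · intro h
    exact mul_right_cancel₀ h0 (by rw [h, one_mul])

theorem pow_MM_of {ω : PadicAlgCl p} {k : ℕ} (hk : 0 < k) (h : ω ^ p ^ k = ω) (h0 : ω ≠ 0) :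
    ω ^ MM p k = 1 := by
  rw [pow_MM_iff h0]
  obtain ⟨n, hn⟩ : k ∣ (k + 1).factorial := Nat.dvd_factorial hk (by omega)
  rw [hn]
  exact pow_iter h n

theorem ne_zero_of_pow {ω : PadicAlgCl p} {m : ℕ} (hm : m ≠ 0) (h : ω ^ m = 1) : ω ≠ 0 := by
  rintro rfl
  rw [zero_pow hm] at h
  exact zero_ne_one h

theorem pow_MM_succ {ω : PadicAlgCl p} {k : ℕ} (h : ω ^ MM p k = 1) : ω ^ MM p (k + 1) = 1 := by
  have h0 := ne_zero_of_pow (MM_ne_zero k) h
  rw [pow_MM_iff h0] at h ⊢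
  rw [Nat.factorial_succ (k + 1), mul_comm]
  exact pow_iter h _

theorem exists_prim (k : ℕ) : ∃ z : PadicAlgCl p, IsPrimitiveRoot z (MM p k) := by
  have : NeZero (MM p k) := ⟨MM_ne_zero k⟩
  exact HasEnoughRootsOfUnity.exists_primitiveRoot (PadicAlgCl p) (MM p k)

/-- There is an element which acts as `x ↦ x ^ p` on the residue field. -/
theorem exists_frob : ∃ σ : GG p, Frob σ p := by
  let S : ℕ → Set (GG p) := fun k => {σ | ∀ ω : PadicAlgCl p, ω ^ MM p k = 1 → σ ω = ω ^ p}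
  have hS : (⋂ k, S k).Nonempty := by
    refine IsCompact.nonempty_iInter_of_sequence_nonempty_isCompact_isClosed S ?_ ?_ ?_ ?_
    · intro k σ hσ ω hω
      exact hσ ω (pow_MM_succ hω)
    · intro k
      obtain ⟨z, hz⟩ := exists_prim (p := p) k
      obtain ⟨g, hg⟩ := exists_gal_pow (not_dvd_MM k) hz.pow_eq_one
      refine ⟨g, fun ω hω => ?_⟩
      have : NeZero (MM p k) := ⟨MM_ne_zero k⟩
      obtain ⟨i, _, rfl⟩ := hz.eq_pow_of_pow_eq_one hω
      rw [map_pow, hg, ← pow_mul, ← pow_mul, mul_comm]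
    · exact (isClosed_biInter' (p := p) 0).isCompact
    · intro k
      exact isClosed_biInter' (p := p) k
  obtain ⟨σ, hσ⟩ := hS
  rw [Set.mem_iInter] at hσ
  refine ⟨σ, frob_of fun k ω hk hω => ?_⟩
  rcases eq_or_ne ω 0 with rfl | h0
  · rw [map_zero, zero_pow hp.out.ne_zero]
  · exact hσ k ω (pow_MM_of hk hω h0)
where
  isClosed_biInter' {p : ℕ} [hp : Fact p.Prime] (k : ℕ) :
      IsClosed {σ : GG p | ∀ ω : PadicAlgCl p, ω ^ MM p k = 1 → σ ω = ω ^ p} := by
    simp only [Set.ofPred_forall]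
    exact isClosed_iInter fun ω => isClosed_iInter fun _ => isClosed_eq _ _

theorem poly_aux {O κ : Type} [CommRing O] [CommRing κ] [IsDomain κ] (φ : O →+* κ) {ι : Type}
    [Fintype ι] (W : ι → O) (hinj : Function.Injective fun i => φ (W i)) (n : ℕ) (A : ℕ → O)
    (hcard : n < Fintype.card ι) (hy : ∀ i, φ (∑ j ∈ Finset.range (n + 1), A j * W i ^ j) = 0)
    (j : ℕ) (hj : j ≤ n) : φ (A j) = 0 := by
  let Q : κ[X] := ∑ i ∈ Finset.range (n + 1), C (φ (A i)) * X ^ i
  have hQ : Q = 0 := by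
    refine eq_zero_of_natDegree_lt_card_of_eval_eq_zero Q (f := fun i => φ (W i)) hinj ?_ ?_
    · intro i
      rw [← hy i]
      simp only [Q, eval_finsetSum, eval_mul, eval_C, eval_pow, eval_X, map_sum, map_mul, map_pow]
    · refine lt_of_le_of_lt ?_ hcard
      refine natDegree_sum_le_of_forall_le _ _ fun i hi => ?_
      refine (natDegree_C_mul_X_pow_le _ _).trans ?_
      exact Nat.lt_succ_iff.1 (Finset.mem_range.1 hi)
  have h3 : Q.coeff j = φ (A j) := by
    simp only [Q, finsetSum_coeff, coeff_C_mul, coeff_X_pow, mul_ite, mul_one, mul_zero]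
    rw [Finset.sum_ite_eq, if_pos]
    rw [Finset.mem_range, Nat.lt_succ_iff]
    exact hj
  rw [← h3, hQ, coeff_zero]

theorem coeff_lt_one {ι : Type} [Fintype ι] (w : ι → PadicAlgCl p) (hw : ∀ i, ‖w i‖ ≤ 1)
    (hinj : ∀ i j, ‖w i - w j‖ < 1 → i = j) (n : ℕ) (a : ℕ → PadicAlgCl p) (ha : ∀ j, ‖a j‖ ≤ 1)
    (hcard : n < Fintype.card ι) (hy : ∀ i, ‖∑ j ∈ Finset.range (n + 1), a j * w i ^ j‖ < 1)
    (j : ℕ) (hj : j ≤ n) : ‖a j‖ < 1 := by
  have h := poly_aux (Ideal.Quotient.mk (mm p)) (fun i => (⟨w i, hw i⟩ : OO p))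
    (fun i i' h => hinj i i' ((mk_eq (x := ⟨w i, hw i⟩) (y := ⟨w i', hw i'⟩)).1 h)) n (fun i => (⟨a i, ha i⟩ : OO p)) hcard (fun i => by
      rw [Ideal.Quotient.eq_zero_iff_mem, mem_mm]
      have h2 : ((∑ j ∈ Finset.range (n + 1), (⟨a j, ha j⟩ : OO p) * (⟨w i, hw i⟩ : OO p) ^ j : OO p) :
          PadicAlgCl p) = ∑ j ∈ Finset.range (n + 1), a j * w i ^ j := by
        rw [← Subring.coe_subtype, map_sum]
        rfl
      rw [h2]
      exact hy i) j hj
  rw [Ideal.Quotient.eq_zero_iff_mem, mem_mm] at h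
  exact h

/-- The extensions generated by roots of unity of order prime to `p` are unramified: the absolute values
of their elements are powers of `p`. -/
theorem norm_mem_zpow {z : PadicAlgCl p} {m : ℕ} (hm : ¬ p ∣ m) (hz : z ^ m = 1) {x : PadicAlgCl p}
    (hx : x ∈ ℚ_[p]⟮z⟯) (h0 : x ≠ 0) : ∃ n : ℤ, ‖x‖ = (p : ℝ) ^ n := by
  have hm0 : m ≠ 0 := fun h0 => hm (h0 ▸ dvd_zero p)
  have hint : IsIntegral ℚ_[p] z := Algebra.IsIntegral.isIntegral z
  obtain ⟨q, hq, rfl⟩ : ∃ q : ℚ_[p][X], q.natDegree < (minpoly ℚ_[p] z).natDegree ∧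
      aeval z q = x := by
    have h1 : x ∈ Algebra.adjoin ℚ_[p] {z} := by
      rw [← adjoin_simple_toSubalgebra_of_isAlgebraic (Algebra.IsAlgebraic.isAlgebraic z)]
      exact hx
    rw [Algebra.adjoin_singleton_eq_range_aeval] at h1
    obtain ⟨q, hq⟩ := h1
    refine ⟨q %ₘ minpoly ℚ_[p] z, ?_, ?_⟩
    · exact natDegree_modByMonic_lt q (minpoly.monic hint) (minpoly.ne_one ℚ_[p] z)
    · rw [aeval_modByMonic_eq_self_of_root (minpoly.aeval _ _)]
      exact hq
  have hq0 : q ≠ 0 := fun h => h0 (by rw [h, map_zero])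
  obtain ⟨i0, hi0, hmax⟩ := q.support.exists_max_image (fun i => ‖q.coeff i‖)
    (nonempty_support_iff.2 hq0)
  have hc0 : q.coeff i0 ≠ 0 := mem_support_iff.1 hi0
  set c := q.coeff i0 with hc
  have hcoef : ∀ i, ‖q.coeff i / c‖ ≤ 1 := by
    intro i
    rw [norm_div, div_le_one (norm_pos_iff.2 hc0)]
    by_cases hi : i ∈ q.support
    · exact hmax i hi
    · rw [notMem_support_iff.1 hi, norm_zero]
      exact norm_nonneg _
  have hcoef' : ∀ i, ‖algebraMap ℚ_[p] (PadicAlgCl p) (q.coeff i / c)‖ ≤ 1 := by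
    intro i
    rw [PadicAlgCl.norm_extends]
    exact hcoef i
  let y : PadicAlgCl p → PadicAlgCl p := fun w =>
    ∑ i ∈ Finset.range (q.natDegree + 1), algebraMap ℚ_[p] (PadicAlgCl p) (q.coeff i / c) * w ^ i
  have hy : ∀ w, aeval w q = algebraMap ℚ_[p] (PadicAlgCl p) c * y w := by
    intro w
    rw [aeval_eq_sum_range, Finset.mul_sum]
    refine Finset.sum_congr rfl fun i _ => ?_
    rw [Algebra.smul_def, ← mul_assoc, ← map_mul, mul_div_cancel₀ _ hc0]
  have hyz : ‖y z‖ = 1 := by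
    have hz1 := norm_root hm0 hz
    refine le_antisymm (norm_sum_le_one fun i _ => ?_) ?_
    · rw [norm_mul, norm_pow, hz1, one_pow, mul_one]
      exact hcoef' i
    by_contra hlt
    rw [not_le] at hlt
    let R := (minpoly ℚ_[p] z).rootSet (PadicAlgCl p)
    have hR : ∀ w ∈ R, w ^ m = 1 := by
      intro w hw
      have h7 : minpoly ℚ_[p] z ∣ X ^ m - 1 := minpoly.dvd _ _ (by simp [hz])
      obtain ⟨h, h8⟩ := h7
      have h9 : aeval w (X ^ m - 1 : ℚ_[p][X]) = 0 := by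
        rw [h8, map_mul, (mem_rootSet.1 hw).2, zero_mul]
      simpa [sub_eq_zero] using h9
    have hRy : ∀ w ∈ R, ‖y w‖ < 1 := by
      intro w hw
      obtain ⟨g, hg⟩ := isConjRoot_iff_exists_algEquiv.1
        (isConjRoot_of_aeval_eq_zero hint (mem_rootSet.1 hw).2).symm
      have h1 : y w = g (y z) := by
        simp only [y, map_sum, map_mul, map_pow, hg, AlgEquiv.commutes]
      rw [h1, norm_gal]
      exact hlt
    have hcard : Fintype.card R = (minpoly ℚ_[p] z).natDegree :=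
      card_rootSet_eq_natDegree (K := PadicAlgCl p)
        (minpoly.irreducible hint).separable (IsAlgClosed.splits _)
    have h3 := coeff_lt_one (fun w : R => w.1) (fun w => (norm_root hm0 (hR w.1 w.2)).le)
      (fun w w' h => Subtype.ext (root_eq hm (hR w.1 w.2) (hR w'.1 w'.2) h)) q.natDegree
      (fun i => algebraMap ℚ_[p] (PadicAlgCl p) (q.coeff i / c)) hcoef' (by rw [hcard]; exact hq)
      (fun w => hRy w.1 w.2) i0 (le_natDegree_of_mem_supp i0 hi0)
    rw [← hc, div_self hc0, map_one, norm_one] at h3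
    exact lt_irrefl _ h3
  refine ⟨-c.valuation, ?_⟩
  rw [hy, norm_mul, hyz, mul_one, PadicAlgCl.norm_extends, Padic.norm_eq_zpow_neg_valuation hc0]

/-- There is an element of the inertia group which moves a given root of `p`. -/
theorem exists_tame {l : ℕ} (hl : 1 < l) {π : PadicAlgCl p} (hπ : π ^ l = p) :
    ∃ τ : GG p, Inert τ ∧ τ π ≠ π := by
  choose ζ hζ using fun k => exists_prim (p := p) k
  let L : ℕ → IntermediateField ℚ_[p] (PadicAlgCl p) := fun k => ℚ_[p]⟮ζ k⟯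
  have hL : Monotone L := monotone_nat_of_le_succ fun k => by
    rw [adjoin_simple_le_iff]
    have : NeZero (MM p (k + 1)) := ⟨MM_ne_zero _⟩
    obtain ⟨i, _, hi⟩ := (hζ (k + 1)).eq_pow_of_pow_eq_one (pow_MM_succ (hζ k).pow_eq_one)
    rw [← hi]
    exact pow_mem (mem_adjoin_simple_self _ _) i
  have hp1 : (1 : ℝ) < p := by exact_mod_cast hp.out.one_lt
  have hp0 : (0 : ℝ) < p := by linarith
  have hπ0 : π ≠ 0 := by
    rintro rfl
    rw [zero_pow (by omega)] at hπ
    have : ‖(p : PadicAlgCl p)‖ = 0 := by rw [← hπ, norm_zero]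
    rw [norm_natCast_p] at this
    exact (inv_pos.2 hp0).ne' this
  have hnot : π ∉ (⨆ k, L k) := by
    intro hmem
    rw [← SetLike.mem_coe, coe_iSup_of_directed hL.directed_le, Set.mem_iUnion] at hmem
    obtain ⟨k, hk⟩ := hmem
    obtain ⟨n, hn⟩ := norm_mem_zpow (not_dvd_MM k) (hζ k).pow_eq_one hk hπ0
    have h1 : ‖π‖ ^ l = (p : ℝ)⁻¹ := by rw [← norm_pow, hπ, norm_natCast_p]
    rw [hn, ← zpow_natCast, ← zpow_mul, ← zpow_neg_one] at h1
    have h2 := zpow_right_injective₀ hp0 hp1.ne' h1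
    have h3 : (l : ℤ) ∣ 1 := ⟨-n, by linarith⟩
    have h4 := Int.natCast_dvd_natCast.1 (by simpa using h3 : (l : ℤ) ∣ ((1 : ℕ) : ℤ))
    have := Nat.dvd_one.1 h4
    omega
  have hG : IsGalois ℚ_[p] (PadicAlgCl p) := inferInstance
  rw [← InfiniteGalois.fixedField_fixingSubgroup (⨆ k, L k), mem_fixedField_iff] at hnot
  push Not at hnot
  obtain ⟨τ, hτ, hne⟩ := hnot
  refine ⟨τ, inert_of fun k ω hk hω => ?_, hne⟩
  rcases eq_or_ne ω 0 with rfl | h0
  · rw [map_zero]
  · have : NeZero (MM p k) := ⟨MM_ne_zero _⟩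
    obtain ⟨i, _, rfl⟩ := (hζ k).eq_pow_of_pow_eq_one (pow_MM_of hk hω h0)
    have h5 : ζ k ∈ (⨆ k, L k) := le_iSup L k (mem_adjoin_simple_self _ _)
    have h6 : τ (ζ k) = ζ k := (IntermediateField.mem_fixingSubgroup_iff _ _).1 hτ (ζ k) h5
    rw [map_pow, h6]

end Pool.Agent.N491.CD
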