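import Mathlib
import Pool.Agent.N491.CD.Loc3
import Pool.Agent.N491.CD.Kum

/-!
# The Kummer cocycles on the inertia group and on Frobenius elements
-/

set_option autoImplicit false
set_option linter.unusedSectionVars false
set_option maxHeartbeats 1000000

namespace Pool.Agent.N491.CD

variable {p : ℕ} [hp : Fact p.Prime] {l : ℕ} [hl : Fact l.Prime]

/-- an element of the absolute Galois group of `ℚ_p` as a ring homomorphism -/
noncomputable def rh (g : GG p) : PadicAlgCl p →+* PadicAlgCl p :=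
  (g : PadicAlgCl p →ₐ[ℚ_[p]] PadicAlgCl p).toRingHom

theorem rh_apply (g : GG p) (x : PadicAlgCl p) : rh g x = g x := rfl

theorem not_dvd_pow (hpl : p ≠ l) (n : ℕ) : ¬ p ∣ l ^ n := fun h =>
  hpl ((Nat.prime_dvd_prime_iff_eq hp.out hl.out).1 (hp.out.dvd_of_dvd_pow h))

section

variable {z : ℕ → PadicAlgCl p} (hz : IsZ l z) {b : PadicAlgCl p} {r : ℕ → PadicAlgCl p}
  (hr : IsRoots l b r) (hpl : p ≠ l)

include hz in
theorem z_pow (n : ℕ) : z n ^ l ^ n = 1 := (hz.prim n).pow_eq_one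

include hz in
theorem norm_z (n : ℕ) : ‖z n‖ = 1 := norm_root (pow_ne_zero n hl.out.ne_zero) (z_pow hz n)

include hz hpl in
theorem inert_z {g : GG p} (hg : Inert g) (n : ℕ) : g (z n) = z n :=
  root_eq (not_dvd_pow hpl n) (by rw [← map_pow, z_pow hz, map_one]) (z_pow hz n)
    (hg _ (norm_z hz n).le)

include hz hpl in
theorem frob_z {g : GG p} {q : ℕ} (hg : Frob g q) (n : ℕ) : g (z n) = z n ^ q :=
  root_eq (not_dvd_pow hpl n) (by rw [← map_pow, z_pow hz, map_one])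
    (by rw [← pow_mul, mul_comm, pow_mul, z_pow hz, one_pow]) (hg _ (norm_z hz n).le)

include hr in
theorem norm_r (hb : ‖b‖ = 1) (n : ℕ) : ‖r n‖ = 1 := by
  have h := hr.pow n
  have h1 : ‖r n‖ ^ l ^ n = 1 := by rw [← norm_pow, h, hb]
  exact (pow_eq_one_iff_of_nonneg (norm_nonneg _) (pow_ne_zero n hl.out.ne_zero)).1 h1

include hz hr hpl in
theorem kum_inert {g : GG p} (hg : Inert g) (hgb : g b = b) (hb : ‖b‖ = 1) :
    kum l z r (rh g) = 0 := by
  refine kum_unique hz hr (σ := rh g) hgb fun n => ?_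
  rw [ee_zero hz, one_mul, rh_apply]
  have h1 := norm_r hr hb n
  have h2 : g (r n) / r n = 1 := by
    refine root_one (not_dvd_pow hpl n) ?_ (hg.unit h1)
    rw [div_pow, ← map_pow, hr.pow, hgb, div_self hr.ne]
  exact (div_eq_one_iff_eq (hr.ne_zero n)).1 h2

include hz in
theorem ee_one (n : ℕ) : ee (l := l) z n 1 = z n := by
  have := ee_natCast hz n 1
  rwa [Nat.cast_one, pow_one] at this

include hz hr hpl in
theorem kum_pow {g : GG p} (hg : Inert g) (hgb : g b = b) (k : ℕ) :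
    kum l z r (rh (g ^ k)) = k * kum l z r (rh g) := by
  have hk : ∀ k : ℕ, (g ^ k) b = b := by
    intro k
    induction k with
    | zero => rfl
    | succ k ih => rw [pow_succ, AlgEquiv.mul_apply, hgb, ih]
  induction k with
  | zero =>
    rw [Nat.cast_zero, zero_mul]
    refine kum_unique hz hr (σ := rh (g ^ 0)) rfl fun n => ?_
    rw [ee_zero hz, one_mul]
    rfl
  | succ k ih =>
    have h1 : rh (g ^ (k + 1)) = (rh (g ^ k)).comp (rh g) := by
      ext x
      rw [pow_succ]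
      rfl
    rw [h1, kum_comp hz hr (hk k) hgb (c := 1) (fun n => by
      rw [ee_one hz]
      exact inert_z hz hpl (hg.pow k) n), ih]
    push_cast
    ring

include hz hr in
theorem kum_tame {g : GG p} (hgb : g b = b) (h : g (r 1) ≠ r 1) : ‖kum l z r (rh g)‖ = 1 := by
  refine le_antisymm (PadicInt.norm_le_one _) ?_
  by_contra hlt
  rw [not_le] at hlt
  apply h
  have h1 := kum_spec hz hr (rh g) hgb 1
  have h2 : (kum l z r (rh g)).toZModPow 1 = 0 := by
    rw [← RingHom.mem_ker, PadicInt.ker_toZModPow, pow_one, Ideal.mem_span_singleton]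
    exact (PadicInt.norm_lt_one_iff_dvd _).1 hlt
  rw [(ee_eq_one_iff hz).2 h2, one_mul] at h1
  exact h1

include hz hr hpl in
/-- The Kummer cocycle of `D` at a Frobenius element: it is `q - 1` divided by the order of `D` in the
residue field, up to a unit and up to factors prime to `l`. -/
theorem kum_frob {D : ℕ} (hb : b = (D : PadicAlgCl p)) (hD : ¬ p ∣ D) {g : GG p} {q m : ℕ}
    (hm : 0 < m) (hq : 1 < q)
    (hg : Frob g q) (hord : orderOf (D : ZMod p) = l ^ m) (hdvd : l ^ m ∣ q - 1) :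
    (l : ℝ) ^ m * ‖(q : ℤ_[l]) - 1‖ ≤ ‖kum l z r (rh g)‖ := by
  have hl0 : (0 : ℝ) < l := by exact_mod_cast hl.out.pos
  have hgb : g b = b := by rw [hb, map_natCast]
  have hbn : ‖b‖ = 1 := by
    rw [hb]
    exact norm_natCast_of_not_dvd hD
  obtain ⟨v, u, hu, huv⟩ := Nat.exists_eq_pow_mul_and_not_dvd (n := q - 1) (by omega) l
    hl.out.ne_one
  have hmv : m ≤ v := by
    rw [huv] at hdvd
    have hcop : Nat.Coprime (l ^ m) u :=
      Nat.Coprime.pow_left m ((Nat.Prime.coprime_iff_not_dvd hl.out).2 hu)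
    exact (Nat.pow_dvd_pow_iff_le_right hl.out.one_lt).1 (hcop.dvd_of_dvd_mul_right hdvd)
  have hqn : ‖(q : ℤ_[l]) - 1‖ = (l : ℝ) ^ (-v : ℤ) := by
    have h1 : (q : ℤ_[l]) - 1 = (l : ℤ_[l]) ^ v * (u : ℤ_[l]) := by
      have h2 : (q : ℤ_[l]) = ((q - 1 : ℕ) : ℤ_[l]) + 1 := by
        rw [← Nat.cast_one (R := ℤ_[l]), ← Nat.cast_add, Nat.sub_add_cancel hq.le]
      rw [h2, huv]
      push_cast
      ring
    rw [h1, norm_mul, PadicInt.norm_p_pow, PadicInt.norm_natCast_eq_one_iff.2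
      ((Nat.Prime.coprime_iff_not_dvd hl.out).2 hu), mul_one]
  have hgoal : (l : ℝ) ^ (-(v - m : ℕ) : ℤ) ≤ ‖kum l z r (rh g)‖ := by
    by_contra hlt
    rw [not_le, PadicInt.norm_lt_pow_iff_norm_le_pow_sub_one] at hlt
    have h1 : (-((v - m : ℕ) : ℤ) - 1) = (-((v - m + 1 : ℕ) : ℤ)) := by push_cast; ring
    rw [h1, PadicInt.norm_le_pow_iff_mem_span_pow, Ideal.mem_span_singleton] at hlt
    obtain ⟨κ', hκ⟩ := hlt
    have h2 : ee z v (kum l z r (rh g)) ^ l ^ (m - 1) = 1 := by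
      rw [← ee_mul hz, ee_eq_one_iff hz, hκ, ← RingHom.mem_ker, PadicInt.ker_toZModPow,
        Ideal.mem_span_singleton]
      refine ⟨κ', ?_⟩
      have h3 : v = (v - m + 1) + (m - 1) := by omega
      conv_rhs => rw [h3, pow_add]
      push_cast
      ring
    have h4 := kum_spec hz hr (rh g) hgb v
    have hrv := norm_r hr hbn v
    have h5 : ‖ee z v (kum l z r (rh g)) - r v ^ (q - 1)‖ < 1 := by
      have h6 := hg (r v) hrv.le
      rw [← rh_apply, h4] at h6
      have e : ee z v (kum l z r (rh g)) * r v - r v ^ q =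
          (ee z v (kum l z r (rh g)) - r v ^ (q - 1)) * r v := by
        rw [sub_mul, ← pow_succ, Nat.sub_add_cancel hq.le]
      rw [e, norm_mul, hrv, mul_one] at h6
      exact h6
    have h7 : ‖ee z v (kum l z r (rh g))‖ = 1 := by
      rw [ee, norm_pow, norm_z hz, one_pow]
    have h8 : ‖r v ^ (q - 1)‖ = 1 := by rw [norm_pow, hrv, one_pow]
    have h9 := norm_pow_sub h7.le h8.le h5 (l ^ (m - 1))
    rw [h2, huv, ← pow_mul, mul_assoc, pow_mul, hr.pow, hb, norm_sub_rev] at h9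
    have h10 : ((D : ℕ) : ZMod p) ^ (u * l ^ (m - 1)) = 1 := by
      have e : ((D : PadicAlgCl p)) ^ (u * l ^ (m - 1)) - 1 = algebraMap ℚ_[p] (PadicAlgCl p)
          ((D : ℚ_[p]) ^ (u * l ^ (m - 1)) - 1) := by
        rw [map_sub, map_pow, map_natCast, map_one]
      rw [e, PadicAlgCl.norm_extends] at h9
      have h12 : ‖((((D ^ (u * l ^ (m - 1)) : ℕ) : ℤ) - 1 : ℤ) : ℚ_[p])‖ < 1 := by
        push_cast
        exact h9
      rw [Padic.norm_intCast_lt_one_iff] at h12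
      have h13 := (ZMod.intCast_zmod_eq_zero_iff_dvd _ p).2 h12
      push_cast at h13
      exact sub_eq_zero.1 h13
    have h14 := orderOf_dvd_of_pow_eq_one h10
    rw [hord] at h14
    have h15 : l ^ m = l * l ^ (m - 1) := by
      rw [← pow_succ', Nat.sub_add_cancel hm]
    rw [h15] at h14
    exact hu (Nat.dvd_of_mul_dvd_mul_right (pow_pos hl.out.pos _) h14)
  refine le_trans (le_of_eq ?_) hgoal
  rw [hqn, ← zpow_natCast, ← zpow_add₀ hl0.ne']
  congr 1
  push_cast [Nat.cast_sub hmv]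
  ring

include hz hr hpl in
/-- The Kummer cocycle of `D` at a Frobenius element, when `D` is congruent to `1`. -/
theorem kum_frob_one {D : ℕ} (hb : b = (D : PadicAlgCl p)) (hD : D ≡ 1 [MOD p]) {g : GG p} {q : ℕ}
    (hq : 1 < q) (hg : Frob g q) : ‖kum l z r (rh g)‖ ≤ ‖(q : ℤ_[l]) - 1‖ := by
  have hgb : g b = b := by rw [hb, map_natCast]
  have hD' : ¬ p ∣ D := fun h => by
    have h1 := (Nat.modEq_zero_iff_dvd.2 h).symm.trans hD
    exact hp.out.one_lt.ne' (Nat.dvd_one.1 (Nat.modEq_zero_iff_dvd.1 h1.symm))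
  have hbn : ‖b‖ = 1 := by
    rw [hb]
    exact norm_natCast_of_not_dvd hD'
  have hb1 : ‖b - 1‖ < 1 := by
    have h1 : ‖(((D : ℤ) - 1 : ℤ) : ℚ_[p])‖ < 1 := by
      rw [Padic.norm_intCast_lt_one_iff, ← ZMod.intCast_zmod_eq_zero_iff_dvd]
      push_cast
      rw [sub_eq_zero]
      have := (ZMod.natCast_eq_natCast_iff D 1 p).2 hD
      rwa [Nat.cast_one] at this
    have e : b - 1 = algebraMap ℚ_[p] (PadicAlgCl p) ((D : ℚ_[p]) - 1) := by
      rw [map_sub, map_natCast, map_one, hb]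
    rw [e, PadicAlgCl.norm_extends]
    push_cast at h1
    exact h1
  obtain ⟨v, u, hu, huv⟩ := Nat.exists_eq_pow_mul_and_not_dvd (n := q - 1) (by omega) l
    hl.out.ne_one
  have hqn : ‖(q : ℤ_[l]) - 1‖ = (l : ℝ) ^ (-v : ℤ) := by
    have h1 : (q : ℤ_[l]) - 1 = (l : ℤ_[l]) ^ v * (u : ℤ_[l]) := by
      have h2 : (q : ℤ_[l]) = ((q - 1 : ℕ) : ℤ_[l]) + 1 := by
        rw [← Nat.cast_one (R := ℤ_[l]), ← Nat.cast_add, Nat.sub_add_cancel hq.le]
      rw [h2, huv]
      push_cast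
      ring
    rw [h1, norm_mul, PadicInt.norm_p_pow, PadicInt.norm_natCast_eq_one_iff.2
      ((Nat.Prime.coprime_iff_not_dvd hl.out).2 hu), mul_one]
  rw [hqn, PadicInt.norm_le_pow_iff_mem_span_pow, ← PadicInt.ker_toZModPow, RingHom.mem_ker,
    ← ee_eq_one_iff hz]
  have h4 := kum_spec hz hr (rh g) hgb v
  have hrv := norm_r hr hbn v
  have h5 : ‖ee z v (kum l z r (rh g)) - r v ^ (q - 1)‖ < 1 := by
    have h6 := hg (r v) hrv.le
    rw [← rh_apply, h4] at h6
    have e : ee z v (kum l z r (rh g)) * r v - r v ^ q =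
        (ee z v (kum l z r (rh g)) - r v ^ (q - 1)) * r v := by
      rw [sub_mul, ← pow_succ, Nat.sub_add_cancel hq.le]
    rw [e, norm_mul, hrv, mul_one] at h6
    exact h6
  have h8 : ‖r v ^ (q - 1) - 1‖ < 1 := by
    rw [huv, pow_mul, hr.pow]
    have := norm_pow_sub (a := b) (b := 1) hbn.le (by rw [norm_one]) hb1 u
    rwa [one_pow] at this
  refine root_one (not_dvd_pow hpl v) ?_ (norm_sub_lt h5 h8)
  rw [ee, ← pow_mul, mul_comm, pow_mul, z_pow hz, one_pow]

end

/-- an element of the tame inertia group which does not fix a root of order `l` of `p R` -/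
theorem exists_tame' (hpl : p ≠ l) {R : ℕ} (hR : ¬ p ∣ R) {π : PadicAlgCl p}
    (hπ : π ^ l = ((p * R : ℕ) : PadicAlgCl p)) : ∃ τ : GG p, Inert τ ∧ τ π ≠ π := by
  obtain ⟨ϖ, hϖ⟩ := IsAlgClosed.exists_pow_nat_eq (p : PadicAlgCl p) hl.out.pos
  obtain ⟨τ, hτ, h1⟩ := exists_tame (p := p) hl.out.one_lt hϖ
  refine ⟨τ, hτ, fun h2 => h1 ?_⟩
  have hp0 : (p : PadicAlgCl p) ≠ 0 := Nat.cast_ne_zero.2 hp.out.ne_zero
  have hϖ0 : ϖ ≠ 0 := fun h => hp0 (by rw [← hϖ, h, zero_pow hl.out.ne_zero])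
  set x : PadicAlgCl p := π / ϖ with hx
  have hxl : x ^ l = (R : PadicAlgCl p) := by
    rw [hx, div_pow, hπ, hϖ]
    push_cast
    field_simp
  have hxn : ‖x‖ = 1 := by
    have h3 : ‖x‖ ^ l = 1 := by rw [← norm_pow, hxl, norm_natCast_of_not_dvd hR]
    exact (pow_eq_one_iff_of_nonneg (norm_nonneg _) hl.out.ne_zero).1 h3
  have hx0 : x ≠ 0 := norm_pos_iff.1 (by rw [hxn]; exact one_pos)
  have hfix : τ x = x := by
    have h4 : τ x / x = 1 := by
      have hpl' : ¬ p ∣ l := fun h => hpl ((Nat.prime_dvd_prime_iff_eq hp.out hl.out).1 h)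
      refine root_one hpl' ?_ (hτ.unit hxn)
      rw [div_pow, ← map_pow, hxl, map_natCast, div_self]
      rw [← hxl]
      exact pow_ne_zero _ hx0
    exact (div_eq_one_iff_eq hx0).1 h4
  have h5 : ϖ = π / x := by
    rw [hx]
    have hπ0 : π ≠ 0 := fun h => hx0 (by rw [hx, h, zero_div])
    field_simp
  rw [h5, map_div₀, h2, hfix]

end Pool.Agent.N491.CD
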