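import Mathlib

/-!
# A sequence of primes
-/

set_option autoImplicit false
set_option maxHeartbeats 1000000

namespace Pool.Agent.N491.CD

variable (l : ℕ) [hl : Fact l.Prime]

/-- Zsigmondy: a prime `P` such that `D` has the order `l ^ (m + 1)` modulo `P` -/
theorem exists_prime {D : ℕ} (hD : 2 ≤ D) (hDl : D ≡ 1 [MOD l ^ 2]) (m : ℕ) :
    ∃ P : ℕ, P.Prime ∧ P ≠ l ∧ orderOf (D : ZMod P) = l ^ (m + 1) := by
  set B : ℕ := D ^ l ^ m with hB
  set N : ℕ := ∑ i ∈ Finset.range l, B ^ i with hN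
  have hB1 : 1 < B := Nat.one_lt_pow (pow_ne_zero _ hl.out.ne_zero) (by omega)
  have hBl : B ≡ 1 [MOD l ^ 2] := by
    have := hDl.pow (l ^ m)
    rwa [one_pow] at this
  have hNl : N ≡ l [MOD l ^ 2] := by
    have h1 : N ≡ ∑ i ∈ Finset.range l, 1 [MOD l ^ 2] := by
      rw [hN]
      rw [← ZMod.natCast_eq_natCast_iff] at hBl ⊢
      push_cast at hBl ⊢
      refine Finset.sum_congr rfl fun i _ => ?_
      rw [hBl, one_pow]
    rwa [Finset.sum_const, Finset.card_range, smul_eq_mul, mul_one] at h1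
  have hNgt : l < N := by
    have h1 : ∑ i ∈ Finset.range l, 1 < N := by
      rw [hN]
      refine Finset.sum_lt_sum (fun i _ => Nat.one_le_pow _ _ (by omega)) ⟨1, ?_, ?_⟩
      · exact Finset.mem_range.2 hl.out.one_lt
      · rw [pow_one]
        exact hB1
    rwa [Finset.sum_const, Finset.card_range, smul_eq_mul, mul_one] at h1
  obtain ⟨N', hN'⟩ : l ∣ N := by
    have h1 : N ≡ l [MOD l] := hNl.of_dvd (dvd_pow_self l two_ne_zero)
    exact (Nat.modEq_zero_iff_dvd.1 (h1.trans (Nat.modEq_zero_iff_dvd.2 dvd_rfl)))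
  have hN'1 : N' ≠ 1 := by
    rintro rfl
    rw [mul_one] at hN'
    omega
  have hlN' : ¬ l ∣ N' := by
    rintro ⟨N'', rfl⟩
    have h1 : l ^ 2 ∣ N := ⟨N'', by rw [hN']; ring⟩
    have h2 : l ^ 2 ∣ l := (Nat.modEq_zero_iff_dvd.1 (hNl.symm.trans (Nat.modEq_zero_iff_dvd.2 h1)))
    have h3 := Nat.le_of_dvd hl.out.pos h2
    have h4 := hl.out.one_lt
    nlinarith
  have hP : N'.minFac.Prime := Nat.minFac_prime hN'1
  have hPl : N'.minFac ≠ l := fun h => hlN' (h ▸ Nat.minFac_dvd N')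
  have hPN : N'.minFac ∣ N := (Nat.minFac_dvd N').trans ⟨l, by rw [hN', mul_comm]⟩
  refine ⟨N'.minFac, hP, hPl, ?_⟩
  have : Fact N'.minFac.Prime := ⟨hP⟩
  have hN0 : ∑ i ∈ Finset.range l, (B : ZMod N'.minFac) ^ i = 0 := by
    have h1 := (ZMod.natCast_eq_zero_iff N N'.minFac).2 hPN
    rw [hN] at h1
    push_cast at h1
    exact h1
  have hBl : (B : ZMod N'.minFac) = (D : ZMod N'.minFac) ^ l ^ m := by rw [hB]; push_cast; rfl
  refine orderOf_eq_prime_pow ?_ ?_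
  · intro h
    rw [← hBl] at h
    rw [h] at hN0
    simp only [one_pow, Finset.sum_const, Finset.card_range, nsmul_eq_mul, mul_one] at hN0
    have h2 := (ZMod.natCast_eq_zero_iff l N'.minFac).1 hN0
    exact hPl ((Nat.prime_dvd_prime_iff_eq hP hl.out).1 h2)
  · have h1 := geom_sum_mul (B : ZMod N'.minFac) l
    rw [hN0, zero_mul, eq_comm, sub_eq_zero] at h1
    rw [pow_succ, pow_mul, ← hBl]
    exact h1

variable {l}

theorem order_dvd {P D k : ℕ} (hP : P.Prime) (h : orderOf (D : ZMod P) = l ^ k) : l ^ k ∣ P - 1 := by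
  have : Fact P.Prime := ⟨hP⟩
  rw [← h]
  refine ZMod.orderOf_dvd_card_sub_one ?_
  intro h0
  rw [h0, orderOf_zero] at h
  exact (pow_ne_zero k hl.out.ne_zero) h.symm

theorem norm_le_iff {x : ℤ_[l]} {n : ℕ} : ‖x‖ ≤ (l : ℝ) ^ (-n : ℤ) ↔ x.toZModPow n = 0 := by
  rw [PadicInt.norm_le_pow_iff_mem_span_pow, ← PadicInt.ker_toZModPow, RingHom.mem_ker]

/-- Dirichlet: a prime in a residue class -/
theorem exists_prime_mod {u : ℤ_[l]} (hu : ‖u‖ = 1) {N : ℕ} (hN : Nat.Coprime N l) (hN0 : N ≠ 0)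
    (n : ℕ) : ∃ q > n, q.Prime ∧ q ≡ 1 [MOD N] ∧ ‖u * q - 1‖ ≤ (l : ℝ) ^ (-(3 : ℕ) : ℤ) := by
  have hunit : IsUnit (u.toZModPow 3) := (PadicInt.isUnit_iff.2 hu).map _
  obtain ⟨c, hc⟩ := hunit.exists_right_inv
  have hl3 : NeZero (l ^ 3) := ⟨pow_ne_zero _ hl.out.ne_zero⟩
  have hcop : Nat.Coprime (l ^ 3) N := (Nat.Coprime.pow_left 3 hN.symm)
  have hcc : Nat.Coprime c.val (l ^ 3) := by
    rw [← ZMod.isUnit_iff_coprime, ZMod.natCast_zmod_val]
    exact IsUnit.of_mul_eq_one_right _ hc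
  let a := Nat.chineseRemainder hcop c.val 1
  have ha1 : (a : ℕ) ≡ c.val [MOD l ^ 3] := a.2.1
  have ha2 : (a : ℕ) ≡ 1 [MOD N] := a.2.2
  have hac : Nat.Coprime (a : ℕ) (l ^ 3 * N) := by
    refine Nat.Coprime.mul_right ?_ ?_
    · rw [Nat.coprime_iff_gcd_eq_one, ha1.gcd_eq]
      exact hcc
    · rw [Nat.coprime_iff_gcd_eq_one, ha2.gcd_eq, Nat.gcd_one_left]
  obtain ⟨q, hqn, hq, hqa⟩ := Nat.forall_exists_prime_gt_and_modEq n
    (mul_ne_zero hl3.out hN0) hac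
  refine ⟨q, hqn, hq, (hqa.of_mul_left _).trans ha2, ?_⟩
  rw [norm_le_iff, map_sub, map_mul, map_one, map_natCast]
  have h1 : q ≡ c.val [MOD l ^ 3] := (hqa.of_mul_right _).trans ha1
  rw [← ZMod.natCast_eq_natCast_iff, ZMod.natCast_zmod_val] at h1
  rw [h1, hc, sub_self]

/-- Hensel: roots of order `l` -/
theorem exists_root {x : ℤ_[l]} (hx : ‖x - 1‖ ≤ (l : ℝ) ^ (-(3 : ℕ) : ℤ)) :
    ∃ w : ℤ_[l], w ^ l = x ∧ ‖w - 1‖ ≤ (l : ℝ) ^ (-(2 : ℕ) : ℤ) := by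
  have hl1 : (1 : ℝ) < l := by exact_mod_cast hl.out.one_lt
  have hl0 : (0 : ℝ) < l := by positivity
  let G : Polynomial ℤ_[l] := Polynomial.X ^ l - Polynomial.C x
  have h1 : G.aeval (1 : ℤ_[l]) = 1 - x := by simp [G]
  have h2 : (Polynomial.derivative G).aeval (1 : ℤ_[l]) = (l : ℤ_[l]) := by
    simp [G, Polynomial.derivative_X_pow]
  obtain ⟨w, hw, hw1, -, -⟩ := hensels_lemma (p := l) (F := G) (a := 1) (by
    rw [h1, h2, norm_sub_rev, PadicInt.norm_p]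
    refine hx.trans_lt ?_
    rw [zpow_neg, zpow_natCast, inv_pow]
    refine inv_strictAnti₀ (by positivity) ?_
    exact pow_lt_pow_right₀ hl1 (by norm_num))
  refine ⟨w, ?_, ?_⟩
  · have h3 : G.aeval w = w ^ l - x := by simp [G]
    rw [h3] at hw
    exact sub_eq_zero.1 hw
  · rw [h2, PadicInt.norm_p] at hw1
    have h3 : ‖w - 1‖ < (l : ℝ) ^ (-(1 : ℕ) : ℤ) := by
      rw [zpow_neg, zpow_natCast, pow_one]
      exact hw1
    rw [PadicInt.norm_lt_pow_iff_norm_le_pow_sub_one] at h3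
    exact h3

theorem norm_eq_one {w : ℤ_[l]} {n : ℕ} (hn : 0 < n) (h : ‖w - 1‖ ≤ (l : ℝ) ^ (-n : ℤ)) :
    ‖w‖ = 1 := by
  have hl1 : (1 : ℝ) < l := by exact_mod_cast hl.out.one_lt
  have h1 : ‖w - 1‖ < 1 := by
    refine h.trans_lt ?_
    rw [zpow_neg, zpow_natCast]
    exact inv_lt_one_of_one_lt₀ (one_lt_pow₀ hl1 hn.ne')
  have h2 : ‖w - 1 + 1‖ = max ‖w - 1‖ ‖(1 : ℤ_[l])‖ := by
    refine PadicInt.norm_add_eq_max_of_ne ?_
    rw [norm_one]
    exact h1.ne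
  rwa [sub_add_cancel, norm_one, max_eq_right h1.le] at h2

end Pool.Agent.N491.CD
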