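import Mathlib
import Pool.Agent.N491.CD.Prm

/-!
# The construction of the sequences of primes
-/

set_option autoImplicit false
set_option maxHeartbeats 1000000

namespace Pool.Agent.N491.CD

/-- a step of the construction -/
structure St (l : ℕ) [Fact l.Prime] where
  P : ℕ
  Q : ℕ
  R : ℕ
  m : ℕ
  D : ℕ
  A : ℕ
  N : ℕ
  w : ℤ_[l]
  v : ℤ_[l]

variable {l : ℕ} [hl : Fact l.Prime]

/-- the conditions on the step number `i` -/
structure Good (i : ℕ) (s : St l) : Prop where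
  hD : ((s.D : ℕ) : ℤ_[l]) = s.w ^ l ^ i
  hw : ‖s.w - 1‖ ≤ (l : ℝ) ^ (-(2 : ℕ) : ℤ)
  hA : ((s.A : ℕ) : ℤ_[l]) = s.v ^ l ^ i
  hv : ‖s.v‖ = 1
  hD0 : 0 < s.D
  hD1 : s.D ≡ 1 [MOD l ^ 2]
  hN : Nat.Coprime s.N l
  hN0 : s.N ≠ 0
  hA0 : 0 < s.A

/-- the relation between the steps `i` and `i + 1` -/
structure Next (i : ℕ) (s s' : St l) : Prop where
  hP : s'.P.Prime
  hPl : s'.P ≠ l
  hQ : s'.Q.Prime
  hR : s'.R.Prime
  hD : s'.D = s.D * s'.Q ^ l ^ i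
  hA : s'.A = s.A * (s'.P * s'.R) ^ l ^ i
  hN : s'.N = s.N * s'.P
  hAP : s.A < s'.P
  hPR : s'.P < s'.R
  hQN : s'.Q ≡ 1 [MOD s.N]
  hm : 2 * i + 1 ≤ s'.m
  ho : orderOf (s'.D : ZMod s'.P) = l ^ s'.m

theorem exists_good_zero : ∃ s : St l, Good 0 s ∧ s.D = 1 ∧ s.A = 1 := by
  refine ⟨⟨0, 0, 0, 0, 1, 1, 1, 1, 1⟩, ⟨?_, ?_, ?_, ?_, ?_, ?_, ?_, ?_, ?_⟩, rfl, rfl⟩
  · simp
  · simp only [sub_self, norm_zero]
    positivity
  · simp
  · exact norm_one
  · exact one_pos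
  · rfl
  · exact Nat.coprime_one_left l
  · exact one_ne_zero
  · exact one_pos

theorem norm_natCast_prime {P : ℕ} (hP : P.Prime) (hPl : P ≠ l) : ‖(P : ℤ_[l])‖ = 1 := by
  rw [PadicInt.norm_natCast_eq_one_iff]
  exact (Nat.coprime_primes hl.out hP).2 hPl.symm

theorem exists_next {i : ℕ} {s : St l} (hs : Good i s) : ∃ s' : St l, Good (i + 1) s' ∧ Next i s s' := by
  have hw1 : ‖s.w‖ = 1 := norm_eq_one (n := 2) (by norm_num) hs.hw
  obtain ⟨Q, hQ0, hQ, hQN, hQw⟩ := exists_prime_mod hw1 hs.hN hs.hN0 0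
  obtain ⟨w', hw', hw'1⟩ := exists_root hQw
  have hl1 : (1 : ℝ) < l := by exact_mod_cast hl.out.one_lt
  have hQ1 : Q ≡ 1 [MOD l ^ 2] := by
    have h1 : ‖((Q : ℕ) : ℤ_[l]) - 1‖ ≤ (l : ℝ) ^ (-(2 : ℕ) : ℤ) := by
      have e : s.w * ((Q : ℤ_[l]) - 1) = (s.w * Q - 1) - (s.w - 1) := by ring
      have h2 : ‖s.w * ((Q : ℤ_[l]) - 1)‖ = ‖(Q : ℤ_[l]) - 1‖ := by rw [norm_mul, hw1, one_mul]
      rw [← h2, e, sub_eq_add_neg]
      refine (PadicInt.nonarchimedean _ _).trans (max_le (hQw.trans ?_) ?_)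
      · exact zpow_le_zpow_right₀ hl1.le (by norm_num)
      · rw [norm_neg]
        exact hs.hw
    rw [norm_le_iff, map_sub, map_one, map_natCast, sub_eq_zero] at h1
    rw [← ZMod.natCast_eq_natCast_iff, Nat.cast_one]
    exact h1
  have hQ2 : 2 ≤ Q := hQ.two_le
  have hD'1 : s.D * Q ^ l ^ i ≡ 1 [MOD l ^ 2] := by
    have := hs.hD1.mul (hQ1.pow (l ^ i))
    rwa [one_pow, one_mul] at this
  have hD'2 : 2 ≤ s.D * Q ^ l ^ i := by
    have h1 : 1 < Q ^ l ^ i := Nat.one_lt_pow (pow_ne_zero _ hl.out.ne_zero) hQ.one_lt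
    have h2 := hs.hD0
    nlinarith
  obtain ⟨P, hP, hPl, hPo⟩ := exists_prime l hD'2 hD'1 (s.A + 2 * i)
  have hdvd := order_dvd hP hPo
  have hAP : s.A < P := by
    have h1 : l ^ (s.A + 2 * i + 1) ≤ P - 1 := Nat.le_of_dvd (by have := hP.two_le; omega) hdvd
    have h2 : s.A + 2 * i + 1 < l ^ (s.A + 2 * i + 1) := Nat.lt_pow_self hl.out.one_lt
    omega
  have hPn : ‖(P : ℤ_[l])‖ = 1 := norm_natCast_prime hP hPl
  have hvP : ‖s.v * (P : ℤ_[l])‖ = 1 := by rw [norm_mul, hs.hv, hPn, one_mul]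
  obtain ⟨R, hRP, hR, -, hRv⟩ := exists_prime_mod hvP (Nat.coprime_one_left l) one_ne_zero P
  obtain ⟨v', hv', hv'1⟩ := exists_root hRv
  refine ⟨⟨P, Q, R, s.A + 2 * i + 1, s.D * Q ^ l ^ i, s.A * (P * R) ^ l ^ i, s.N * P, w', v'⟩,
    ⟨?_, hw'1, ?_, norm_eq_one (n := 2) (by norm_num) hv'1, by positivity, hD'1, ?_, ?_, ?_⟩,
    ⟨hP, hPl, hQ, hR, rfl, rfl, rfl, hAP, hRP, hQN, by change 2 * i + 1 ≤ s.A + 2 * i + 1; omega,
      hPo⟩⟩
  · change ((s.D * Q ^ l ^ i : ℕ) : ℤ_[l]) = w' ^ l ^ (i + 1)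
    rw [pow_succ', pow_mul, hw', mul_pow, ← hs.hD]
    push_cast
    ring
  · change ((s.A * (P * R) ^ l ^ i : ℕ) : ℤ_[l]) = v' ^ l ^ (i + 1)
    rw [pow_succ', pow_mul, hv', mul_assoc, mul_pow (s.v), ← hs.hA]
    push_cast
    ring
  · exact hs.hN.mul_left ((Nat.coprime_primes hP hl.out).2 hPl)
  · exact mul_ne_zero hs.hN0 hP.ne_zero
  · have := hs.hA0
    have := hP.pos
    have := hR.pos
    positivity

variable (l) in
/-- the sequence of steps -/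
noncomputable def seq : (i : ℕ) → {s : St l // Good i s}
  | 0 => ⟨(exists_good_zero (l := l)).choose, (exists_good_zero (l := l)).choose_spec.1⟩
  | i + 1 => ⟨(exists_next (seq i).2).choose, (exists_next (seq i).2).choose_spec.1⟩

theorem seq_next (i : ℕ) : Next i (seq l i).1 (seq l (i + 1)).1 :=
  (exists_next (seq l i).2).choose_spec.2

variable (l) in
noncomputable def PP (i : ℕ) : ℕ := (seq l (i + 1)).1.P
variable (l) in
noncomputable def QQ' (i : ℕ) : ℕ := (seq l (i + 1)).1.Q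
variable (l) in
noncomputable def RR (i : ℕ) : ℕ := (seq l (i + 1)).1.R
variable (l) in
noncomputable def mmm (i : ℕ) : ℕ := (seq l (i + 1)).1.m

theorem seq_D (i : ℕ) : (seq l i).1.D = ∏ j ∈ Finset.range i, QQ' l j ^ l ^ j := by
  induction i with
  | zero => exact (exists_good_zero (l := l)).choose_spec.2.1
  | succ i ih =>
    rw [Finset.prod_range_succ, ← ih]
    exact (seq_next i).hD

theorem seq_A (i : ℕ) : (seq l i).1.A = ∏ j ∈ Finset.range i, (PP l j * RR l j) ^ l ^ j := by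
  induction i with
  | zero => exact (exists_good_zero (l := l)).choose_spec.2.2
  | succ i ih =>
    rw [Finset.prod_range_succ, ← ih]
    exact (seq_next i).hA

theorem PP_prime (i : ℕ) : (PP l i).Prime := (seq_next i).hP

theorem PP_ne (i : ℕ) : PP l i ≠ l := (seq_next i).hPl

theorem QQ_prime (i : ℕ) : (QQ' l i).Prime := (seq_next i).hQ

theorem RR_prime (i : ℕ) : (RR l i).Prime := (seq_next i).hR

theorem PP_dvd_N {i j : ℕ} (h : i < j) : PP l i ∣ (seq l j).1.N := by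
  induction j with
  | zero => omega
  | succ j ih =>
    rw [(seq_next j).hN]
    rcases Nat.lt_succ_iff_lt_or_eq.1 h with h1 | rfl
    · exact (ih h1).mul_right _
    · exact dvd_mul_left _ _

theorem QQ_modEq {i j : ℕ} (h : i < j) : QQ' l j ≡ 1 [MOD PP l i] :=
  (seq_next j).hQN.of_dvd (PP_dvd_N h)

theorem PP_order (i : ℕ) :
    orderOf ((∏ j ∈ Finset.range (i + 1), QQ' l j ^ l ^ j : ℕ) : ZMod (PP l i)) = l ^ mmm l i := by
  rw [← seq_D]
  exact (seq_next i).ho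

theorem mmm_ge (i : ℕ) : 2 * i + 1 ≤ mmm l i := (seq_next i).hm

theorem not_dvd_D (i : ℕ) : ¬ PP l i ∣ ∏ j ∈ Finset.range (i + 1), QQ' l j ^ l ^ j := by
  intro h
  have : Fact (PP l i).Prime := ⟨PP_prime i⟩
  have h1 := PP_order (l := l) i
  rw [(ZMod.natCast_eq_zero_iff _ _).2 h, orderOf_zero] at h1
  exact pow_ne_zero _ hl.out.ne_zero h1.symm

theorem not_dvd_QQ (i j : ℕ) : ¬ PP l i ∣ QQ' l j := by
  rcases lt_or_ge i j with h | h
  · intro h1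
    have h2 := (Nat.modEq_zero_iff_dvd.2 h1).symm.trans (QQ_modEq h)
    exact (PP_prime i).one_lt.ne' (Nat.dvd_one.1 (Nat.modEq_zero_iff_dvd.1 h2.symm))
  · intro h1
    refine not_dvd_D i (h1.trans ?_)
    refine (dvd_pow_self _ (pow_ne_zero j hl.out.ne_zero)).trans
      (Finset.dvd_prod_of_mem _ (Finset.mem_range.2 (by omega)))

theorem mul_le_A {i j : ℕ} (h : i < j) : PP l i * RR l i ≤ (seq l j).1.A := by
  refine Nat.le_of_dvd (seq l j).2.hA0 ?_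
  rw [seq_A]
  exact (dvd_pow_self _ (pow_ne_zero i hl.out.ne_zero)).trans
    (Finset.dvd_prod_of_mem (fun j => (PP l j * RR l j) ^ l ^ j) (Finset.mem_range.2 h))

theorem not_dvd_PR {i j : ℕ} (h : i ≠ j) : ¬ PP l i ∣ PP l j * RR l j := by
  rcases lt_or_gt_of_ne h with h | h
  · have h1 : PP l i * RR l i < PP l j := (mul_le_A h).trans_lt (seq_next j).hAP
    have h2 : PP l i < PP l j := by
      have := (RR_prime (l := l) i).pos
      nlinarith
    have h3 : PP l j < RR l j := (seq_next j).hPR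
    rw [(PP_prime i).dvd_mul, Nat.prime_dvd_prime_iff_eq (PP_prime i) (PP_prime j),
      Nat.prime_dvd_prime_iff_eq (PP_prime i) (RR_prime j)]
    omega
  · intro h1
    have h2 : PP l j * RR l j < PP l i := (mul_le_A h).trans_lt (seq_next i).hAP
    have h3 := Nat.le_of_dvd (Nat.mul_pos (PP_prime j).pos (RR_prime j).pos) h1
    omega

theorem not_dvd_RR (i : ℕ) : ¬ PP l i ∣ RR l i := by
  rw [Nat.prime_dvd_prime_iff_eq (PP_prime i) (RR_prime i)]
  exact (seq_next i).hPR.ne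

theorem exists_pow_Q (i : ℕ) : ∃ w : ℤ_[l],
    ((∏ j ∈ Finset.range i, QQ' l j ^ l ^ j : ℕ) : ℤ_[l]) = w ^ l ^ i :=
  ⟨_, by rw [← seq_D]; exact (seq l i).2.hD⟩

theorem exists_pow_PR (i : ℕ) : ∃ w : ℤ_[l],
    ((∏ j ∈ Finset.range i, (PP l j * RR l j) ^ l ^ j : ℕ) : ℤ_[l]) = w ^ l ^ i :=
  ⟨_, by rw [← seq_A]; exact (seq l i).2.hA⟩

end Pool.Agent.N491.CD
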