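import Mathlib
import Pool.Agent.N829.HT.Glob1
import Pool.Agent.N491.CD.Ev
import Pool.Agent.N491.CD.Defs
import Pool.Agent.N491.CD.Prm2

/-!
# Kummer cocycles on the absolute Galois group of a number field
-/

set_option autoImplicit false
set_option linter.unusedSectionVars false
set_option maxHeartbeats 1000000

open NumberField

namespace Pool.Agent.N491.CD

/-! ### The Kummer cocycles -/

variable (F : Type) [Field F] [NumberField F] (l : ℕ) [hl : Fact l.Prime]

/-- a compatible system of roots of unity in the algebraic closure of `F` -/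
noncomputable def zF : ℕ → AlgebraicClosure F := (exists_z (AlgebraicClosure F) l).choose

theorem isZ_zF : IsZ l (zF F l) := (exists_z (AlgebraicClosure F) l).choose_spec

open Classical in
/-- a compatible system of roots of a natural number `b` -/
noncomputable def rF (b : ℕ) : ℕ → AlgebraicClosure F :=
  if h : (b : AlgebraicClosure F) ≠ 0 then (exists_roots (l := l) _ h).choose else 0

variable {F} in
theorem isRoots_rF {b : ℕ} (hb : b ≠ 0) : IsRoots l (b : AlgebraicClosure F) (rF F l b) := by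
  have h : (b : AlgebraicClosure F) ≠ 0 := Nat.cast_ne_zero.2 hb
  rw [rF, dif_pos h]
  exact (exists_roots (l := l) _ h).choose_spec

variable {F}

/-- an element of the absolute Galois group as a ring homomorphism -/
noncomputable def rg (σ : AbsGal F) : AlgebraicClosure F →+* AlgebraicClosure F :=
  (σ : AlgebraicClosure F →ₐ[F] AlgebraicClosure F).toRingHom

/-- the Kummer cocycle of the natural number `b` -/
noncomputable def kap (b : ℕ) (σ : AbsGal F) : ℤ_[l] := kum l (zF F l) (rF F l b) (rg σ)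

/-- the cyclotomic character with values in `ℤ_l` -/
noncomputable def chiZ (σ : AbsGal F) : ℤ_[l] := ((N829.HT.chiF F l σ : ℤ_[l]ˣ) : ℤ_[l])

theorem chiZ_mul (σ τ : AbsGal F) : chiZ l (σ * τ) = chiZ l σ * chiZ l τ := by
  rw [chiZ, chiZ, chiZ, map_mul, Units.val_mul]

theorem coe_chiZ (σ : AbsGal F) : ((chiZ l σ : ℤ_[l]) : ℚ_[l]) = chi l σ := rfl

theorem continuous_chiZ : Continuous (chiZ l : AbsGal F → ℤ_[l]) :=
  Units.continuous_val.comp N829.HT.continuous_chiF

theorem chi_z (σ : AbsGal F) (n : ℕ) : σ (zF F l n) = ee (zF F l) n (chiZ l σ) :=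
  N829.HT.chiF_spec σ ((isZ_zF F l).prim n).pow_eq_one

variable {l}

theorem rg_nat (σ : AbsGal F) (b : ℕ) : rg σ (b : AlgebraicClosure F) = b := map_natCast _ _

theorem kap_spec {b : ℕ} (hb : b ≠ 0) (σ : AbsGal F) (n : ℕ) :
    σ (rF F l b n) = ee (zF F l) n (kap l b σ) * rF F l b n :=
  kum_spec (isZ_zF F l) (isRoots_rF l hb) (rg σ) (rg_nat σ b) n

theorem kap_mul {b : ℕ} (hb : b ≠ 0) (σ τ : AbsGal F) :
    kap l b (σ * τ) = kap l b σ + chiZ l σ * kap l b τ :=
  kum_comp (isZ_zF F l) (isRoots_rF l hb) (rg_nat σ b) (rg_nat τ b) (chi_z l σ)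

theorem isOpen_eq (a b : AlgebraicClosure F) : IsOpen {g : AbsGal F | g a = b} := by
  rcases Set.eq_empty_or_nonempty {g : AbsGal F | g a = b} with h | ⟨g0, hg0⟩
  · rw [h]
    exact isOpen_empty
  · have h1 : IsOpen (MulAction.stabilizer (AbsGal F) a : Set (AbsGal F)) :=
      stabilizer_isOpen_of_isIntegral a
    have h3 : {g : AbsGal F | g a = b} =
        (fun g => g0⁻¹ * g) ⁻¹' (MulAction.stabilizer (AbsGal F) a) := by
      ext g
      rw [Set.mem_preimage, SetLike.mem_coe, MulAction.mem_stabilizer_iff]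
      change g a = b ↔ (g0⁻¹ * g) a = a
      rw [AlgEquiv.mul_apply]
      have hg0' : g0 a = b := hg0
      constructor
      · intro h
        rw [h, ← hg0', ← AlgEquiv.mul_apply, inv_mul_cancel, AlgEquiv.one_apply]
      · intro h
        have h4 := congrArg g0 h
        rw [← AlgEquiv.mul_apply, mul_inv_cancel, AlgEquiv.one_apply, hg0'] at h4
        exact h4
    rw [h3]
    exact h1.preimage (continuous_const_mul _)

theorem continuous_kap {b : ℕ} (hb : b ≠ 0) : Continuous (kap l b : AbsGal F → ℤ_[l]) := by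
  rw [continuous_iff_continuousAt]
  intro σ0
  rw [ContinuousAt, Metric.tendsto_nhds]
  intro ε hε
  have hl0 : (0 : ℝ) < l := by exact_mod_cast hl.out.pos
  have hl1 : (1 : ℝ) < l := by exact_mod_cast hl.out.one_lt
  obtain ⟨n, hn⟩ : ∃ n : ℕ, (l : ℝ) ^ (-(n : ℤ)) < ε := by
    obtain ⟨n, hn⟩ := exists_pow_lt_of_lt_one hε (inv_lt_one_of_one_lt₀ hl1)
    refine ⟨n, ?_⟩
    rw [zpow_neg, zpow_natCast, ← inv_pow]
    exact hn
  have h1 : {g : AbsGal F | g (rF F l b n) = σ0 (rF F l b n)} ∈ nhds σ0 :=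
    (isOpen_eq _ _).mem_nhds rfl
  filter_upwards [h1] with g hg
  have hg' : g (rF F l b n) = σ0 (rF F l b n) := hg
  rw [kap_spec hb, kap_spec hb] at hg'
  have h2 := ee_inj (isZ_zF F l) (mul_right_cancel₀ ((isRoots_rF l hb).ne_zero n) hg')
  rw [dist_eq_norm]
  refine lt_of_le_of_lt ?_ hn
  rw [PadicInt.norm_le_pow_iff_mem_span_pow, ← PadicInt.ker_toZModPow, RingHom.mem_ker, map_sub, h2,
    sub_self]

/-! ### The cocycle of an infinite product -/

variable (l) in
/-- the Kummer cocycle of the infinite product of the numbers `B_i ^ (l ^ i)` -/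
noncomputable def sm (B : ℕ → ℕ) (σ : AbsGal F) : ℤ_[l] :=
  ∑' i : ℕ, (l : ℤ_[l]) ^ i * kap l (B i) σ

theorem norm_sm_le (B : ℕ → ℕ) (i : ℕ) (σ : AbsGal F) :
    ‖(l : ℤ_[l]) ^ i * kap l (B i) σ‖ ≤ ((l : ℝ)⁻¹) ^ i := by
  rw [norm_mul, PadicInt.norm_p_pow, inv_pow, zpow_neg, zpow_natCast]
  exact mul_le_of_le_one_right (by positivity) (PadicInt.norm_le_one _)

theorem summable_geom : Summable fun i : ℕ => ((l : ℝ)⁻¹) ^ i :=
  summable_geometric_of_lt_one (by positivity)
    (inv_lt_one_of_one_lt₀ (by exact_mod_cast hl.out.one_lt))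

theorem summable_sm (B : ℕ → ℕ) (σ : AbsGal F) :
    Summable fun i : ℕ => (l : ℤ_[l]) ^ i * kap l (B i) σ :=
  Summable.of_norm_bounded summable_geom fun i => norm_sm_le B i σ

theorem sm_mul {B : ℕ → ℕ} (hB : ∀ i, B i ≠ 0) (σ τ : AbsGal F) :
    sm l B (σ * τ) = sm l B σ + chiZ l σ * sm l B τ := by
  rw [sm, sm, sm, ← (summable_sm B τ).tsum_mul_left (chiZ l σ),
    ← (summable_sm B σ).tsum_add ((summable_sm B τ).mul_left _)]
  refine tsum_congr fun i => ?_
  rw [kap_mul (hB i)]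
  ring

theorem continuous_sm {B : ℕ → ℕ} (hB : ∀ i, B i ≠ 0) : Continuous (sm l B : AbsGal F → ℤ_[l]) :=
  continuous_tsum (fun i => continuous_const.mul (continuous_kap (hB i))) summable_geom
    (norm_sm_le B)

/-- the splitting of the sum -/
theorem sm_split (B : ℕ → ℕ) (σ : AbsGal F) (n : ℕ) :
    ∃ y : ℤ_[l], sm l B σ = ∑ i ∈ Finset.range n, (l : ℤ_[l]) ^ i * kap l (B i) σ +
      (l : ℤ_[l]) ^ n * y := by
  refine ⟨∑' i : ℕ, (l : ℤ_[l]) ^ i * kap l (B (i + n)) σ, ?_⟩
  have h1 : Summable fun i : ℕ => (l : ℤ_[l]) ^ i * kap l (B (i + n)) σ :=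
    summable_sm (fun i => B (i + n)) σ
  rw [sm, ← (summable_sm B σ).sum_add_tsum_nat_add n, ← h1.tsum_mul_left]
  congr 1
  refine tsum_congr fun i => ?_
  ring

/-- the estimate of the tail of the sum -/
theorem sm_tail (B : ℕ → ℕ) (σ : AbsGal F) (n : ℕ) {ε : ℝ} (hε : 0 ≤ ε)
    (h : ∀ i, n ≤ i → ‖kap l (B i) σ‖ ≤ ε) :
    ‖sm l B σ - ∑ i ∈ Finset.range n, (l : ℤ_[l]) ^ i * kap l (B i) σ‖ ≤ ε := by
  have h1 : sm l B σ - ∑ i ∈ Finset.range n, (l : ℤ_[l]) ^ i * kap l (B i) σ =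
      ∑' i : ℕ, (l : ℤ_[l]) ^ (i + n) * kap l (B (i + n)) σ := by
    rw [sm, ← (summable_sm B σ).sum_add_tsum_nat_add n, add_sub_cancel_left]
  rw [h1]
  refine IsUltrametricDist.norm_tsum_le_of_forall_le_of_nonneg hε fun i => ?_
  rw [norm_mul]
  refine (mul_le_of_le_one_left (norm_nonneg _) (PadicInt.norm_le_one _)).trans (h _ (by omega))

end Pool.Agent.N491.CD
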