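import Mathlib
import Pool.Agent.N491.CD.Core1

/-!
# Decomposition groups and the non-existence of a cochain
-/

set_option autoImplicit false
set_option linter.unusedSectionVars false
set_option maxHeartbeats 1000000

open NumberField IntermediateField

namespace Pool.Agent.N491.CD

section compat

variable {F : Type} [Field F] {p : ℕ} [hp : Fact p.Prime]

/-- `σ` is the restriction of `g` to the algebraic closure of `F`, embedded by `ι`. -/
def Compat (ι : AlgebraicClosure F →+* PadicAlgCl p) (g : GG p) (σ : AbsGal F) : Prop :=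
  ∀ y : AlgebraicClosure F, ι (σ y) = g (ι y)

theorem Compat.mul {ι : AlgebraicClosure F →+* PadicAlgCl p} {g g' : GG p} {σ σ' : AbsGal F}
    (h : Compat ι g σ) (h' : Compat ι g' σ') : Compat ι (g * g') (σ * σ') := fun y => by
  rw [AlgEquiv.mul_apply, AlgEquiv.mul_apply, h, h']

theorem Compat.inv {ι : AlgebraicClosure F →+* PadicAlgCl p} {g : GG p} {σ : AbsGal F}
    (h : Compat ι g σ) : Compat ι g⁻¹ σ⁻¹ := fun y => by
  apply g.injective
  rw [← h, ← AlgEquiv.mul_apply, ← AlgEquiv.mul_apply, mul_inv_cancel, mul_inv_cancel]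
  rfl

theorem Compat.pow {ι : AlgebraicClosure F →+* PadicAlgCl p} {g : GG p} {σ : AbsGal F}
    (h : Compat ι g σ) (n : ℕ) : Compat ι (g ^ n) (σ ^ n) := by
  induction n with
  | zero => exact fun y => rfl
  | succ n ih => exact ih.mul h

/-- the closure of `F` in the algebraic closure of `ℚ_p`: the composite of `ℚ_p` and `F` -/
noncomputable def locF (ι : AlgebraicClosure F →+* PadicAlgCl p) :
    IntermediateField ℚ_[p] (PadicAlgCl p) :=
  IntermediateField.adjoin ℚ_[p] (Set.range fun x : F => ι (algebraMap F (AlgebraicClosure F) x))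

theorem exists_compat (ι : AlgebraicClosure F →+* PadicAlgCl p) {g : GG p}
    (hg : g ∈ (locF ι).fixingSubgroup) : ∃ σ : AbsGal F, Compat ι g σ := by
  let i1 : Algebra (AlgebraicClosure F) (PadicAlgCl p) := ι.toAlgebra
  let i2 : Algebra F (PadicAlgCl p) := (ι.comp (algebraMap F (AlgebraicClosure F))).toAlgebra
  have i3 : IsScalarTower F (AlgebraicClosure F) (PadicAlgCl p) :=
    IsScalarTower.of_algebraMap_eq fun _ => rfl
  let g' : PadicAlgCl p ≃ₐ[F] PadicAlgCl p :=
    AlgEquiv.ofRingEquiv (f := (g : PadicAlgCl p ≃+* PadicAlgCl p)) (fun x => by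
      change g (ι (algebraMap F (AlgebraicClosure F) x)) = ι (algebraMap F (AlgebraicClosure F) x)
      exact hg ⟨_, subset_adjoin _ _ ⟨x, rfl⟩⟩)
  refine ⟨g'.restrictNormal (AlgebraicClosure F), fun y => ?_⟩
  exact g'.restrictNormal_commutes (AlgebraicClosure F) y

variable [NumberField F]

theorem locF_le (ι : AlgebraicClosure F →+* PadicAlgCl p) :
    FiniteDimensional ℚ_[p] (locF ι) ∧
      Module.finrank ℚ_[p] (locF ι) ≤ Module.finrank ℚ F := by
  let b := Module.finBasis ℚ F
  let v : Fin (Module.finrank ℚ F) → PadicAlgCl p :=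
    fun i => ι (algebraMap F (AlgebraicClosure F) (b i))
  let S : Set (PadicAlgCl p) := Set.range fun x : F => ι (algebraMap F (AlgebraicClosure F) x)
  let M : Submonoid (PadicAlgCl p) :=
    MonoidHom.mrange (ι.comp (algebraMap F (AlgebraicClosure F)) : F →* PadicAlgCl p)
  have hS : S ⊆ Submodule.span ℚ_[p] (Set.range v) := by
    rintro _ ⟨x, rfl⟩
    change ι (algebraMap F (AlgebraicClosure F) x) ∈ Submodule.span ℚ_[p] (Set.range v)
    rw [← b.sum_repr x, map_sum, map_sum]
    refine sum_mem fun i _ => ?_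
    have h1 : ι (algebraMap F (AlgebraicClosure F) (b.repr x i • b i)) =
        ((b.repr x i : ℚ) : ℚ_[p]) • v i := by
      rw [Algebra.smul_def, Algebra.smul_def, map_mul, map_mul, map_ratCast, eq_ratCast,
        map_ratCast, map_ratCast]
    rw [h1]
    exact Submodule.smul_mem _ _ (Submodule.subset_span ⟨i, rfl⟩)
  have h2 : Subalgebra.toSubmodule (locF ι).toSubalgebra ≤ Submodule.span ℚ_[p] (Set.range v) := by
    rw [locF, IntermediateField.adjoin_toSubalgebra_of_isAlgebraic
      (fun x _ => Algebra.IsAlgebraic.isAlgebraic x), Algebra.adjoin_eq_span]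
    have h3 : Submonoid.closure S = M := by
      have h4 : S = (M : Set (PadicAlgCl p)) := by
        ext y
        simp [S, M]
      rw [h4, Submonoid.closure_eq]
    change Submodule.span ℚ_[p] (Submonoid.closure S : Set (PadicAlgCl p)) ≤ _
    rw [h3, Submodule.span_le]
    have h4 : (M : Set (PadicAlgCl p)) = S := by
      ext y
      simp [S, M]
    rw [h4]
    exact hS
  have hfin : Module.Finite ℚ_[p] (Submodule.span ℚ_[p] (Set.range v)) :=
    Module.Finite.span_of_finite _ (Set.finite_range v)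
  have h5 : FiniteDimensional ℚ_[p] (Subalgebra.toSubmodule (locF ι).toSubalgebra) :=
    Submodule.finiteDimensional_of_le h2
  refine ⟨h5, ?_⟩
  refine (Submodule.finrank_mono h2).trans ?_
  refine (finrank_range_le_card v).trans ?_
  rw [Fintype.card_fin]

theorem exists_pow_compat (ι : AlgebraicClosure F →+* PadicAlgCl p) (g : GG p) :
    ∃ (n : ℕ) (σ : AbsGal F), 0 < n ∧ n ≤ Module.finrank ℚ F ∧ Compat ι (g ^ n) σ := by
  obtain ⟨h1, h2⟩ := locF_le ι
  have h3 : Module.finrank ℚ_[p] (locF ι) = (locF ι).fixingSubgroup.index :=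
    finrank_eq_fixingSubgroup_index (PadicAlgCl p) (locF ι)
  have h4 : 0 < Module.finrank ℚ_[p] (locF ι) := Module.finrank_pos
  obtain ⟨n, hn0, hn, hmem⟩ := Subgroup.exists_pow_mem_of_index_ne_zero
    (H := (locF ι).fixingSubgroup) (by omega) g
  obtain ⟨σ, hσ⟩ := exists_compat ι hmem
  exact ⟨n, σ, hn0, by omega, hσ⟩

theorem exists_embedding : Nonempty (AlgebraicClosure F →+* PadicAlgCl p) := by
  have h : Algebra.IsAlgebraic ℚ (AlgebraicClosure F) :=
    Algebra.IsAlgebraic.trans ℚ F (AlgebraicClosure F)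
  exact ⟨(IsAlgClosed.lift (R := ℚ) (S := AlgebraicClosure F) (M := PadicAlgCl p)).toRingHom⟩

end compat

section values

variable {F : Type} [Field F] [NumberField F] {p : ℕ} [hp : Fact p.Prime] {l : ℕ}
  [hl : Fact l.Prime] {ι : AlgebraicClosure F →+* PadicAlgCl p} {g : GG p} {σ : AbsGal F}

theorem chi_inert (hpl : p ≠ l) (h : Compat ι g σ) (hg : Inert g) : chiZ l σ = 1 := by
  refine ee_ext (isZ_zF F l) fun n => ?_
  have h1 : ee (l := l) (zF F l) n 1 = zF F l n := by
    have := ee_natCast (isZ_zF F l) n 1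
    rwa [Nat.cast_one, pow_one] at this
  rw [← chi_z, h1]
  apply ι.injective
  rw [h]
  exact inert_z ((isZ_zF F l).map ι) hpl hg n

theorem chi_frob (hpl : p ≠ l) (h : Compat ι g σ) {q : ℕ} (hg : Frob g q) : chiZ l σ = q := by
  refine ee_ext (isZ_zF F l) fun n => ?_
  rw [← chi_z, ee_natCast (isZ_zF F l)]
  apply ι.injective
  rw [h, map_pow]
  exact frob_z ((isZ_zF F l).map ι) hpl hg n

theorem kap_compat {b : ℕ} (hb : b ≠ 0) (h : Compat ι g σ) :
    kap l b σ = kum l (fun n => ι (zF F l n)) (fun n => ι (rF F l b n)) (rh g) := by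
  have hb' : (rh g) (ι (b : AlgebraicClosure F)) = ι (b : AlgebraicClosure F) := by
    rw [map_natCast, map_natCast]
  refine (kum_unique ((isZ_zF F l).map ι) ((isRoots_rF l hb).map ι) (σ := rh g) hb'
    (x := kap l b σ) fun n => ?_).symm
  rw [rh_apply, ← h, kap_spec hb, map_mul, map_ee]

theorem kap_inert (hpl : p ≠ l) (h : Compat ι g σ) (hg : Inert g) {b : ℕ} (hb : ¬ p ∣ b) :
    kap l b σ = 0 := by
  have hb0 : b ≠ 0 := fun h0 => hb (h0 ▸ dvd_zero p)
  rw [kap_compat hb0 h]
  refine kum_inert ((isZ_zF F l).map ι) ((isRoots_rF l hb0).map ι) hpl hg ?_ ?_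
  · rw [map_natCast, map_natCast]
  · rw [map_natCast]
    exact norm_natCast_of_not_dvd hb

end values

end Pool.Agent.N491.CD
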