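import Mathlib
import Pool.Agent.N491.CD.Core2

/-!
# Roots of finite products
-/

set_option autoImplicit false
set_option linter.unusedSectionVars false
set_option maxHeartbeats 1000000

open NumberField IntermediateField

namespace Pool.Agent.N491.CD

theorem ee_sum {L : Type} [Field L] {l : ℕ} [hl : Fact l.Prime] {z : ℕ → L} (hz : IsZ l z) (k : ℕ)
    (s : Finset ℕ) (x : ℕ → ℤ_[l]) : ee z k (∑ j ∈ s, x j) = ∏ j ∈ s, ee z k (x j) := by
  classical
  induction s using Finset.induction with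
  | empty => rw [Finset.sum_empty, Finset.prod_empty, ee_zero hz]
  | insert a s ha ih => rw [Finset.sum_insert ha, Finset.prod_insert ha, ee_add hz, ih]

variable {F : Type} [Field F] [NumberField F] {l : ℕ} [hl : Fact l.Prime]

variable (F l) in
/-- the roots of the number `∏ j < n, B_j ^ (l ^ j)` -/
noncomputable def rprod (B : ℕ → ℕ) (n : ℕ) (k : ℕ) : AlgebraicClosure F :=
  ∏ j ∈ Finset.range n, rF F l (B j) k ^ l ^ j

theorem isRoots_rprod {B : ℕ → ℕ} (hB : ∀ j, B j ≠ 0) (n : ℕ) :
    IsRoots l (((∏ j ∈ Finset.range n, B j ^ l ^ j : ℕ) : ℕ) : AlgebraicClosure F)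
      (rprod F l B n) where
  ne := by
    rw [Nat.cast_ne_zero]
    exact Finset.prod_ne_zero_iff.2 fun j _ => pow_ne_zero _ (hB j)
  zero := by
    rw [rprod]
    push_cast
    refine Finset.prod_congr rfl fun j _ => ?_
    rw [(isRoots_rF l (hB j)).zero]
  succ k := by
    rw [rprod, rprod, ← Finset.prod_pow]
    refine Finset.prod_congr rfl fun j _ => ?_
    rw [← (isRoots_rF l (hB j)).succ k, ← pow_mul, ← pow_mul, mul_comm]

theorem rprod_spec {B : ℕ → ℕ} (hB : ∀ j, B j ≠ 0) (n : ℕ) (σ : AbsGal F) (k : ℕ) :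
    σ (rprod F l B n k) =
      ee (zF F l) k (∑ j ∈ Finset.range n, (l : ℤ_[l]) ^ j * kap l (B j) σ) * rprod F l B n k := by
  rw [ee_sum (isZ_zF F l), rprod, map_prod, ← Finset.prod_mul_distrib]
  refine Finset.prod_congr rfl fun j _ => ?_
  rw [map_pow, kap_spec (hB j), mul_pow, ← ee_mul (isZ_zF F l)]
  congr 2
  push_cast
  ring

end Pool.Agent.N491.CD
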