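import Mathlib
import Pool.Agent.N491.CD.Rp

/-!
# The non-existence of a cochain
-/

set_option autoImplicit false
set_option linter.unusedSectionVars false
set_option maxHeartbeats 1000000

open NumberField IntermediateField

namespace Pool.Agent.N491.CD

variable {F : Type} [Field F] [NumberField F] {l : ℕ} [hl : Fact l.Prime]

variable (l) in
/-- the first Kummer cocycle -/
noncomputable def alp (σ : AbsGal F) : ℤ_[l] := sm l (fun i => PP l i * RR l i) σ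

variable (l) in
/-- the second Kummer cocycle -/
noncomputable def bet (σ : AbsGal F) : ℤ_[l] := sm l (QQ' l) σ

theorem PR_ne_zero (i : ℕ) : PP l i * RR l i ≠ 0 :=
  mul_ne_zero (PP_prime i).ne_zero (RR_prime i).ne_zero

theorem chiZ_one : chiZ l (1 : AbsGal F) = 1 := by
  rw [chiZ, map_one, Units.val_one]

theorem bet_mul (σ τ : AbsGal F) : bet l (σ * τ) = bet l σ + chiZ l σ * bet l τ :=
  sm_mul (fun i => (QQ_prime (l := l) i).ne_zero) σ τ

theorem alp_mul (σ τ : AbsGal F) : alp l (σ * τ) = alp l σ + chiZ l σ * alp l τ :=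
  sm_mul PR_ne_zero σ τ

theorem continuous_bet : Continuous (bet l : AbsGal F → ℤ_[l]) :=
  continuous_sm fun i => (QQ_prime (l := l) i).ne_zero

theorem continuous_alp : Continuous (alp l : AbsGal F → ℤ_[l]) :=
  continuous_sm PR_ne_zero

theorem bet_one : bet l (1 : AbsGal F) = 0 := by
  have h := bet_mul (l := l) (1 : AbsGal F) 1
  rw [chiZ_one, mul_one, one_mul] at h
  simpa using h

theorem norm_natCast_ge {k : ℕ} (hk : k ≠ 0) : (k : ℝ)⁻¹ ≤ ‖(k : ℚ_[l])‖ := by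
  have hl0 : (0 : ℝ) < l := by exact_mod_cast hl.out.pos
  obtain ⟨v, u, hu, huv⟩ := Nat.exists_eq_pow_mul_and_not_dvd (n := k) hk l hl.out.ne_one
  have h1 : ‖(k : ℚ_[l])‖ = ((l : ℝ) ^ v)⁻¹ := by
    rw [huv, Nat.cast_mul, Nat.cast_pow, norm_mul, norm_pow, Padic.norm_p,
      Padic.norm_natCast_eq_one_iff.2 ((Nat.Prime.coprime_iff_not_dvd hl.out).2 hu), mul_one, inv_pow]
  rw [h1]
  have h2 : l ^ v ≤ k := Nat.le_of_dvd (Nat.pos_of_ne_zero hk) ⟨u, huv⟩
  have h3 : (l : ℝ) ^ v ≤ k := by exact_mod_cast h2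
  have h4 : (0 : ℝ) < (l : ℝ) ^ v := by positivity
  gcongr

section wild

variable {p : ℕ} [hp : Fact p.Prime] {ι : AlgebraicClosure F →+* PadicAlgCl p}

theorem wild_zero (hpl : p ≠ l) {f : AbsGal F → ℚ_[l]} (hf : Continuous f) (h1 : f 1 = 0)
    {w : AbsGal F} {W : GG p} (hW : Wild W) (hc : Compat ι W w)
    (hpow : ∀ n : ℕ, f (w ^ n) = n * f w) : f w = 0 := by
  by_contra hne
  have hpos : 0 < ‖f w‖ := norm_pos_iff.2 hne
  have hU : {g : AbsGal F | ‖f g‖ < ‖f w‖} ∈ nhds (1 : AbsGal F) := by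
    refine (isOpen_lt (continuous_norm.comp hf) continuous_const).mem_nhds ?_
    change ‖f 1‖ < ‖f w‖
    rw [h1, norm_zero]
    exact hpos
  rw [krullTopology_mem_nhds_one_iff] at hU
  obtain ⟨E, hE, hsub⟩ := hU
  let b := Module.finBasis F E
  classical
  let s : Finset (PadicAlgCl p) := Finset.univ.image fun i => ι (b i : AlgebraicClosure F)
  obtain ⟨r, hr⟩ := hW.exists_pow_finset s
  have h2 : w ^ p ^ r ∈ E.fixingSubgroup := by
    rw [IntermediateField.mem_fixingSubgroup_iff]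
    have h3 : ((w ^ p ^ r : AbsGal F) : AlgebraicClosure F →ₐ[F] AlgebraicClosure F).toLinearMap.comp
        E.val.toLinearMap = E.val.toLinearMap := by
      refine b.ext fun i => ?_
      change (w ^ p ^ r) (b i : AlgebraicClosure F) = (b i : AlgebraicClosure F)
      apply ι.injective
      rw [hc.pow]
      exact hr _ (Finset.mem_image_of_mem _ (Finset.mem_univ i))
    intro x hx
    exact LinearMap.congr_fun h3 ⟨x, hx⟩
  have h3 := hsub h2
  change ‖f (w ^ p ^ r)‖ < ‖f w‖ at h3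
  rw [hpow, norm_mul] at h3
  have h4 : ‖((p ^ r : ℕ) : ℚ_[l])‖ = 1 := by
    rw [Padic.norm_natCast_eq_one_iff]
    exact Nat.Coprime.pow_right r ((Nat.coprime_primes hl.out hp.out).2 hpl.symm)
  rw [h4, one_mul] at h3
  exact lt_irrefl _ h3

end wild

section main

/-- the condition on a cochain -/
def IsCochain (C : AbsGal F → ℚ_[l]) : Prop :=
  ∀ g h : AbsGal F, C (g * h) = C g + (alp l h : ℚ_[l]) * (chi l g * (bet l g : ℚ_[l])) +
    chi l g ^ 2 * C h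

variable {C : AbsGal F → ℚ_[l]}

theorem IsCochain.one (hC : IsCochain C) : C 1 = 0 := by
  have h := hC 1 1
  rw [bet_one] at h
  have h1 : chi l (1 : AbsGal F) = 1 := chi_one
  rw [h1, mul_one] at h
  simpa using h

theorem IsCochain.mul_left (hC : IsCochain C) {g h : AbsGal F} (hg : chiZ l g = 1)
    (hg' : bet l g = 0) : C (g * h) = C g + C h := by
  rw [hC, hg', ← coe_chiZ, hg]
  simp

theorem IsCochain.pow (hC : IsCochain C) {g : AbsGal F} (hg : chiZ l g = 1)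
    (hg' : bet l g = 0) (n : ℕ) : C (g ^ n) = n * C g := by
  induction n with
  | zero => simp [hC.one]
  | succ n ih =>
    rw [pow_succ', hC.mul_left hg hg', ih]
    push_cast
    ring

variable {p : ℕ} [hp : Fact p.Prime] {ι : AlgebraicClosure F →+* PadicAlgCl p}

theorem sm_inert (hpl : p ≠ l) {B : ℕ → ℕ} (hB : ∀ j, ¬ p ∣ B j) {T : GG p} {t : AbsGal F}
    (ht : Compat ι T t) (hT : Inert T) : sm l B t = 0 := by
  rw [sm]
  have h : (fun i : ℕ => (l : ℤ_[l]) ^ i * kap l (B i) t) = fun _ => 0 := by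
    funext i
    rw [kap_inert hpl ht hT (hB i), mul_zero]
  rw [h, tsum_zero]

/-- The relation between the values of the cochain at a tame element and at a Frobenius element. -/
theorem IsCochain.rel (hC : IsCochain C) (hcont : Continuous C) (hpl : p ≠ l)
    (hpQ : ∀ j, ¬ p ∣ QQ' l j) {S T : GG p} {q : ℕ}
    (hS : Frob S q) (hT : Inert T) {s t : AbsGal F} (hs : Compat ι S s) (ht : Compat ι T t) :
    C t * (1 - q) = (alp l t : ℚ_[l]) * (bet l s : ℚ_[l]) := by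
  have h1 : chiZ l t = 1 := chi_inert hpl ht hT
  have h2 : bet l t = 0 := sm_inert hpl hpQ ht hT
  set w : AbsGal F := s * t * s⁻¹ * (t ^ q)⁻¹ with hw
  have hW := wild_of hT hS
  have hWc : Compat ι (S * T * S⁻¹ * (T ^ q)⁻¹) w := ((hs.mul ht).mul hs.inv).mul (ht.pow q).inv
  have h3 : chiZ l w = 1 := chi_inert hpl hWc hW.inert
  have h4 : bet l w = 0 := sm_inert hpl hpQ hWc hW.inert
  have h5 : C w = 0 := wild_zero hpl hcont hC.one hW hWc fun n => hC.pow h3 h4 n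
  have h6 : s * t = w * (t ^ q * s) := by rw [hw]; group
  have h7 : chiZ l s = q := chi_frob hpl hs hS
  have h8 := congrArg C h6
  have h9 : chiZ l (t ^ q) = 1 := chi_inert hpl (ht.pow q) (hT.pow q)
  have h10 : bet l (t ^ q) = 0 := sm_inert hpl hpQ (ht.pow q) (hT.pow q)
  rw [hC.mul_left h3 h4, h5, hC.mul_left h9 h10, hC.pow h1 h2, hC s t, ← coe_chiZ, h7] at h8
  rw [PadicInt.coe_natCast] at h8
  have hq : (q : ℚ_[l]) ≠ 0 := by
    have : (chiZ l s : ℤ_[l]) ≠ 0 := (N829.HT.chiF F l s).ne_zero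
    rw [h7] at this
    intro h0
    apply this
    exact_mod_cast h0
  have h11 : (q : ℚ_[l]) * (C t * (1 - q)) = q * ((alp l t : ℚ_[l]) * (bet l s : ℚ_[l])) := by
    linear_combination -h8
  exact mul_left_cancel₀ hq h11

/-- the value of `bet` at a Frobenius element -/
theorem bet_frob (i : ℕ) [hp : Fact (PP l i).Prime] {ι : AlgebraicClosure F →+* PadicAlgCl (PP l i)}
    {S : GG (PP l i)} {q : ℕ} (hq : 1 < q) (hdvd : l ^ mmm l i ∣ q - 1) (hS : Frob S q)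
    {s : AbsGal F} (hs : Compat ι S s) :
    (l : ℝ) ^ mmm l i * ‖(q : ℤ_[l]) - 1‖ ≤ ‖bet l s‖ := by
  have hl1 : (1 : ℝ) < l := by exact_mod_cast hl.out.one_lt
  have hpl : PP l i ≠ l := PP_ne i
  have hz := (isZ_zF F l).map ι
  have hm : 0 < mmm l i := by
    have := mmm_ge (l := l) i
    omega
  set D : ℕ := ∏ j ∈ Finset.range (i + 1), QQ' l j ^ l ^ j with hD
  have hD0 : ¬ PP l i ∣ D := not_dvd_D i
  have hQ0 : ∀ j, QQ' l j ≠ 0 := fun j => (QQ_prime (l := l) j).ne_zero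
  have hr := (isRoots_rprod (F := F) (l := l) hQ0 (i + 1)).map ι
  have h1 : kum l (fun n => ι (zF F l n)) (fun n => ι (rprod F l (QQ' l) (i + 1) n)) (rh S) =
      ∑ j ∈ Finset.range (i + 1), (l : ℤ_[l]) ^ j * kap l (QQ' l j) s := by
    refine kum_unique hz hr (σ := rh S) ?_ fun n => ?_
    · rw [map_natCast, map_natCast]
    · rw [rh_apply, ← hs, rprod_spec hQ0, map_mul, map_ee]
  have h2 := kum_frob hz hr hpl (map_natCast _ _) hD0 hm hq hS (PP_order i) hdvd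
  rw [h1] at h2
  have h3 : ‖bet l s - ∑ j ∈ Finset.range (i + 1), (l : ℤ_[l]) ^ j * kap l (QQ' l j) s‖ ≤
      ‖(q : ℤ_[l]) - 1‖ := by
    refine sm_tail _ s (i + 1) (norm_nonneg _) fun j hj => ?_
    have hj0 := (QQ_prime (l := l) j).ne_zero
    rw [kap_compat hj0 hs]
    exact kum_frob_one hz ((isRoots_rF (F := F) l hj0).map ι) hpl (map_natCast _ _)
      (QQ_modEq (by omega)) hq hS
  have hqn : (0 : ℝ) < ‖(q : ℤ_[l]) - 1‖ := by
    rw [norm_pos_iff, sub_ne_zero]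
    intro h
    have h2 : ((q : ℕ) : ℤ_[l]) = ((1 : ℕ) : ℤ_[l]) := by rw [h, Nat.cast_one]
    exact hq.ne' (Nat.cast_injective h2)
  have h4 : ‖(q : ℤ_[l]) - 1‖ < (l : ℝ) ^ mmm l i * ‖(q : ℤ_[l]) - 1‖ := by
    have h5 : (1 : ℝ) < (l : ℝ) ^ mmm l i := one_lt_pow₀ hl1 hm.ne'
    nlinarith
  have h5 := (h3.trans_lt h4).trans_le h2
  have h6 : ‖bet l s‖ =
      ‖∑ j ∈ Finset.range (i + 1), (l : ℤ_[l]) ^ j * kap l (QQ' l j) s‖ := by
    have e : bet l s = (bet l s -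
      ∑ j ∈ Finset.range (i + 1), (l : ℤ_[l]) ^ j * kap l (QQ' l j) s) +
      ∑ j ∈ Finset.range (i + 1), (l : ℤ_[l]) ^ j * kap l (QQ' l j) s := by ring
    conv_lhs => rw [e]
    rw [PadicInt.norm_add_eq_max_of_ne h5.ne, max_eq_right h5.le]
  rw [h6]
  exact h2

theorem core_bound (hC : IsCochain C) (hcont : Continuous C) (i : ℕ) :
    ∃ t : AbsGal F, (l : ℝ) ^ (i + 1) ≤ Module.finrank ℚ F * ‖C t‖ := by
  have hl0 : (0 : ℝ) < l := by exact_mod_cast hl.out.pos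
  have hl1 : (1 : ℝ) ≤ l := by exact_mod_cast hl.out.one_lt.le
  have hp : Fact (PP l i).Prime := ⟨PP_prime i⟩
  have hpl : PP l i ≠ l := PP_ne i
  have hp0 : PP l i ≠ 0 := hp.out.ne_zero
  have hPR0 : PP l i * RR l i ≠ 0 := PR_ne_zero i
  obtain ⟨ι⟩ := exists_embedding (F := F) (p := PP l i)
  obtain ⟨S0, hS0⟩ := exists_frob (p := PP l i)
  have hr := (isRoots_rF (F := F) l hPR0).map ι
  have hz := (isZ_zF F l).map ι
  obtain ⟨T0, hT0, hT0'⟩ := exists_tame' (p := PP l i) (l := l) hpl (R := RR l i) (not_dvd_RR i)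
    (π := ι (rF F l (PP l i * RR l i) 1)) (by
    have := hr.pow 1
    rw [pow_one] at this
    rw [this, map_natCast])
  obtain ⟨k, s, hk0, hkD, hs⟩ := exists_pow_compat ι S0
  obtain ⟨k', t, hk0', hkD', ht⟩ := exists_pow_compat ι T0
  refine ⟨t, ?_⟩
  have hS : Frob (S0 ^ k) (PP l i ^ k) := hS0.pow k
  have hT : Inert (T0 ^ k') := hT0.pow k'
  have hrel := hC.rel hcont hpl (not_dvd_QQ i) hS hT hs ht
  -- the value of `alp` at `t`
  have hb : (rh T0) (ι ((PP l i * RR l i : ℕ) : AlgebraicClosure F)) =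
      ι ((PP l i * RR l i : ℕ) : AlgebraicClosure F) := by
    rw [map_natCast, map_natCast]
  have ha1 : kap l (PP l i * RR l i) t = k' * kum l (fun n => ι (zF F l n))
      (fun n => ι (rF F l (PP l i * RR l i) n)) (rh T0) := by
    rw [kap_compat hPR0 ht]
    exact kum_pow hz hr hpl hT0 hb k'
  have ha2 : ‖kum l (fun n => ι (zF F l n)) (fun n => ι (rF F l (PP l i * RR l i) n)) (rh T0)‖ = 1 :=
    kum_tame hz hr hb hT0'
  have ha3 : alp l t = (l : ℤ_[l]) ^ i * kap l (PP l i * RR l i) t := by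
    rw [alp, sm]
    refine tsum_eq_single i fun j hj => ?_
    rw [kap_inert hpl ht hT (not_dvd_PR hj.symm), mul_zero]
  have ha4 : ‖(alp l t : ℚ_[l])‖ = (l : ℝ) ^ (-i : ℤ) * ‖(k' : ℚ_[l])‖ := by
    rw [← PadicInt.norm_def, ha3, ha1, norm_mul, norm_mul, ha2, mul_one, PadicInt.norm_p_pow]
    rfl
  -- the value of `bet` at `s`
  have hq1 : 1 < PP l i ^ k := Nat.one_lt_pow hk0.ne' hp.out.one_lt
  have hdvd : l ^ mmm l i ∣ PP l i ^ k - 1 := by
    refine (order_dvd (PP_prime i) (PP_order i)).trans ?_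
    have := Nat.sub_dvd_pow_sub_pow (PP l i) 1 k
    rwa [one_pow] at this
  have hb0 := bet_frob i hq1 hdvd hS hs
  have hb1 : (l : ℝ) ^ (2 * i + 1) * ‖((PP l i ^ k : ℕ) : ℤ_[l]) - 1‖ ≤ ‖bet l s‖ := by
    refine le_trans ?_ hb0
    have h1 : (l : ℝ) ^ (2 * i + 1) ≤ (l : ℝ) ^ mmm l i := pow_le_pow_right₀ hl1 (mmm_ge i)
    gcongr
  have hnk : (1 : ℝ) ≤ Module.finrank ℚ F * ‖(k' : ℚ_[l])‖ := by
    have h1 : ((k' : ℝ))⁻¹ ≤ ‖(k' : ℚ_[l])‖ := norm_natCast_ge hk0'.ne'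
    have h2 : (k' : ℝ) ≤ Module.finrank ℚ F := by exact_mod_cast hkD'
    have h3 : (0 : ℝ) < k' := by exact_mod_cast hk0'
    calc (1 : ℝ) = k' * (k' : ℝ)⁻¹ := (mul_inv_cancel₀ h3.ne').symm
      _ ≤ Module.finrank ℚ F * ‖(k' : ℚ_[l])‖ := by gcongr
  have hqn : (0 : ℝ) < ‖((PP l i ^ k : ℕ) : ℤ_[l]) - 1‖ := by
    rw [norm_pos_iff, sub_ne_zero]
    intro h
    have h2 : (((PP l i ^ k : ℕ) : ℤ_[l])) = ((1 : ℕ) : ℤ_[l]) := by rw [h, Nat.cast_one]
    exact hq1.ne' (Nat.cast_injective h2)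
  have hn := congrArg norm hrel
  rw [norm_mul, norm_mul, ha4] at hn
  have hn2 : ‖(1 : ℚ_[l]) - ((PP l i ^ k : ℕ) : ℚ_[l])‖ = ‖((PP l i ^ k : ℕ) : ℤ_[l]) - 1‖ := by
    rw [norm_sub_rev, PadicInt.norm_def]
    push_cast
    rfl
  rw [hn2, ← PadicInt.norm_def] at hn
  have hkey : (l : ℝ) ^ (i + 1) * ‖((PP l i ^ k : ℕ) : ℤ_[l]) - 1‖ ≤
      (Module.finrank ℚ F * ‖C t‖) * ‖((PP l i ^ k : ℕ) : ℤ_[l]) - 1‖ := by
    rw [mul_assoc, hn]
    have e1 : (l : ℝ) ^ (i + 1) * ‖((PP l i ^ k : ℕ) : ℤ_[l]) - 1‖ =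
        1 * ((l : ℝ) ^ (-i : ℤ) * ((l : ℝ) ^ (2 * i + 1) * ‖((PP l i ^ k : ℕ) : ℤ_[l]) - 1‖)) := by
      rw [one_mul, ← mul_assoc]
      congr 1
      rw [← zpow_natCast, ← zpow_natCast, ← zpow_add₀ hl0.ne']
      congr 1
      push_cast
      ring
    have e2 : (Module.finrank ℚ F : ℝ) * ((l : ℝ) ^ (-i : ℤ) * ‖(k' : ℚ_[l])‖ * ‖bet l s‖) =
        (Module.finrank ℚ F * ‖(k' : ℚ_[l])‖) * ((l : ℝ) ^ (-i : ℤ) * ‖bet l s‖) := by ring
    rw [e1, e2]
    gcongr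
  exact le_of_mul_le_mul_right hkey hqn

/-- There is no continuous cochain. -/
theorem no_function (hC : IsCochain C) (hcont : Continuous C) : False := by
  have hl1 : (1 : ℝ) < l := by exact_mod_cast hl.out.one_lt
  obtain ⟨B, hB⟩ := (isCompact_range (continuous_norm.comp hcont)).bddAbove
  have hB' : ∀ t, ‖C t‖ ≤ B := fun t => hB ⟨t, rfl⟩
  obtain ⟨n, hn⟩ := pow_unbounded_of_one_lt (Module.finrank ℚ F * B) hl1
  obtain ⟨t, ht⟩ := core_bound hC hcont n
  have h1 : (l : ℝ) ^ n ≤ (l : ℝ) ^ (n + 1) := pow_le_pow_right₀ hl1.le (Nat.le_succ n)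
  have h2 : (Module.finrank ℚ F : ℝ) * ‖C t‖ ≤ Module.finrank ℚ F * B := by
    gcongr
    exact hB' t
  linarith

end main

end Pool.Agent.N491.CD
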