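import Mathlib

/-!
# The vanishing of a Yoneda product of two extensions

If the product in `Ext ^ 2` of the classes of two short exact sequences `0 → M → E → X → 0` and
`0 → Z → E' → M → 0` vanishes, then there is an object `V` with a filtration with the graded pieces
`Z`, `M`, `X`, such that `E'` is a subobject of `V` and `E` is the quotient of `V` by `Z`.
-/

set_option autoImplicit false

universe w v u

open CategoryTheory Abelian Limits Pretriangulated Triangulated DerivedCategory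

namespace Pool.Agent.N491.CD

variable {C : Type u} [Category.{v} C] [Abelian C]

theorem single_hom_eq_zero [HasDerivedCategory.{w} C] ⦃X Y : C⦄ ⦃n : ℤ⦄
    (f : (singleFunctor C 0).obj X ⟶ ((singleFunctor C 0).obj Y)⟦n⟧) (hn : n < 0) : f = 0 := by
  have h1 : TStructure.t.IsGE (((singleFunctor C 0).obj Y)⟦n⟧) (-n) :=
    TStructure.t.isGE_shift _ 0 n (-n)
  exact TStructure.t.zero f 0 (-n)

theorem blended_aux [HasDerivedCategory.{w} C] {X M E Z E' : C} {f : M ⟶ E} {g : E ⟶ X}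
    {w1 : f ≫ g = 0}
    (hS : (ShortComplex.mk f g w1).ShortExact) {f' : Z ⟶ E'} {g' : E' ⟶ M} {w2 : f' ≫ g' = 0}
    (hT : (ShortComplex.mk f' g' w2).ShortExact)
    (x : (singleFunctor C 0).obj E ⟶ ((singleFunctor C 0).obj Z)⟦(1 : ℤ)⟧)
    (hx : (singleFunctor C 0).map f ≫ x = hT.singleδ) :
    ∃ (V : C) (i : Z ⟶ V) (q : V ⟶ E) (wq : i ≫ q = 0) (ψ : E' ⟶ V),
      (ShortComplex.mk i q wq).ShortExact ∧ f' ≫ ψ = i ∧ ψ ≫ q = g' ≫ f := by
  obtain ⟨K, a, b, hK⟩ := distinguished_cocone_triangle₂ x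
  have hK1 : K.IsLE 0 := TStructure.t.isLE₂ _ hK 0
    (inferInstanceAs (((singleFunctor C 0).obj Z).IsLE 0))
    (inferInstanceAs (((singleFunctor C 0).obj E).IsLE 0))
  have hK2 : K.IsGE 0 := TStructure.t.isGE₂ _ hK 0
    (inferInstanceAs (((singleFunctor C 0).obj Z).IsGE 0))
    (inferInstanceAs (((singleFunctor C 0).obj E).IsGE 0))
  obtain ⟨V, ⟨e⟩⟩ := exists_iso_singleFunctor_obj_of_isGE_of_isLE K 0
  obtain ⟨i, hi⟩ := (singleFunctor C 0).map_surjective (a ≫ e.hom)
  obtain ⟨q, hq⟩ := (singleFunctor C 0).map_surjective (e.inv ≫ b)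
  have hV : Triangle.mk ((singleFunctor C 0).map i) ((singleFunctor C 0).map q) x ∈
      distTriang (DerivedCategory C) := by
    refine isomorphic_distinguished _ hK _
      (Triangle.isoMk _ _ (Iso.refl _) e.symm (Iso.refl _) ?_ ?_ ?_)
    · change (singleFunctor C 0).map i ≫ e.inv = 𝟙 _ ≫ a
      rw [hi, Category.assoc, e.hom_inv_id, Category.comp_id, Category.id_comp]
    · change (singleFunctor C 0).map q ≫ 𝟙 _ = e.inv ≫ b
      rw [hq, Category.comp_id]
    · change x ≫ (shiftFunctor (DerivedCategory C) (1 : ℤ)).map (𝟙 _) = 𝟙 _ ≫ x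
      rw [CategoryTheory.Functor.map_id, Category.comp_id, Category.id_comp]
  have wq : i ≫ q = 0 := (singleFunctor C 0).map_injective (by
    rw [Functor.map_comp, Functor.map_zero]
    exact comp_distTriang_mor_zero₁₂ _ hV)
  have hker := AbelianSubcategory.isLimitKernelForkOfDistTriang
    (ι := singleFunctor C 0) (fun X Y n f hn => single_hom_eq_zero f hn) i q x hV
  have hcok := AbelianSubcategory.isColimitCokernelCoforkOfDistTriang
    (ι := singleFunctor C 0) (fun X Y n f hn => single_hom_eq_zero f hn) i q x hV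
  have hc : (hT.singleδ : (singleFunctor C 0).obj M ⟶ ((singleFunctor C 0).obj Z)⟦(1 : ℤ)⟧) ≫
      (shiftFunctor (DerivedCategory C) (1 : ℤ)).map (𝟙 ((singleFunctor C 0).obj Z)) =
      (singleFunctor C 0).map f ≫ x := by
    rw [CategoryTheory.Functor.map_id]
    exact (Category.comp_id _).trans hx.symm
  obtain ⟨ψ', h1, h2⟩ : ∃ ψ' : (singleFunctor C 0).obj E' ⟶ (singleFunctor C 0).obj V,
      (singleFunctor C 0).map f' ≫ ψ' = 𝟙 _ ≫ (singleFunctor C 0).map i ∧
      (singleFunctor C 0).map g' ≫ (singleFunctor C 0).map f = ψ' ≫ (singleFunctor C 0).map q :=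
    complete_distinguished_triangle_morphism₂ hT.singleTriangle _
      hT.singleTriangle_distinguished hV (𝟙 _) ((singleFunctor C 0).map f) hc
  obtain ⟨ψ, hψ⟩ : ∃ ψ : E' ⟶ V, (singleFunctor C 0).map ψ = ψ' :=
    (singleFunctor C 0).map_surjective ψ'
  refine ⟨V, i, q, wq, ψ, ?_, ?_, ?_⟩
  · have hmono : Mono i := Fork.IsLimit.mono hker
    have hepi : Epi q := Cofork.IsColimit.epi hcok
    exact { exact := ShortComplex.exact_of_f_is_kernel _ hker }
  · apply (singleFunctor C 0).map_injective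
    rw [Functor.map_comp, hψ, h1, Category.id_comp]
  · apply (singleFunctor C 0).map_injective
    rw [Functor.map_comp, Functor.map_comp, hψ]
    exact h2.symm

theorem exists_blended [HasExt.{w} C] {X M E Z E' : C} {f : M ⟶ E} {g : E ⟶ X} {w1 : f ≫ g = 0}
    (hS : (ShortComplex.mk f g w1).ShortExact) {f' : Z ⟶ E'} {g' : E' ⟶ M} {w2 : f' ≫ g' = 0}
    (hT : (ShortComplex.mk f' g' w2).ShortExact)
    (h : hS.extClass.comp (hT.extClass : Ext.{w} M Z 1) (rfl : 1 + 1 = 2) = 0) :
    ∃ (V : C) (i : Z ⟶ V) (q : V ⟶ E) (wq : i ≫ q = 0) (ψ : E' ⟶ V),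
      (ShortComplex.mk i q wq).ShortExact ∧ f' ≫ ψ = i ∧ ψ ≫ q = g' ≫ f := by
  obtain ⟨x, hx⟩ : ∃ x : Ext.{w} E Z 1, (Ext.mk₀ f).comp x (zero_add 1) = hT.extClass :=
    Ext.contravariant_sequence_exact₁ hS Z (hT.extClass : Ext.{w} M Z 1) (rfl : 1 + 1 = 2) h
  let _ := HasDerivedCategory.standard C
  have hx' : (singleFunctor C 0).map f ≫ x.hom = hT.singleδ := by
    have h1 := congrArg Ext.hom hx
    rw [Ext.comp_hom, Ext.mk₀_hom, ShiftedHom.mk₀_comp, ShortComplex.ShortExact.extClass_hom] at h1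
    exact h1
  exact blended_aux hS hT x.hom hx'

end Pool.Agent.N491.CD
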