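import Mathlib
import Pool.Agent.N491.CD.Core3

/-!
# The Kummer cocycles are coboundaries on the decomposition groups above `l`
-/

set_option autoImplicit false
set_option linter.unusedSectionVars false
set_option maxHeartbeats 1000000

open NumberField IntermediateField

namespace Pool.Agent.N491.CD

variable {F : Type} [Field F] [NumberField F] {l : ℕ} [hl : Fact l.Prime]

theorem sm_split_nat {B : ℕ → ℕ} (hB : ∀ j, B j ≠ 0)
    (hpow : ∀ n, ∃ w : ℤ_[l], ((∏ j ∈ Finset.range n, B j ^ l ^ j : ℕ) : ℤ_[l]) = w ^ l ^ n)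
    (ι : AlgebraicClosure F →+* PadicAlgCl l) (n : ℕ) :
    ∃ c : ℕ, ∀ (g : GG l) (σ : AbsGal F), Compat ι g σ →
      ‖sm l B σ - c * (chiZ l σ - 1)‖ ≤ (l : ℝ) ^ (-n : ℤ) := by
  obtain ⟨w, hw⟩ := hpow n
  set D : ℕ := ∏ j ∈ Finset.range n, B j ^ l ^ j with hD
  have hD0 : D ≠ 0 := Finset.prod_ne_zero_iff.2 fun j _ => pow_ne_zero _ (hB j)
  have hz := (isZ_zF F l).map ι
  have hr := isRoots_rprod (F := F) (l := l) hB n
  set W : PadicAlgCl l := algebraMap ℚ_[l] (PadicAlgCl l) (w : ℚ_[l]) with hW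
  have hWD : W ^ l ^ n = (D : PadicAlgCl l) := by
    rw [hW, ← map_pow]
    have h1 : ((w : ℚ_[l])) ^ l ^ n = (D : ℚ_[l]) := by
      rw [← PadicInt.coe_pow, ← hw, PadicInt.coe_natCast]
    rw [h1, map_natCast]
  have hW0 : W ≠ 0 := by
    intro h0
    rw [h0, zero_pow (pow_ne_zero _ hl.out.ne_zero)] at hWD
    exact hD0 (Nat.cast_eq_zero.1 hWD.symm)
  set x : PadicAlgCl l := ι (rprod F l B n n) with hx
  have hxD : x ^ l ^ n = (D : PadicAlgCl l) := by
    rw [hx, ← map_pow, hr.pow, map_natCast]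
  have hy : (x / W) ^ l ^ n = 1 := by
    rw [div_pow, hxD, hWD, div_self (Nat.cast_ne_zero.2 hD0)]
  have hne : NeZero (l ^ n) := ⟨pow_ne_zero _ hl.out.ne_zero⟩
  obtain ⟨c, -, hc⟩ := (hz.prim n).eq_pow_of_pow_eq_one hy
  have hxc : x = W * ι (zF F l n) ^ c := by
    rw [hc, mul_div_cancel₀ _ hW0]
  refine ⟨c, fun g σ hσ => ?_⟩
  have h1 : g x = W * ee (fun n => ι (zF F l n)) n (chiZ l σ * (c : ℤ_[l])) := by
    rw [hxc, map_mul, map_pow, ← hσ, chi_z, map_ee, ee_mul hz]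
    congr 1
    exact g.commutes _
  have h2 : g x = ee (fun n => ι (zF F l n)) n
      (∑ j ∈ Finset.range n, (l : ℤ_[l]) ^ j * kap l (B j) σ) * x := by
    rw [hx, ← hσ, rprod_spec hB, map_mul, map_ee]
  have h3 : x = W * ee (fun n => ι (zF F l n)) n (c : ℤ_[l]) := by
    rw [ee_natCast hz]
    exact hxc
  have h4 : ee (fun n => ι (zF F l n)) n (chiZ l σ * (c : ℤ_[l])) =
      ee (fun n => ι (zF F l n)) n
        (∑ j ∈ Finset.range n, (l : ℤ_[l]) ^ j * kap l (B j) σ + (c : ℤ_[l])) := by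
    refine mul_left_cancel₀ hW0 ?_
    rw [← h1, h2, ee_add hz]
    conv_lhs => rw [h3]
    ring
  have h5 := ee_inj (l := l) hz h4
  obtain ⟨y, hy⟩ := sm_split (l := l) B σ n
  rw [norm_le_iff (l := l), hy, map_sub, map_add, map_mul, map_pow, map_natCast, map_mul, map_sub, map_one,
    map_natCast]
  have h6 : ((l : ℕ) : ZMod (l ^ n)) ^ n = 0 := by
    rw [← Nat.cast_pow, ZMod.natCast_self]
  rw [h6, zero_mul, add_zero]
  rw [map_mul, map_add, map_natCast] at h5
  rw [sub_eq_zero, mul_sub, mul_one, mul_comm, h5, add_sub_cancel_right]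

/-- On the decomposition groups above `l` the cocycle is a coboundary. -/
theorem sm_coboundary {B : ℕ → ℕ} (hB : ∀ j, B j ≠ 0)
    (hpow : ∀ n, ∃ w : ℤ_[l], ((∏ j ∈ Finset.range n, B j ^ l ^ j : ℕ) : ℤ_[l]) = w ^ l ^ n)
    (ι : AlgebraicClosure F →+* PadicAlgCl l) :
    ∃ c : ℤ_[l], ∀ (g : GG l) (σ : AbsGal F), Compat ι g σ →
      sm l B σ = c * (chiZ l σ - 1) := by
  have hl1 : (1 : ℝ) < l := by exact_mod_cast hl.out.one_lt
  let K : ℕ → Set ℤ_[l] := fun n => {c | ∀ (g : GG l) (σ : AbsGal F), Compat ι g σ →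
      ‖sm l B σ - c * (chiZ l σ - 1)‖ ≤ (l : ℝ) ^ (-n : ℤ)}
  have hK : (⋂ n, K n).Nonempty := by
    have hcl : ∀ n, IsClosed (K n) := by
      intro n
      have h : K n = ⋂ (g : GG l) (σ : AbsGal F) (_ : Compat ι g σ),
          {c | ‖sm l B σ - c * (chiZ l σ - 1)‖ ≤ (l : ℝ) ^ (-n : ℤ)} := by
        ext c
        simp only [K, Set.mem_ofPred_eq, Set.mem_iInter]
      rw [h]
      refine isClosed_iInter fun g => isClosed_iInter fun σ => isClosed_iInter fun _ => ?_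
      exact isClosed_le (continuous_norm.comp
        (continuous_const.sub (continuous_id.mul continuous_const))) continuous_const
    refine IsCompact.nonempty_iInter_of_sequence_nonempty_isCompact_isClosed K ?_ ?_ ?_ hcl
    · intro n c hc g σ hσ
      refine (hc g σ hσ).trans (zpow_le_zpow_right₀ hl1.le ?_)
      push_cast
      omega
    · intro n
      obtain ⟨c, hc⟩ := sm_split_nat hB hpow ι n
      exact ⟨c, hc⟩
    · exact (hcl 0).isCompact
  obtain ⟨c, hc⟩ := hK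
  refine ⟨c, fun g σ hσ => ?_⟩
  rw [← sub_eq_zero]
  refine PadicInt.ext_of_toZModPow.1 fun n => ?_
  rw [map_zero]
  exact norm_le_iff.1 (Set.mem_iInter.1 hc n g σ hσ)

theorem alp_coboundary (ι : AlgebraicClosure F →+* PadicAlgCl l) :
    ∃ c : ℤ_[l], ∀ (g : GG l) (σ : AbsGal F), Compat ι g σ → alp l σ = c * (chiZ l σ - 1) :=
  sm_coboundary PR_ne_zero exists_pow_PR ι

theorem bet_coboundary (ι : AlgebraicClosure F →+* PadicAlgCl l) :
    ∃ c : ℤ_[l], ∀ (g : GG l) (σ : AbsGal F), Compat ι g σ → bet l σ = c * (chiZ l σ - 1) :=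
  sm_coboundary (fun i => (QQ_prime (l := l) i).ne_zero) exists_pow_Q ι

end Pool.Agent.N491.CD
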