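import Mathlib
import Pool.Agent.N491.CD.Spl
import Pool.Agent.N491.CD.Cat

/-!
# The representations `ℚ_l(n)` and their extensions
-/

set_option autoImplicit false
set_option linter.unusedSectionVars false
set_option maxHeartbeats 1000000

open NumberField CategoryTheory Polynomial Limits

namespace Pool.Agent.N491.CD

variable {F : Type} [Field F] [NumberField F] {l : ℕ} [hl : Fact l.Prime]

theorem chi_ne_zero (g : AbsGal F) : chi l g ≠ 0 := by
  rw [← coe_chiZ]
  intro h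
  have h1 : chiZ l g = 0 := PadicInt.ext (h.trans PadicInt.coe_zero.symm)
  exact (N829.HT.chiF F l g).ne_zero h1

theorem continuous_chi : Continuous (chi l : AbsGal F → ℚ_[l]) :=
  continuous_subtype_val.comp (continuous_chiZ l)

theorem continuous_chi_zpow (n : ℤ) : Continuous fun g : AbsGal F => chi l g ^ n :=
  continuous_chi.zpow₀ n fun g => Or.inl (chi_ne_zero g)

theorem zpow_split (x : ℚ_[l]) (hx : x ≠ 0) (n : ℤ) : x ^ (n + 1) = x ^ n * x := zpow_add_one₀ hx n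

theorem Tate_apply (n : ℤ) (g : AbsGal F) (x : ℚ_[l]) :
    (Tate F l n).ρ g x = chi l g ^ n * x := rfl

/-- a Kummer cocycle -/
structure IsCoc (a : AbsGal F → ℚ_[l]) : Prop where
  mul : ∀ g h, a (g * h) = a g + chi l g * a h
  cont : Continuous a

theorem IsCoc.one {a : AbsGal F → ℚ_[l]} (ha : IsCoc a) : a 1 = 0 := by
  have h := ha.mul 1 1
  rw [chi_one, mul_one, one_mul] at h
  simpa using h

/-- the cocycle is a coboundary on the decomposition groups above `l` -/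
def IsSplit (a : AbsGal F → ℚ_[l]) : Prop :=
  ∀ ι : AlgebraicClosure F →+* PadicAlgCl l, ∃ c : ℚ_[l], ∀ σ, InDecomposition ι σ →
    a σ = c * (chi l σ - 1)

theorem isCoc_alp : IsCoc fun g : AbsGal F => (alp l g : ℚ_[l]) where
  mul g h := by
    rw [alp_mul, ← coe_chiZ, PadicInt.coe_add, PadicInt.coe_mul]
  cont := continuous_subtype_val.comp continuous_alp

theorem isCoc_bet : IsCoc fun g : AbsGal F => (bet l g : ℚ_[l]) where
  mul g h := by
    rw [bet_mul, ← coe_chiZ, PadicInt.coe_add, PadicInt.coe_mul]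
  cont := continuous_subtype_val.comp continuous_bet

theorem isSplit_alp : IsSplit fun g : AbsGal F => (alp l g : ℚ_[l]) := by
  intro ι
  obtain ⟨c, hc⟩ := alp_coboundary ι
  refine ⟨c, fun σ hσ => ?_⟩
  obtain ⟨g, hg⟩ := hσ
  change ((alp l σ : ℤ_[l]) : ℚ_[l]) = _
  rw [hc g σ hg, PadicInt.coe_mul, PadicInt.coe_sub, PadicInt.coe_one, coe_chiZ]

theorem isSplit_bet : IsSplit fun g : AbsGal F => (bet l g : ℚ_[l]) := by
  intro ι
  obtain ⟨c, hc⟩ := bet_coboundary ι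
  refine ⟨c, fun σ hσ => ?_⟩
  obtain ⟨g, hg⟩ := hσ
  change ((bet l σ : ℤ_[l]) : ℚ_[l]) = _
  rw [hc g σ hg, PadicInt.coe_mul, PadicInt.coe_sub, PadicInt.coe_one, coe_chiZ]

/-- the extension of `ℚ_l(n)` by `ℚ_l(n + 1)` given by a cocycle `a` -/
noncomputable def extRep {a : AbsGal F → ℚ_[l]} (ha : IsCoc a) (n : ℤ) :
    Representation ℚ_[l] (AbsGal F) (ℚ_[l] × ℚ_[l]) where
  toFun g := LinearMap.prod
    ((chi l g ^ (n + 1)) • LinearMap.fst _ _ _ + (chi l g ^ n * a g) • LinearMap.snd _ _ _)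
    ((chi l g ^ n) • LinearMap.snd _ _ _)
  map_one' := by
    refine LinearMap.ext fun x => ?_
    rw [chi_one, ha.one, one_zpow, one_zpow]
    simp
  map_mul' g h := by
    refine LinearMap.ext fun x => ?_
    rw [chi_mul, mul_zpow, mul_zpow, ha.mul]
    have h1 : chi l g ^ (n + 1) = chi l g ^ n * chi l g := zpow_split _ (chi_ne_zero g) n
    refine Prod.ext ?_ ?_
    · change chi l g ^ (n + 1) * chi l h ^ (n + 1) * x.1 +
        chi l g ^ n * chi l h ^ n * (a g + chi l g * a h) * x.2 =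
        chi l g ^ (n + 1) * (chi l h ^ (n + 1) * x.1 + chi l h ^ n * a h * x.2) +
        chi l g ^ n * a g * (chi l h ^ n * x.2)
      rw [h1]
      ring
    · change chi l g ^ n * chi l h ^ n * x.2 = chi l g ^ n * (chi l h ^ n * x.2)
      ring

/-- the extension of `ℚ_l(n)` by `ℚ_l(n + 1)` given by a cocycle `a` -/
noncomputable def ExtT {a : AbsGal F → ℚ_[l]} (ha : IsCoc a) (n : ℤ) : Reps F l :=
  Rep.of (extRep ha n)

section ext

variable {a : AbsGal F → ℚ_[l]} (ha : IsCoc a) (n : ℤ)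

theorem ExtT_apply (g : AbsGal F) (x : ℚ_[l] × ℚ_[l]) : (ExtT ha n).ρ g x =
    (chi l g ^ (n + 1) * x.1 + chi l g ^ n * a g * x.2, chi l g ^ n * x.2) := rfl

theorem ladic_ExtT : IsLadic (ExtT ha n).ρ where
  finite := inferInstanceAs (FiniteDimensional ℚ_[l] (ℚ_[l] × ℚ_[l]))
  continuous v f := by
    let f' : (ℚ_[l] × ℚ_[l]) →ₗ[ℚ_[l]] ℚ_[l] := f
    let v' : ℚ_[l] × ℚ_[l] := v
    have h1 : Continuous f' := LinearMap.continuous_of_finiteDimensional f'
    have h2 : Continuous fun g : AbsGal F =>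
        ((chi l g ^ (n + 1) * v'.1 + chi l g ^ n * a g * v'.2, chi l g ^ n * v'.2) :
          ℚ_[l] × ℚ_[l]) :=
      (((continuous_chi_zpow (n + 1)).mul continuous_const).add
        (((continuous_chi_zpow n).mul ha.cont).mul continuous_const)).prodMk
        ((continuous_chi_zpow n).mul continuous_const)
    exact h1.comp h2

/-- The extension is a direct sum on the decomposition groups above `l`. -/
theorem locallyTate_ExtT (hs : IsSplit a) : IsLocallyTate (ExtT ha n).ρ := by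
  intro ι
  obtain ⟨c, hc⟩ := hs ι
  let shear : (ℚ_[l] × ℚ_[l]) ≃ₗ[ℚ_[l]] (ℚ_[l] × ℚ_[l]) :=
    { toFun := fun x => (x.1 - c * x.2, x.2)
      invFun := fun x => (x.1 + c * x.2, x.2)
      map_add' := fun x y => Prod.ext (by simp; ring) rfl
      map_smul' := fun r x => Prod.ext (by simp; ring) rfl
      left_inv := fun x => Prod.ext (by simp) rfl
      right_inv := fun x => Prod.ext (by simp) rfl }
  let b : Module.Basis (Fin 2) ℚ_[l] (ℚ_[l] × ℚ_[l]) :=
    (Pi.basisFun ℚ_[l] (Fin 2)).map ((LinearEquiv.finTwoArrow ℚ_[l] ℚ_[l]).trans shear)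
  have hb0 : b 0 = ((1 : ℚ_[l]), (0 : ℚ_[l])) := by
    simp [b, shear]
  have hb1 : b 1 = (-c, (1 : ℚ_[l])) := by
    simp [b, shear]
  refine ⟨2, b, ![n + 1, n], fun σ hσ i => ?_⟩
  have hcσ := hc σ hσ
  fin_cases i
  · change (ExtT ha n).ρ σ (b 0) = chi l σ ^ (n + 1) • (b 0)
    rw [hb0, ExtT_apply]
    refine Prod.ext ?_ ?_
    · change chi l σ ^ (n + 1) * 1 + chi l σ ^ n * a σ * 0 = chi l σ ^ (n + 1) * 1
      ring
    · change chi l σ ^ n * 0 = chi l σ ^ (n + 1) * 0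
      ring
  · change (ExtT ha n).ρ σ (b 1) = chi l σ ^ n • (b 1)
    rw [hb1, ExtT_apply]
    refine Prod.ext ?_ ?_
    · change chi l σ ^ (n + 1) * -c + chi l σ ^ n * a σ * 1 = chi l σ ^ n * -c
      rw [hcσ, zpow_split _ (chi_ne_zero σ)]
      ring
    · change chi l σ ^ n * 1 = chi l σ ^ n * 1
      rfl

/-- the value of the cyclotomic character on a geometric Frobenius element -/
theorem chi_frobenius {P : Ideal (𝓞 (AlgebraicClosure F))} (hP : P.IsMaximal)
    (hlP : (l : 𝓞 (AlgebraicClosure F)) ∉ P) {Φ : AbsGal F} (hΦ : IsGeometricFrobenius P Φ) :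
    chi l Φ = (residueCard P : ℚ_[l])⁻¹ := by
  have h := N829.HT.chiF_frob hP hlP hΦ
  have h1 : chi l Φ * (residueCard P : ℚ_[l]) = 1 := by
    have h2 : ((chiZ l Φ * (residueCard P : ℤ_[l]) : ℤ_[l]) : ℚ_[l]) = ((1 : ℤ_[l]) : ℚ_[l]) :=
      congrArg _ h
    rw [PadicInt.coe_mul, PadicInt.coe_one, PadicInt.coe_natCast] at h2
    exact h2
  exact eq_inv_of_mul_eq_one_left h1

theorem residueCard_pos {P : Ideal (𝓞 (AlgebraicClosure F))} (hP : P.IsMaximal)
    (hlP : (l : 𝓞 (AlgebraicClosure F)) ∉ P) {Φ : AbsGal F} (hΦ : IsGeometricFrobenius P Φ) :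
    0 < residueCard P := by
  rcases Nat.eq_zero_or_pos (residueCard P) with h | h
  · exfalso
    have h1 := chi_frobenius hP hlP hΦ
    rw [h, Nat.cast_zero, inv_zero] at h1
    exact chi_ne_zero _ h1
  · exact h

theorem chi_inertia {P : Ideal (𝓞 (AlgebraicClosure F))} (hP : P.IsMaximal)
    (hlP : (l : 𝓞 (AlgebraicClosure F)) ∉ P) {τ : AbsGal F} (hτ : InInertia P τ) : chi l τ = 1 := by
  rw [← coe_chiZ, chiZ, N829.HT.chiF_inertia hP hlP hτ, Units.val_one]
  rfl

theorem zpow_weight {q : ℕ} (n : ℤ) (z : ℂ)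
    (hz : aeval z (X - C (((q : ℚ)⁻¹) ^ n) : ℚ[X]) = 0) :
    ‖z‖ = (q : ℝ) ^ (((-2 * n : ℤ) : ℝ) / 2) := by
  rw [map_sub, aeval_X, aeval_C, sub_eq_zero] at hz
  rw [hz]
  have h1 : (algebraMap ℚ ℂ) (((q : ℚ)⁻¹) ^ n) = (((q : ℂ))⁻¹) ^ n := by
    rw [map_zpow₀, map_inv₀, map_natCast]
  rw [h1, norm_zpow, norm_inv, Complex.norm_natCast]
  have h2 : (((-2 * n : ℤ) : ℝ) / 2) = ((-n : ℤ) : ℝ) := by
    push_cast
    ring
  rw [h2, Real.rpow_intCast, zpow_neg, inv_zpow]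

/-- The extensions of `ℚ_l(n)` by `ℚ_l(n + 1)` are mixed. -/
theorem mixed_of {V : Reps F l} {n : ℤ} (L : Submodule ℚ_[l] V)
    (hL1 : ∀ g, ∀ x ∈ L, V.ρ g x = chi l g ^ (n + 1) • x)
    (hL2 : ∀ g x, V.ρ g x - chi l g ^ n • x ∈ L) : IsMixed V.ρ := by
  classical
  let W : ℤ → Submodule ℚ_[l] V := fun m =>
    if -2 * n ≤ m then ⊤ else if -2 * (n + 1) ≤ m then L else ⊥
  have hW1 : ∀ m, -2 * n ≤ m → W m = ⊤ := fun m h => if_pos h
  have hW2 : ∀ m, ¬ -2 * n ≤ m → -2 * (n + 1) ≤ m → W m = L := fun m h h' => by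
    change (if _ then _ else _) = _
    rw [if_neg h, if_pos h']
  have hW3 : ∀ m, ¬ -2 * (n + 1) ≤ m → W m = ⊥ := fun m h' => by
    change (if _ then _ else _) = _
    rw [if_neg (by omega), if_neg h']
  have hst : ∀ m g, ∀ x ∈ W m, V.ρ g x ∈ W m := by
    intro m g x hx
    by_cases h1 : -2 * n ≤ m
    · rw [hW1 m h1]
      trivial
    by_cases h2 : -2 * (n + 1) ≤ m
    · rw [hW2 m h1 h2] at hx ⊢
      rw [hL1 g x hx]
      exact L.smul_mem _ hx
    · rw [hW3 m h2, Submodule.mem_bot] at hx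
      rw [hx, map_zero]
      exact Submodule.zero_mem _
  refine ⟨W, hst, ?_, ⟨-2 * (n + 1) - 1, hW3 _ (by omega)⟩, ⟨-2 * n, hW1 _ le_rfl⟩, ?_⟩
  · intro m m' hmm
    by_cases h1 : -2 * n ≤ m'
    · rw [hW1 m' h1]
      exact le_top
    by_cases h2 : -2 * (n + 1) ≤ m
    · rw [hW2 m (by omega) h2, hW2 m' h1 (by omega)]
    · rw [hW3 m h2]
      exact bot_le
  · intro m
    refine ⟨1, one_ne_zero, fun P hP _ hlP => ?_⟩
    by_cases h1 : m = -2 * n
    · have e2 : W (m - 1) = L := hW2 _ (by omega) (by omega)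
      rw [e2]
      refine ⟨fun τ hτ x _ => ?_, fun Φ hΦ => ?_⟩
      · have := hL2 τ x
        rwa [chi_inertia hP hlP hτ, one_zpow, one_smul] at this
      · refine ⟨X - C (((residueCard P : ℚ)⁻¹) ^ n), X_sub_C_ne_zero _, fun z hz => ?_, fun x _ => ?_⟩
        · rw [h1]
          exact zpow_weight n z hz
        · rw [Polynomial.map_sub, map_X, map_C, map_sub, aeval_X, aeval_C,
            LinearMap.sub_apply, Module.algebraMap_end_apply, map_zpow₀, map_inv₀, map_natCast,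
            ← chi_frobenius hP hlP hΦ]
          exact hL2 Φ x
    by_cases h2 : m = -2 * (n + 1)
    · have e1 : W m = L := hW2 m (by omega) (by omega)
      have e2 : W (m - 1) = ⊥ := hW3 _ (by omega)
      rw [e1, e2]
      refine ⟨fun τ hτ x hx => ?_, fun Φ hΦ => ?_⟩
      · rw [Submodule.mem_bot, hL1 τ x hx, chi_inertia hP hlP hτ, one_zpow, one_smul, sub_self]
      · refine ⟨X - C (((residueCard P : ℚ)⁻¹) ^ (n + 1)), X_sub_C_ne_zero _, fun z hz => ?_,
          fun x hx => ?_⟩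
        · rw [h2]
          exact zpow_weight (n + 1) z hz
        · rw [Submodule.mem_bot, Polynomial.map_sub, map_X, map_C, map_sub, aeval_X, aeval_C,
            LinearMap.sub_apply, Module.algebraMap_end_apply, map_zpow₀, map_inv₀, map_natCast,
            ← chi_frobenius hP hlP hΦ, hL1 Φ x hx, sub_self]
    · have e1 : W (m - 1) = W m := by
        by_cases h3 : -2 * n ≤ m
        · rw [hW1 m h3, hW1 (m - 1) (by omega)]
        by_cases h4 : -2 * (n + 1) ≤ m
        · rw [hW2 m h3 h4, hW2 (m - 1) (by omega) (by omega)]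
        · rw [hW3 m h4, hW3 (m - 1) (by omega)]
      rw [e1]
      refine ⟨fun τ _ x hx => Submodule.sub_mem _ (hst m τ x hx) hx, fun Φ hΦ => ⟨1, one_ne_zero,
        fun z hz => ?_, fun x hx => ?_⟩⟩
      · rw [map_one] at hz
        exact absurd hz one_ne_zero
      · rw [Polynomial.map_one, map_one]
        exact hx

theorem mixed_ExtT : IsMixed (ExtT ha n).ρ := by
  let L : Submodule ℚ_[l] (ℚ_[l] × ℚ_[l]) := LinearMap.ker (LinearMap.snd ℚ_[l] ℚ_[l] ℚ_[l])
  refine mixed_of (V := ExtT ha n) (n := n) L (fun g x hx => ?_) (fun g x => ?_)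
  · have hx' : (x : ℚ_[l] × ℚ_[l]).2 = 0 := hx
    rw [ExtT_apply]
    refine Prod.ext ?_ ?_
    · change chi l g ^ (n + 1) * (x : ℚ_[l] × ℚ_[l]).1 +
        chi l g ^ n * a g * (x : ℚ_[l] × ℚ_[l]).2 = chi l g ^ (n + 1) * (x : ℚ_[l] × ℚ_[l]).1
      rw [hx', mul_zero, add_zero]
    · change chi l g ^ n * (x : ℚ_[l] × ℚ_[l]).2 = chi l g ^ (n + 1) * (x : ℚ_[l] × ℚ_[l]).2
      rw [hx', mul_zero, mul_zero]
  · rw [ExtT_apply]
    change chi l g ^ n * (x : ℚ_[l] × ℚ_[l]).2 - chi l g ^ n * (x : ℚ_[l] × ℚ_[l]).2 = 0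
    rw [sub_self]

end ext

end Pool.Agent.N491.CD
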