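import Mathlib
import Pool.Agent.N491.CD.Obj
import Pool.Agent.N491.CD.Ext

/-!
# Short exact sequences of mixed representations
-/

set_option autoImplicit false
set_option linter.unusedSectionVars false
set_option maxHeartbeats 1000000

open NumberField CategoryTheory Polynomial Limits

namespace Pool.Agent.N491.CD

variable {F : Type} [Field F] [NumberField F] {l : ℕ} [hl : Fact l.Prime]
  {𝒜 : ObjectProperty (Reps F l)} [IsAdmissible 𝒜]

section exact

variable {A B C : MixedCat 𝒜} {f : A ⟶ B} {g : B ⟶ C} {w : f ≫ g = 0}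

theorem comp_zero_apply (w : f ≫ g = 0) (x : A.obj) : g.hom.hom (f.hom.hom x) = 0 := by
  have h1 : (f ≫ g).hom.hom x = (0 : A ⟶ C).hom.hom x := by rw [w]
  exact h1

theorem shortExact_of (hf : Function.Injective f.hom.hom) (hg : Function.Surjective g.hom.hom)
    (h : ∀ b : B.obj, g.hom.hom b = 0 → ∃ a : A.obj, f.hom.hom a = b) :
    (ShortComplex.mk f g w).ShortExact := by
  have hmono : Mono f := by
    have h1 : Mono ((Mixed 𝒜).ι.map f) := (Rep.mono_iff_injective _).2 hf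
    exact (Mixed 𝒜).ι.mono_of_mono_map h1
  have hepi : Epi g := by
    have h1 : Epi ((Mixed 𝒜).ι.map g) := (Rep.epi_iff_surjective _).2 hg
    exact (Mixed 𝒜).ι.epi_of_epi_map h1
  have hlift : ∀ (K : MixedCat 𝒜) (k : K ⟶ B), k ≫ g = 0 → ∃ t : K ⟶ A, t ≫ f = k := by
    intro K k hk
    let e := LinearEquiv.ofInjective f.hom.hom.toLinearMap hf
    have hr : ∀ x, k.hom.hom.toLinearMap x ∈ LinearMap.range f.hom.hom.toLinearMap := fun x =>
      h _ (comp_zero_apply hk x)
    let t0 : K.obj →ₗ[ℚ_[l]] A.obj :=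
      e.symm.toLinearMap.comp (k.hom.hom.toLinearMap.codRestrict _ hr)
    have ht0 : ∀ x, f.hom.hom (t0 x) = k.hom.hom x := by
      intro x
      have h1 : (e (e.symm ⟨_, hr x⟩) : B.obj) = k.hom.hom x := by
        rw [LinearEquiv.apply_symm_apply]
        rfl
      exact h1
    refine ⟨ObjectProperty.homMk (Rep.ofHom ⟨t0, fun g => ?_⟩), ?_⟩
    · refine LinearMap.ext fun x => hf ?_
      change f.hom.hom (t0 (K.obj.ρ g x)) = f.hom.hom (A.obj.ρ g (t0 x))
      rw [ht0, Rep.hom_comm_apply, Rep.hom_comm_apply, ht0]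
    · apply ObjectProperty.hom_ext
      apply Rep.hom_ext
      ext x
      exact ht0 x
  choose t ht using hlift
  exact
    { exact := ShortComplex.exact_of_f_is_kernel _ (KernelFork.IsLimit.ofι f w
        (fun k hk => t _ k hk) (fun k hk => ht _ k hk) (fun k hk m hm => by
          rw [← cancel_mono f, hm]
          exact (ht _ k hk).symm)) }

theorem ShortExact_inj (h : (ShortComplex.mk f g w).ShortExact) : Function.Injective f.hom.hom := by
  have h1 : (Mixed 𝒜).ι.PreservesMonomorphisms :=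
    (Mixed 𝒜).preservesMonomorphisms_ι_of_isNormalEpiCategory
  have h2 : Mono f := h.mono_f
  have h3 : Mono ((Mixed 𝒜).ι.map f) := inferInstance
  exact (Rep.mono_iff_injective _).1 h3

theorem ShortExact_surj (h : (ShortComplex.mk f g w).ShortExact) :
    Function.Surjective g.hom.hom := by
  have h1 : (Mixed 𝒜).ι.PreservesEpimorphisms :=
    (Mixed 𝒜).preservesEpimorphisms_ι_of_isNormalMonoCategory
  have h2 : Epi g := h.epi_g
  have h3 : Epi ((Mixed 𝒜).ι.map g) := inferInstance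
  exact (Rep.epi_iff_surjective _).1 h3

theorem ShortExact_exact (h : (ShortComplex.mk f g w).ShortExact) (b : B.obj)
    (hb : g.hom.hom b = 0) : ∃ a : A.obj, f.hom.hom a = b := by
  have h2 : Mono f := h.mono_f
  let W : Submodule ℚ_[l] B.obj := LinearMap.ker g.hom.hom.toLinearMap
  have hW : ∀ s, W ≤ W.comap (B.obj.ρ s) := by
    intro s x hx
    have h1 : g.hom.hom x = 0 := hx
    change g.hom.hom (B.obj.ρ s x) = 0
    rw [Rep.hom_comm_apply, h1, map_zero]
  have hm : Mono (Rep.subtype B.obj W hW) := (Rep.mono_iff_injective _).2 Subtype.val_injective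
  let K : MixedCat 𝒜 := ⟨_, (Mixed 𝒜).prop_of_mono (Rep.subtype B.obj W hW) B.property⟩
  let k : K ⟶ B := ObjectProperty.homMk (Rep.subtype B.obj W hW)
  have hk : k ≫ g = 0 := by
    apply ObjectProperty.hom_ext
    apply Rep.hom_ext
    ext x
    exact x.2
  have hlim : IsLimit (KernelFork.ofι f w) := h.exact.fIsKernel
  obtain ⟨t, ht⟩ := KernelFork.IsLimit.lift' hlim k hk
  refine ⟨t.hom.hom (⟨b, hb⟩ : W), ?_⟩
  have h3 : (t ≫ f).hom.hom (⟨b, hb⟩ : W) = k.hom.hom (⟨b, hb⟩ : W) := by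
    have : t ≫ f = k := ht
    rw [this]
  exact h3

end exact

section objects

variable {a : AbsGal F → ℚ_[l]} (ha : IsCoc a) (hs : IsSplit a) (n : ℤ)

/-- the inclusion of `ℚ_l(n + 1)` -/
noncomputable def incl : Tate F l (n + 1) ⟶ ExtT ha n :=
  Rep.ofHom ⟨LinearMap.inl ℚ_[l] ℚ_[l] ℚ_[l], fun g => LinearMap.ext fun x => by
    refine Prod.ext ?_ ?_
    · change chi l g ^ (n + 1) * x = chi l g ^ (n + 1) * x + chi l g ^ n * a g * 0
      ring
    · change (0 : ℚ_[l]) = chi l g ^ n * 0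
      ring⟩

/-- the projection to `ℚ_l(n)` -/
noncomputable def proj : ExtT ha n ⟶ Tate F l n :=
  Rep.ofHom ⟨LinearMap.snd ℚ_[l] ℚ_[l] ℚ_[l], fun g => LinearMap.ext fun _ => rfl⟩

variable (𝒜) in
include hs in
theorem prop_ExtT : Mixed 𝒜 (ExtT ha n) :=
  ⟨ladic_ExtT ha n, mixed_ExtT ha n,
    IsAdmissible.tate _ (ladic_ExtT ha n) (locallyTate_ExtT ha n hs)⟩

variable (𝒜) in
theorem prop_Tate : Mixed 𝒜 (Tate F l n) := by
  have h : Epi (proj (isCoc_alp (F := F) (l := l)) n) :=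
    (Rep.epi_iff_surjective _).2 fun x => ⟨((0 : ℚ_[l]), x), rfl⟩
  exact (Mixed 𝒜).prop_of_epi (proj (isCoc_alp (F := F) (l := l)) n)
    (prop_ExtT 𝒜 _ isSplit_alp n)

variable (𝒜) in
/-- `ℚ_l(n)` as an object of the category of mixed representations in the class `𝒜` -/
noncomputable def QQ (n : ℤ) : MixedCat 𝒜 := ⟨Tate F l n, prop_Tate 𝒜 n⟩

variable (𝒜) in
/-- the extension as an object of the category of mixed representations in the class `𝒜` -/
noncomputable def EE : MixedCat 𝒜 := ⟨ExtT ha n, prop_ExtT 𝒜 ha hs n⟩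

variable (𝒜) in
noncomputable def inc : QQ 𝒜 (n + 1) ⟶ EE 𝒜 ha hs n := ObjectProperty.homMk (incl ha n)

variable (𝒜) in
noncomputable def pro : EE 𝒜 ha hs n ⟶ QQ 𝒜 n := ObjectProperty.homMk (proj ha n)

variable (𝒜) in
theorem inc_pro : inc 𝒜 ha hs n ≫ pro 𝒜 ha hs n = 0 := by
  apply ObjectProperty.hom_ext
  apply Rep.hom_ext
  ext x
  rfl

variable (𝒜) in
theorem shortExact_EE :
    (ShortComplex.mk (inc 𝒜 ha hs n) (pro 𝒜 ha hs n) (inc_pro 𝒜 ha hs n)).ShortExact := by
  refine shortExact_of ?_ ?_ ?_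
  · intro x y h
    exact congrArg Prod.fst h
  · intro x
    exact ⟨((0 : ℚ_[l]), x), rfl⟩
  · intro b hb
    have hb' : (b : ℚ_[l] × ℚ_[l]).2 = 0 := hb
    refine ⟨(b : ℚ_[l] × ℚ_[l]).1, ?_⟩
    exact Prod.ext rfl hb'.symm

end objects

end Pool.Agent.N491.CD
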