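import Mathlib
import Pool.Agent.N491.CD.Seq

/-!
# The group `Ext ^ 2 (ℚ_l, ℚ_l(2))` in the category of mixed representations is not trivial
-/

set_option autoImplicit false
set_option linter.unusedSectionVars false
set_option maxHeartbeats 1000000

universe w

open NumberField CategoryTheory Polynomial Limits Abelian

namespace Pool.Agent.N491.CD

variable {F : Type} [Field F] [NumberField F] {l : ℕ} [hl : Fact l.Prime]

theorem no_blended (V : Reps F l) (hV : IsLadic V.ρ) (e1 e2 e3 : V) (he1 : e1 ≠ 0)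
    (h1 : ∀ g, V.ρ g e1 = chi l g ^ 2 • e1)
    (h2 : ∀ g, V.ρ g e2 = chi l g • e2 + (chi l g * (bet l g : ℚ_[l])) • e1)
    (h3 : ∀ g, ∃ c : ℚ_[l], V.ρ g e3 = e3 + (alp l g : ℚ_[l]) • e2 + c • e1) : False := by
  choose C hC using h3
  obtain ⟨φ, hφ⟩ : ∃ φ : Module.Dual ℚ_[l] V, φ e1 ≠ 0 := by
    by_contra hcon
    push Not at hcon
    exact he1 ((Module.forall_dual_apply_eq_zero_iff ℚ_[l] e1).1 hcon)
  have hc : Continuous C := by
    have h4 : C = fun g => (φ (V.ρ g e3) - φ e3 - (alp l g : ℚ_[l]) * φ e2) * (φ e1)⁻¹ := by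
      funext g
      rw [hC g, map_add, map_add, map_smul, map_smul, smul_eq_mul, smul_eq_mul,
        add_sub_right_comm, add_sub_cancel_left, add_sub_cancel_left, mul_assoc,
        mul_inv_cancel₀ hφ, mul_one]
    rw [h4]
    exact (((hV.continuous e3 φ).sub continuous_const).sub
      ((isCoc_alp (F := F) (l := l)).cont.mul continuous_const)).mul continuous_const
  refine no_function (C := C) (fun g h => ?_) hc
  have h5 : V.ρ (g * h) e3 = V.ρ g (V.ρ h e3) := by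
    rw [Rep.ρ_mul, LinearMap.comp_apply]
  rw [hC, hC h, map_add, map_add, map_smul, map_smul, hC g, h2, h1,
    (isCoc_alp (F := F) (l := l)).mul] at h5
  have h6 : (C (g * h) - (C g + (alp l h : ℚ_[l]) * (chi l g * (bet l g : ℚ_[l])) +
      chi l g ^ 2 * C h)) • e1 = 0 := by
    rw [sub_smul, sub_eq_zero]
    have h7 : C (g * h) • e1 = (e3 + ((alp l g : ℚ_[l]) + chi l g * (alp l h : ℚ_[l])) • e2 +
        C (g * h) • e1) - (e3 + ((alp l g : ℚ_[l]) + chi l g * (alp l h : ℚ_[l])) • e2) := by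
      rw [add_sub_cancel_left]
    rw [h7, h5]
    module
  exact sub_eq_zero.1 ((smul_eq_zero.1 h6).resolve_right he1)

/-- For every admissible class `𝒜` the group `Ext ^ 2 (ℚ_l, ℚ_l(2))` in the category of the mixed
representations which belong to `𝒜` is not trivial: the product of the classes of two extensions of `ℚ_l`
by `ℚ_l(1)` and of `ℚ_l(1)` by `ℚ_l(2)` is not zero. -/
theorem ext_ne_zero (𝒜 : ObjectProperty (Reps F l)) [IsAdmissible 𝒜] [HasExt.{w} (MixedCat 𝒜)] :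
    (shortExact_EE 𝒜 (isCoc_alp (F := F) (l := l)) isSplit_alp 0).extClass.comp
      ((shortExact_EE 𝒜 (isCoc_bet (F := F) (l := l)) isSplit_bet 1).extClass :
        Ext.{w} (QQ 𝒜 1) (QQ 𝒜 2) 1) (rfl : 1 + 1 = 2) ≠ 0 := by
  intro h
  obtain ⟨V, i, q, wq, ψ, hs, h1, h2⟩ := exists_blended
    (shortExact_EE 𝒜 (isCoc_alp (F := F) (l := l)) isSplit_alp 0)
    (shortExact_EE 𝒜 (isCoc_bet (F := F) (l := l)) isSplit_bet 1) h
  have hψi : ∀ x : (QQ 𝒜 2).obj,
      ψ.hom.hom ((inc 𝒜 (isCoc_bet (F := F) (l := l)) isSplit_bet 1).hom.hom x) = i.hom.hom x := fun x => by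
    rw [← h1]
    rfl
  have hqψ : ∀ x : (EE 𝒜 (isCoc_bet (F := F) (l := l)) isSplit_bet 1).obj,
      q.hom.hom (ψ.hom.hom x) = (inc 𝒜 (isCoc_alp (F := F) (l := l)) isSplit_alp 0).hom.hom
        ((pro 𝒜 (isCoc_bet (F := F) (l := l)) isSplit_bet 1).hom.hom x) := fun x => by
    have h3 : (ψ ≫ q).hom.hom x = (pro 𝒜 (isCoc_bet (F := F) (l := l)) isSplit_bet 1 ≫
      inc 𝒜 (isCoc_alp (F := F) (l := l)) isSplit_alp 0).hom.hom x := by rw [h2]
    exact h3
  let o1 : (QQ 𝒜 2 : MixedCat 𝒜).obj := (1 : ℚ_[l])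
  let b1 : (EE 𝒜 (isCoc_bet (F := F) (l := l)) isSplit_bet 1).obj := ((1 : ℚ_[l]), (0 : ℚ_[l]))
  let b2 : (EE 𝒜 (isCoc_bet (F := F) (l := l)) isSplit_bet 1).obj := ((0 : ℚ_[l]), (1 : ℚ_[l]))
  let c1 : (EE 𝒜 (isCoc_alp (F := F) (l := l)) isSplit_alp 0).obj := ((1 : ℚ_[l]), (0 : ℚ_[l]))
  let c2 : (EE 𝒜 (isCoc_alp (F := F) (l := l)) isSplit_alp 0).obj := ((0 : ℚ_[l]), (1 : ℚ_[l]))
  obtain ⟨e3, he3⟩ := ShortExact_surj hs c2
  have hi := ShortExact_inj hs
  have he1 : ψ.hom.hom b1 = i.hom.hom o1 := hψi o1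
  have he2 : q.hom.hom (ψ.hom.hom b2) = c1 := hqψ b2
  refine no_blended V.obj V.property.1 (ψ.hom.hom b1) (ψ.hom.hom b2) e3 ?_ ?_ ?_ ?_
  · rw [he1]
    intro h0
    have h4 : o1 = 0 := hi (h0.trans (map_zero _).symm)
    exact one_ne_zero (α := ℚ_[l]) h4
  · intro g
    rw [← Rep.hom_comm_apply, ← map_smul]
    congr 1
    refine Prod.ext ?_ ?_
    · change chi l g ^ ((1 : ℤ) + 1) * 1 + chi l g ^ (1 : ℤ) * (bet l g : ℚ_[l]) * 0 =
        chi l g ^ 2 * 1
      rw [mul_zero, add_zero, show ((1 : ℤ) + 1) = ((2 : ℕ) : ℤ) from rfl, zpow_natCast]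
    · change chi l g ^ (1 : ℤ) * 0 = chi l g ^ 2 * 0
      rw [mul_zero, mul_zero]
  · intro g
    rw [← Rep.hom_comm_apply, ← map_smul, ← map_smul, ← map_add]
    congr 1
    refine Prod.ext ?_ ?_
    · change chi l g ^ ((1 : ℤ) + 1) * 0 + chi l g ^ (1 : ℤ) * (bet l g : ℚ_[l]) * 1 =
        chi l g * 0 + chi l g * (bet l g : ℚ_[l]) * 1
      rw [zpow_one]
      ring
    · change chi l g ^ (1 : ℤ) * 1 = chi l g * 1 + chi l g * (bet l g : ℚ_[l]) * 0
      rw [zpow_one]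
      ring
  · intro g
    obtain ⟨c, hc⟩ := ShortExact_exact hs
      (V.obj.ρ g e3 - e3 - (alp l g : ℚ_[l]) • ψ.hom.hom b2) (by
        rw [map_sub, map_sub, map_smul, Rep.hom_comm_apply, he3, he2]
        refine Prod.ext ?_ ?_
        · change chi l g ^ ((0 : ℤ) + 1) * 0 + chi l g ^ (0 : ℤ) * (alp l g : ℚ_[l]) * 1 - 0 -
            (alp l g : ℚ_[l]) * 1 = 0
          rw [zpow_zero]
          ring
        · change chi l g ^ (0 : ℤ) * 1 - 1 - (alp l g : ℚ_[l]) * 0 = 0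
          rw [zpow_zero]
          ring)
    let c' : ℚ_[l] := c
    have h5 : i.hom.hom c = c' • ψ.hom.hom b1 := by
      rw [he1, ← map_smul]
      congr 1
      change c' = c' * 1
      rw [mul_one]
    refine ⟨c', ?_⟩
    rw [← h5, hc]
    abel

end Pool.Agent.N491.CD
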